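import Pool.Agent.LibG2.Core

/-!
The lower bound for the moments from one residue class modulo `P(z) / p`.
-/

namespace Pool.Agent.LibG2

open Filter Topology MeasureTheory
open Pool.Agent.LibMaier

/-- **Primes in classes modulo `P(z)/p`**, from below, at a suitable position. -/
theorem primes_ap : ∃ U₀ K : ℝ, 0 < K ∧ ∀ U : ℝ, U₀ ≤ U → ∀ z : ℕ, 2 ≤ z → (z : ℝ) ≤ U →
    ∃ p : ℕ, p.Prime ∧ p ∣ primorial z ∧ ∀ x₀ : ℝ, U ^ 4 ≤ x₀ → x₀ ≤ Real.exp U →
      ∃ x : ℝ, x₀ - 4 * U ≤ x ∧ x ≤ x₀ - 3 * U ∧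
        ∀ (q : ℕ) [NeZero q], q * p = primorial z → ∀ a : ZMod q, IsUnit a →
          (1 - (2 * Real.log U + K) / U) / (q.totient : ℝ) ≤
            ∑ r ∈ (PR x U).filter (fun r : ℕ => (r : ZMod q) = a), wn x r := by
  obtain ⟨U₁, hU₁⟩ := good_sum
  obtain ⟨K₁, hK₁, havg⟩ := exists_S0
  refine ⟨max (max U₁ (Real.exp 4)) 100, K₁ + 3, by positivity, ?_⟩
  intro U hU z hz hzU
  have hUa : U₁ ≤ U := (le_max_left _ _).trans ((le_max_left _ _).trans hU)
  have hUb : Real.exp 4 ≤ U := (le_max_right _ _).trans ((le_max_left _ _).trans hU)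
  have hUc : 100 ≤ U := (le_max_right _ _).trans hU
  have hU0 : 0 < U := by linarith
  obtain ⟨p, hp, hpd, hg⟩ := hU₁ U hUa z hz hzU
  refine ⟨p, hp, hpd, ?_⟩
  intro x₀ hx₀1 hx₀2
  have hU4 : 100 * U ^ 3 ≤ U ^ 4 := by nlinarith [pow_pos hU0 3]
  have hU3 : 10000 * U ≤ U ^ 3 := by nlinarith [mul_pos hU0 hU0]
  obtain ⟨x, hx1, hx2, hS0⟩ := havg U (x₀ - 4 * U) hUb (by linarith)
  refine ⟨x, hx1, by linarith, ?_⟩
  intro q _ hq a ha
  have hxlow : U ^ 3 ≤ x := by linarith
  have hxup : x ≤ Real.exp U := by linarith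
  have hx1' : 1 ≤ x := by linarith
  have hsum := hg q hq x hxlow hxup
  have herr := err_small hUc hxlow hxup
  have hqz : ∀ r : ℕ, r.Prime → r ∣ q → (r : ℝ) ≤ z := by
    intro r hr hrq
    have h1 : r ∣ primorial z := hrq.trans ⟨p, hq.symm⟩
    exact_mod_cast (hr.dvd_primorial_iff).1 h1
  have hzx : (z : ℝ) < Real.exp (x - U) := by
    have h1 := Real.add_one_le_exp (x - U)
    linarith
  have hap := ap_primes_ge (q := q) ha (x := x) (V := U) (z := z) hx1' hU0.le hqz hzx
  refine le_trans ?_ hap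
  have hφ : (0 : ℝ) < q.totient := by
    exact_mod_cast Nat.totient_pos.2 (Nat.pos_of_ne_zero (NeZero.ne q))
  have hφq : (q.totient : ℝ) ≤ Real.exp (2 * U) := by
    have h1 : (q.totient : ℝ) ≤ q := by exact_mod_cast Nat.totient_le q
    have h2 : (q : ℝ) ≤ primorial z := by
      exact_mod_cast Nat.le_of_dvd (primorial_pos z) ⟨p, hq.symm⟩
    have h3 : (primorial z : ℝ) ≤ (4 : ℝ) ^ z := by exact_mod_cast primorial_le_four_pow z
    have h4 : (4 : ℝ) ^ z ≤ Real.exp (2 * U) := by
      have h5 : (4 : ℝ) ≤ Real.exp 2 := by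
        have h6 : Real.exp 2 = Real.exp 1 * Real.exp 1 := by rw [← Real.exp_add]; norm_num
        have h7 := Real.add_one_le_exp (1 : ℝ)
        rw [h6]
        nlinarith
      calc (4 : ℝ) ^ z ≤ (Real.exp 2) ^ z := pow_le_pow_left₀ (by norm_num) h5 z
        _ = Real.exp (z * 2) := by rw [← Real.exp_nat_mul]
        _ ≤ Real.exp (2 * U) := Real.exp_le_exp.2 (by linarith)
    linarith
  have hE1 : Real.exp (-(3 * U)) ≤ 1 / U := by
    rw [one_div, Real.exp_neg]
    apply inv_anti₀ hU0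
    have := Real.add_one_le_exp (3 * U)
    linarith
  have hE2 : Real.exp (-U) ≤ 1 / U := by
    rw [one_div, Real.exp_neg]
    apply inv_anti₀ hU0
    have := Real.add_one_le_exp U
    linarith
  have hE3 : q.totient * Real.exp (-(3 * U)) ≤ 1 / U := by
    calc q.totient * Real.exp (-(3 * U)) ≤ Real.exp (2 * U) * Real.exp (-(3 * U)) := by gcongr
      _ = Real.exp (-U) := by rw [← Real.exp_add]; ring_nf
      _ ≤ 1 / U := hE2
  have h1 : (1 / (q.totient : ℝ)) * (S0 x - err x U -
      ∑ χ ∈ (Finset.univ : Finset (DirichletCharacter ℂ q)).erase 1, ‖SS χ x‖) - err x U =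
      (S0 x - err x U - ∑ χ ∈ (Finset.univ : Finset (DirichletCharacter ℂ q)).erase 1, ‖SS χ x‖ -
        q.totient * err x U) / q.totient := by
    field_simp
  rw [h1]
  apply div_le_div_of_nonneg_right _ hφ.le
  have h2 : q.totient * err x U ≤ q.totient * Real.exp (-(3 * U)) :=
    mul_le_mul_of_nonneg_left herr hφ.le
  have h3 : (2 * Real.log U + (K₁ + 3)) / U = (2 * Real.log U + K₁) / U + 3 * (1 / U) := by
    field_simp
    ring
  rw [h3]
  linarith

/-- **The lower bound for the moments.** -/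
theorem core : ∃ U₀ K : ℝ, 0 < K ∧ ∀ U : ℝ, U₀ ≤ U → ∀ z : ℕ, 2 ≤ z → (z : ℝ) ≤ U →
    ∃ p : ℕ, p.Prime ∧ p ∣ primorial z ∧ ∀ N : ℕ, U ^ 4 ≤ Real.log N → Real.log N ≤ Real.exp U →
      ∀ q m h κ : ℕ, q * p = primorial z → m < q → (h : ℝ) ≤ Real.exp U → 1 ≤ κ →
        ∀ S : ℝ, (κ : ℝ) ≤ S → S ≤ (1 - (2 * Real.log U + K) / U) *
          ((q : ℝ) / q.totient * (RQs q m h).card / Real.log N) →
          Real.exp (-(8 * U)) * ((S - κ) ^ κ / κ.factorial) ≤
            (∑ n ∈ Finset.Icc 1 N, ((pw n h).choose κ : ℝ)) / N := by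
  obtain ⟨U₁, K₁, hK₁, hap⟩ := primes_ap
  -- `1 - (2 log U + K₁)/U ≥ 0` for large `U`
  have hlogU : ∀ᶠ U : ℝ in atTop, 2 * Real.log U + K₁ ≤ U := by
    have h1 : Tendsto (fun x : ℝ => Real.log x / x) atTop (𝓝 0) := by
      have := Real.isLittleO_log_id_atTop.tendsto_div_nhds_zero
      simpa using this
    filter_upwards [h1.eventually_lt_const (show (0 : ℝ) < 1 / 4 by norm_num),
      eventually_ge_atTop (2 * K₁), eventually_gt_atTop (0 : ℝ)] with U h2 h3 h4
    rw [div_lt_iff₀ h4] at h2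
    linarith
  obtain ⟨U₂, hU₂⟩ := eventually_atTop.1 hlogU
  refine ⟨max (max U₁ U₂) 100, K₁ + 1, by positivity, ?_⟩
  intro U hU z hz hzU
  have hUa : U₁ ≤ U := (le_max_left _ _).trans ((le_max_left _ _).trans hU)
  have hUb : U₂ ≤ U := (le_max_right _ _).trans ((le_max_left _ _).trans hU)
  have hUc : 100 ≤ U := (le_max_right _ _).trans hU
  have hU0 : 0 < U := by linarith
  have hθ := hU₂ U hUb
  obtain ⟨p, hp, hpd, hg⟩ := hap U hUa z hz hzU
  refine ⟨p, hp, hpd, ?_⟩
  intro N hN1 hN2 q m h κ hq hmq hh hκ S hκS hS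
  have hU4 : 100 * U ^ 3 ≤ U ^ 4 := by nlinarith [pow_pos hU0 3]
  have hU3 : 10000 * U ≤ U ^ 3 := by nlinarith [mul_pos hU0 hU0]
  set x₀ := Real.log N with hx₀
  obtain ⟨x, hx1, hx2, hcl⟩ := hg x₀ hN1 hN2
  have hq1 : 1 ≤ q := by omega
  haveI : NeZero q := ⟨by omega⟩
  have hqR : (1 : ℝ) ≤ q := by exact_mod_cast hq1
  have hN0 : (0 : ℝ) < N := by
    rcases Nat.eq_zero_or_pos N with h0 | h0
    · rw [h0] at hx₀
      simp at hx₀
      have := pow_pos hU0 3
      linarith
    · exact_mod_cast h0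
  have hNexp : (N : ℝ) = Real.exp x₀ := by rw [hx₀, Real.exp_log hN0]
  have hφ : (0 : ℝ) < q.totient := by
    exact_mod_cast Nat.totient_pos.2 hq1
  have hqexp : (q : ℝ) ≤ Real.exp (2 * U) := by
    have h2 : (q : ℝ) ≤ primorial z := by
      exact_mod_cast Nat.le_of_dvd (primorial_pos z) ⟨p, hq.symm⟩
    have h3 : (primorial z : ℝ) ≤ (4 : ℝ) ^ z := by exact_mod_cast primorial_le_four_pow z
    have h4 : (4 : ℝ) ^ z ≤ Real.exp (2 * U) := by
      have h5 : (4 : ℝ) ≤ Real.exp 2 := by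
        have h6 : Real.exp 2 = Real.exp 1 * Real.exp 1 := by rw [← Real.exp_add]; norm_num
        have h7 := Real.add_one_le_exp (1 : ℝ)
        rw [h6]
        nlinarith
      calc (4 : ℝ) ^ z ≤ (Real.exp 2) ^ z := pow_le_pow_left₀ (by norm_num) h5 z
        _ = Real.exp (z * 2) := by rw [← Real.exp_nat_mul]
        _ ≤ Real.exp (2 * U) := Real.exp_le_exp.2 (by linarith)
    linarith
  have hexp1 : (2 : ℝ) ≤ Real.exp 1 := by
    have := Real.add_one_le_exp (1 : ℝ)
    linarith
  have hexp1' : Real.exp 1 ≤ 3 := by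
    have := Real.exp_one_lt_d9
    linarith
  -- parameters
  have hmq' : (m : ℝ) ≤ q := by exact_mod_cast hmq.le
  set y : ℝ := Real.exp (3 * U) with hy
  have hmh : ((m + h : ℕ) : ℝ) ≤ y := by
    push_cast
    have h1 : Real.exp (2 * U) ≤ Real.exp (3 * U - 1) := Real.exp_le_exp.2 (by linarith)
    have h2 : Real.exp U ≤ Real.exp (3 * U - 1) := Real.exp_le_exp.2 (by linarith)
    have h3 : 2 * Real.exp (3 * U - 1) ≤ y := by
      rw [hy]
      have h4 : Real.exp (3 * U) = Real.exp 1 * Real.exp (3 * U - 1) := by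
        rw [← Real.exp_add]; ring_nf
      rw [h4]
      have := Real.exp_pos (3 * U - 1)
      nlinarith
    linarith
  set A : ℝ := Real.exp (x - U) with hA
  have hA0 : 0 < A := Real.exp_pos _
  have hxlow : 1000 * U ≤ x - U := by linarith
  have hbig : Real.exp (100 * U) ≤ A := Real.exp_le_exp.2 (by linarith)
  have hbig10 : 10 * Real.exp (99 * U) ≤ Real.exp (100 * U) := by
    have h1 : Real.exp (100 * U) = Real.exp U * Real.exp (99 * U) := by
      rw [← Real.exp_add]; ring_nf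
    rw [h1]
    have h2 := Real.add_one_le_exp U
    have := Real.exp_pos (99 * U)
    nlinarith
  have hy99 : y ≤ Real.exp (99 * U) := Real.exp_le_exp.2 (by linarith)
  have hq99 : (q : ℝ) ≤ Real.exp (99 * U) := hqexp.trans (Real.exp_le_exp.2 (by linarith))
  set k1 : ℕ := ⌊A / (2 * q)⌋₊ with hk1
  have hk1le : (k1 : ℝ) * (2 * q) ≤ A := by
    have h1 : (k1 : ℝ) ≤ A / (2 * q) := Nat.floor_le (by positivity)
    rwa [le_div_iff₀ (by positivity)] at h1
  have hk1ge : A ≤ (k1 + 1) * (2 * q) := by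
    have h1 : A / (2 * q) < k1 + 1 := Nat.lt_floor_add_one _
    rw [div_lt_iff₀ (by positivity)] at h1
    exact h1.le
  have hk1q : A / 3 * 1 ≤ k1 * q := by
    nlinarith
  have hk1q' : Real.exp (x - (U + 1)) ≤ k1 * q := by
    -- `e^{-1} ≤ 2/5`
    have h1 : Real.exp (x - (U + 1)) = A / Real.exp 1 := by
      rw [hA, ← Real.exp_sub]
      congr 1
      ring
    have h2 : (5 / 2 : ℝ) ≤ Real.exp 1 := by
      have := Real.exp_one_gt_d9
      linarith
    rw [h1]
    have h3 : A / Real.exp 1 ≤ A / (5 / 2) := div_le_div_of_nonneg_left hA0.le (by norm_num) h2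
    have h4 : A / (5 / 2) = 2 * A / 5 := by ring
    nlinarith
  have hk1big : Real.exp (x - 3 * U - 2) ≤ k1 := by
    have h1 : Real.exp (x - (U + 1)) = Real.exp (x - 3 * U - 1) * Real.exp (2 * U) := by
      rw [← Real.exp_add]; ring_nf
    rw [h1] at hk1q'
    have h2 : Real.exp (x - 3 * U - 1) ≤ k1 := by
      by_contra hcon
      push Not at hcon
      have h3 : (k1 : ℝ) * q < Real.exp (x - 3 * U - 1) * Real.exp (2 * U) := by
        apply mul_lt_mul hcon hqexp (by linarith) (Real.exp_pos _).le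
      linarith
    refine le_trans (Real.exp_le_exp.2 (by linarith)) h2
  have hk1pos : 1 ≤ k1 := by
    have h1 := Real.add_one_le_exp (x - 3 * U - 2)
    have h2 : (0 : ℝ) < k1 := by linarith
    exact_mod_cast h2
  set B : ℝ := Real.exp (x + U) with hB
  set k2 : ℕ := ⌊B / q⌋₊ + 1 with hk2
  have hB0 : 0 < B := Real.exp_pos _
  have hAB : A ≤ B := Real.exp_le_exp.2 (by linarith)
  have hk2gt : B < (k2 : ℝ) * q := by
    have h1 : B / q < ⌊B / q⌋₊ + 1 := Nat.lt_floor_add_one _
    rw [div_lt_iff₀ (by linarith)] at h1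
    rw [hk2]
    push_cast
    exact h1
  have hk2le : (k2 : ℝ) * q ≤ B + q := by
    have h1 : ((⌊B / q⌋₊ : ℕ) : ℝ) ≤ B / q := Nat.floor_le (by positivity)
    rw [le_div_iff₀ (by linarith)] at h1
    rw [hk2]
    push_cast
    linarith
  -- apply the matrix lemma
  have hyk : y ≤ k1 := by
    refine le_trans ?_ hk1big
    rw [hy]
    exact Real.exp_le_exp.2 (by linarith)
  have hx0 : 0 < x := by linarith
  have hrow1 : x - (U + 1) ≤ Real.log (k1 * q) := by
    rw [← Real.log_exp (x - (U + 1))]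
    exact Real.log_le_log (Real.exp_pos _) hk1q'
  have hrow2 : Real.log (k2 * q) ≤ x + (U + 1) := by
    rw [← Real.log_exp (x + (U + 1))]
    apply Real.log_le_log (by linarith)
    have h1 : Real.exp (x + (U + 1)) = Real.exp 1 * B := by
      rw [hB, ← Real.exp_add]; ring_nf
    rw [h1]
    nlinarith
  have hlow : ((k1 * q : ℕ) : ℝ) + y ≤ Real.exp (x - U) := by
    push_cast
    rw [← hA]
    linarith
  have hupp : Real.exp (x + U) < (k2 * q : ℕ) := by
    push_cast
    exact hk2gt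
  set M : ℝ := (1 - (2 * Real.log U + K₁) / U) / (q.totient : ℝ) with hM
  have hmat := matrix_ge (q := q) (k1 := k1) (k2 := k2) (m := m) (h := h) hq1 hk1pos (x := x)
    (V := U) (y := y) (M := M) hU0.le hx0 hmh hyk hrow1 hrow2 hlow hupp (fun a ha => hcl q hq a ha)
  -- the exponential factor
  set E : ℝ := Real.exp (-(((1 + y) * (U + 2) + 1) / k1)) with hE
  have hE1 : 1 - 1 / U ≤ E := by
    have h1 := Real.add_one_le_exp (-(((1 + y) * (U + 2) + 1) / k1))
    have h2 : ((1 + y) * (U + 2) + 1) / k1 ≤ 1 / U := by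
      rw [div_le_div_iff₀ (by exact_mod_cast hk1pos) hU0, one_mul]
      have h3 : Real.exp (100 * U) ≤ k1 := le_trans (Real.exp_le_exp.2 (by linarith)) hk1big
      have h4 : ((1 + y) * (U + 2) + 1) * U ≤ Real.exp (3 * U) * Real.exp U * Real.exp (2 * U) *
          Real.exp U := by
        have h5 : 1 + y ≤ Real.exp (3 * U) * Real.exp U := by
          have h6 := Real.add_one_le_exp U
          have h7 := Real.add_one_le_exp (3 * U)
          rw [hy]
          nlinarith [Real.exp_pos (3 * U)]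
        have h8 : U + 3 ≤ Real.exp (2 * U) := by
          have := Real.add_one_le_exp (2 * U)
          linarith
        have h9 : U ≤ Real.exp U := by
          have := Real.add_one_le_exp U
          linarith
        have h10 : (1 + y) * (U + 2) + 1 ≤ (1 + y) * (U + 3) := by
          have : 0 < y := Real.exp_pos _
          nlinarith
        calc ((1 + y) * (U + 2) + 1) * U ≤ ((1 + y) * (U + 3)) * U :=
              mul_le_mul_of_nonneg_right h10 hU0.le
          _ ≤ ((Real.exp (3 * U) * Real.exp U) * Real.exp (2 * U)) * Real.exp U := by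
              have : 0 < y := Real.exp_pos _
              gcongr
          _ = _ := by ring
      have h11 : Real.exp (3 * U) * Real.exp U * Real.exp (2 * U) * Real.exp U =
          Real.exp (7 * U) := by
        rw [← Real.exp_add, ← Real.exp_add, ← Real.exp_add]
        congr 1
        ring
      rw [h11] at h4
      have h12 : Real.exp (7 * U) ≤ Real.exp (100 * U) := Real.exp_le_exp.2 (by linarith)
      linarith
    linarith
  have hE0 : 0 < E := Real.exp_pos _
  -- `S` is below the weighted mean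
  have hR0 : (0 : ℝ) ≤ (RQs q m h).card := Nat.cast_nonneg _
  have hx₀0 : 0 < x₀ := by linarith [pow_pos hU0 3]
  have hxU : x + U ≤ x₀ := by linarith
  have hxU0 : 0 < x + U := by linarith
  have hθ0 : 0 ≤ 1 - (2 * Real.log U + K₁) / U := by
    rw [sub_nonneg, div_le_one hU0]
    exact hθ
  have hlogU0 : 0 ≤ Real.log U := Real.log_nonneg (by linarith)
  have hSle : S ≤ E * (q / (x + U)) * ((RQs q m h).card * M) := by
    refine hS.trans ?_
    have h1 : 1 - (2 * Real.log U + (K₁ + 1)) / U ≤ E * (1 - (2 * Real.log U + K₁) / U) := by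
      have h2 : (1 - 1 / U) * (1 - (2 * Real.log U + K₁) / U) ≤
          E * (1 - (2 * Real.log U + K₁) / U) := mul_le_mul_of_nonneg_right hE1 hθ0
      refine le_trans ?_ h2
      have h3 : (1 - 1 / U) * (1 - (2 * Real.log U + K₁) / U) =
          1 - (2 * Real.log U + (K₁ + 1)) / U + (1 / U) * ((2 * Real.log U + K₁) / U) := by
        field_simp
        ring
      rw [h3]
      have : 0 ≤ (1 / U) * ((2 * Real.log U + K₁) / U) := by positivity
      linarith
    have hR2 : 0 ≤ (q : ℝ) / q.totient * (RQs q m h).card :=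
      mul_nonneg (div_nonneg (Nat.cast_nonneg _) (Nat.cast_nonneg _)) hR0
    have hR1 : 0 ≤ (q : ℝ) / q.totient * (RQs q m h).card / x₀ := div_nonneg hR2 hx₀0.le
    calc (1 - (2 * Real.log U + (K₁ + 1)) / U) * ((q : ℝ) / q.totient * (RQs q m h).card / x₀)
        ≤ (E * (1 - (2 * Real.log U + K₁) / U)) * ((q : ℝ) / q.totient * (RQs q m h).card / x₀) :=
          mul_le_mul_of_nonneg_right h1 hR1
      _ ≤ (E * (1 - (2 * Real.log U + K₁) / U)) *
            ((q : ℝ) / q.totient * (RQs q m h).card / (x + U)) := by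
          apply mul_le_mul_of_nonneg_left _ (mul_nonneg hE0.le hθ0)
          exact div_le_div_of_nonneg_left hR2 hxU0 hxU
      _ = E * (q / (x + U)) * ((RQs q m h).card * M) := by
          rw [hM]
          ring
  -- total weight
  have hk12 : k1 ≤ k2 := by
    have h1 : (k1 : ℝ) ≤ k2 := by
      by_contra hcon
      push Not at hcon
      have h2 : (k2 : ℝ) * q ≤ k1 * q := mul_le_mul_of_nonneg_right hcon.le (by linarith)
      nlinarith
    exact_mod_cast h1
  have hk1R : (1 : ℝ) ≤ k1 := by exact_mod_cast hk1pos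
  have hW : ∑ t ∈ Finset.Ico k1 k2, Wt q x t ≤ 1 := by
    apply sum_Wt_le_one x hk12
    apply Real.log_le_log (by positivity)
    have h1 : (k1 : ℝ) ≤ k2 := by exact_mod_cast hk12
    gcongr
  have hjen := jensen_choose (s := Finset.Ico k1 k2) (w := fun t => Wt q x t)
    (f := fun t => pw (t * q + m) h) (S := S) (κ := κ) hκ
    (fun t ht => Wt_nonneg hq1 (by rw [Finset.mem_Ico] at ht; omega) x) hW
    (hSle.trans hmat) hκS
  -- uniform average
  have hC0 : ∀ n : ℕ, (0 : ℝ) ≤ ((pw n h).choose κ : ℝ) := fun n => Nat.cast_nonneg _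
  have himg : ((Finset.Ico k1 k2).image (fun t => t * q + m)) ⊆ Finset.Icc 1 N := by
    intro n hn
    rw [Finset.mem_image] at hn
    obtain ⟨t, ht, rfl⟩ := hn
    rw [Finset.mem_Ico] at ht
    rw [Finset.mem_Icc]
    constructor
    · have : 1 ≤ t * q := Nat.mul_pos (by omega) (by omega)
      omega
    · have h1 : ((t * q + m : ℕ) : ℝ) ≤ N := by
        have h2 : (t : ℝ) ≤ k2 := by exact_mod_cast ht.2.le
        have h3 : (t : ℝ) * q ≤ k2 * q := mul_le_mul_of_nonneg_right h2 (by linarith)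
        have h4 : B ≤ Real.exp (x₀ - 2) := Real.exp_le_exp.2 (by linarith)
        have h5 : (q : ℝ) ≤ Real.exp (x₀ - 2) := hqexp.trans (Real.exp_le_exp.2 (by linarith))
        have h6 : 4 * Real.exp (x₀ - 2) ≤ N := by
          rw [hNexp]
          have h7 : Real.exp x₀ = (Real.exp 1 * Real.exp 1) * Real.exp (x₀ - 2) := by
            rw [← Real.exp_add, ← Real.exp_add]; ring_nf
          rw [h7]
          have h8 : (4 : ℝ) ≤ Real.exp 1 * Real.exp 1 := by nlinarith
          exact mul_le_mul_of_nonneg_right h8 (Real.exp_pos _).le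
        push_cast
        linarith
      exact_mod_cast h1
  have hinj : Set.InjOn (fun t : ℕ => t * q + m) (Finset.Ico k1 k2 : Finset ℕ) := by
    intro t _ t' _ h
    simp only [add_left_inj] at h
    exact Nat.eq_of_mul_eq_mul_right hq1 h
  have hunif : (k1 : ℝ) * ∑ t ∈ Finset.Ico k1 k2, Wt q x t * ((pw (t * q + m) h).choose κ : ℝ) ≤
      ∑ n ∈ Finset.Icc 1 N, ((pw n h).choose κ : ℝ) := by
    calc (k1 : ℝ) * ∑ t ∈ Finset.Ico k1 k2, Wt q x t * ((pw (t * q + m) h).choose κ : ℝ)
        = ∑ t ∈ Finset.Ico k1 k2, ((k1 : ℝ) * Wt q x t) * ((pw (t * q + m) h).choose κ : ℝ) := by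
          rw [Finset.mul_sum]
          apply Finset.sum_congr rfl
          intro t _
          ring
      _ ≤ ∑ t ∈ Finset.Ico k1 k2, 1 * ((pw (t * q + m) h).choose κ : ℝ) := by
          apply Finset.sum_le_sum
          intro t ht
          rw [Finset.mem_Ico] at ht
          apply mul_le_mul_of_nonneg_right _ (hC0 _)
          have h1 := Wt_le_inv (q := q) (k := t) hq1 (by omega) x
          have h2 : (k1 : ℝ) ≤ t := by exact_mod_cast ht.1
          have h3 : (0 : ℝ) < t := by linarith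
          rw [le_div_iff₀ h3] at h1
          have h4 := Wt_nonneg (q := q) (k := t) hq1 (by omega) x
          nlinarith
      _ = ∑ n ∈ (Finset.Ico k1 k2).image (fun t => t * q + m), ((pw n h).choose κ : ℝ) := by
          rw [Finset.sum_image hinj]
          simp
      _ ≤ ∑ n ∈ Finset.Icc 1 N, ((pw n h).choose κ : ℝ) :=
          Finset.sum_le_sum_of_subset_of_nonneg himg (fun n _ _ => hC0 n)
  rw [le_div_iff₀ hN0]
  have hk1N : Real.exp (-(8 * U)) * N ≤ k1 := by
    rw [hNexp, ← Real.exp_add]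
    refine le_trans (Real.exp_le_exp.2 ?_) hk1big
    linarith
  have hSκ0 : 0 ≤ (S - κ) ^ κ / (κ.factorial : ℝ) := by
    have : 0 ≤ S - κ := by linarith
    positivity
  calc Real.exp (-(8 * U)) * ((S - κ) ^ κ / κ.factorial) * N
      = (Real.exp (-(8 * U)) * N) * ((S - κ) ^ κ / κ.factorial) := by ring
    _ ≤ k1 * ((S - κ) ^ κ / κ.factorial) := mul_le_mul_of_nonneg_right hk1N hSκ0
    _ ≤ k1 * ∑ t ∈ Finset.Ico k1 k2, Wt q x t * ((pw (t * q + m) h).choose κ : ℝ) :=
        mul_le_mul_of_nonneg_left hjen (by linarith)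
    _ ≤ _ := hunif

end Pool.Agent.LibG2
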