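import Pool.Agent.LibG2.Omega
import Pool.Agent.LibG2.Core2
import Pool.Agent.LibGal99.Cor

/-!
The high moments of the number of primes in short windows exceed those of Cramér's model.
-/

namespace Pool.Agent.LibG2

open Filter Topology
open Pool.Gal99 (ks zz ks_atTop ks_small loglog_small)

lemma Pz_eq_primorial (z : ℕ) : Pool.Gal99.Pz z = primorial z := rfl

/-- `∏ (1 - 1/p) = φ(q)/q` -/
lemma V_eq (s : PS.PSet) : PS.V s = ((PS.Pz s).totient : ℝ) / PS.Pz s := by
  have h1 := Nat.totient_eq_mul_prod_factors (PS.Pz s)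
  rw [PS.D1_pf] at h1
  have h2 : ((PS.Pz s).totient : ℝ) = (PS.Pz s : ℝ) * ∏ p ∈ PS.pr s, (1 - (p : ℝ)⁻¹) := by
    have := congrArg (fun x : ℚ => (x : ℝ)) h1
    push_cast at this
    exact this
  have h3 : (PS.Pz s : ℝ) ≠ 0 := by exact_mod_cast (PS.D1_sqf s).ne_zero
  rw [h2, mul_div_cancel_left₀ _ h3]
  unfold PS.V
  simp only [one_div]

/-- the sieve count is periodic -/
lemma RQs_mod (q m h : ℕ) : (RQs q (m % q) h).card = (RQs q m h).card := by
  classical
  unfold RQs
  apply Finset.card_bij (fun a _ => a + q * (m / q))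
  · intro a ha
    simp only [Finset.mem_filter, Finset.mem_Ioc] at ha ⊢
    have h1 := Nat.mod_add_div m q
    refine ⟨⟨by omega, by omega⟩, ?_⟩
    exact (Nat.coprime_add_mul_left_left a q (m / q)).2 ha.2
  · intro a _ b _ h
    omega
  · intro b hb
    simp only [Finset.mem_filter, Finset.mem_Ioc] at hb
    have h1 := Nat.mod_add_div m q
    refine ⟨b - q * (m / q), ?_, by omega⟩
    simp only [Finset.mem_filter, Finset.mem_Ioc]
    refine ⟨⟨by omega, by omega⟩, ?_⟩
    have h2 : b - q * (m / q) + q * (m / q) = b := by omega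
    have h3 := hb.2
    rw [← h2] at h3
    exact (Nat.coprime_add_mul_left_left _ q (m / q)).1 h3

/-- the conditions that only depend on `h` -/
lemma h_conditions (ε K : ℝ) (hε : 0 < ε) (hε1 : ε ≤ 1) (c M : ℝ) (hc : 0 < c) (U₀ : ℝ) :
    ∀ᶠ h : ℕ in atTop, 0 < ks h ∧ 1 ≤ h ∧
      U₀ ≤ Real.exp ((1 / 2 + ε / 4) * ks h) ∧
      8 * (2 * ((1 / 2 + ε / 4) * ks h) + K) ≤ Real.exp (3 * ε / 16 * ks h) ∧
      Real.log h ≤ Real.exp ((1 / 2 + ε / 4) * ks h) ∧
      Real.log 4 + (1 + ε / 8) * ks h / 2 ≤ c * Real.log h ∧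
      4 * ((1 / 2 + ε / 4) * ks h) ≤ c * Real.log h ∧
      64 * Real.exp ((1 / 2 + ε / 4) * ks h) + 8 * Real.log (max M 1) ≤
        Real.exp ((1 / 2 + ε / 2) * ks h) := by
  have hks := ks_atTop
  have e1 : Tendsto (fun h : ℕ => Real.exp ((1 / 2 + ε / 4) * ks h)) atTop atTop :=
    Real.tendsto_exp_atTop.comp (hks.const_mul_atTop (by positivity))
  have e2 : Tendsto (fun h : ℕ => Real.exp (ε / 4 * ks h)) atTop atTop :=
    Real.tendsto_exp_atTop.comp (hks.const_mul_atTop (by positivity))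
  have hL : Tendsto (fun h : ℕ => Real.log (h : ℝ)) atTop atTop :=
    Real.tendsto_log_atTop.comp tendsto_natCast_atTop_atTop
  -- `x + K ≤ e^{cx}`
  have h3 : ∀ᶠ x : ℝ in atTop, 8 * (2 * ((1 / 2 + ε / 4) * x) + K) ≤ Real.exp (3 * ε / 16 * x) := by
    have h4 : Tendsto (fun x : ℝ => Real.exp (3 * ε / 16 * x) / x) atTop atTop := by
      have h5 : Tendsto (fun y : ℝ => Real.exp y / y ^ 1) atTop atTop :=
        Real.tendsto_exp_div_pow_atTop 1
      have h6 : Tendsto (fun x : ℝ => 3 * ε / 16 * x) atTop atTop :=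
        tendsto_id.const_mul_atTop (by positivity)
      have h7 := (h5.comp h6).const_mul_atTop (show 0 < 3 * ε / 16 by positivity)
      refine h7.congr' ?_
      filter_upwards [eventually_gt_atTop 0] with x hx
      simp only [Function.comp, pow_one]
      field_simp
    filter_upwards [h4.eventually_ge_atTop (8 * (2 * (1 / 2 + ε / 4) + |K|)),
      eventually_ge_atTop 1] with x h5 h6
    rw [le_div_iff₀ (by linarith)] at h5
    refine le_trans ?_ h5
    have h7 : K ≤ |K| * x := by
      have := le_abs_self K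
      have h8 := abs_nonneg K
      nlinarith
    nlinarith
  filter_upwards [hks.eventually_gt_atTop 0, eventually_ge_atTop 1, e1.eventually_ge_atTop U₀,
    hks.eventually h3, loglog_small (1 / 2) (by norm_num),
    ks_small (c / 4) (by positivity), hL.eventually_ge_atTop (4 * Real.log 4 / c + 1),
    e2.eventually_ge_atTop (64 + 8 * Real.log (max M 1))]
    with h a1 a2 a3 a4 a5 a6 a7 a8
  have hc1 : Real.log 4 ≤ c / 4 * Real.log h := by
    have h8 : 4 * Real.log 4 / c ≤ Real.log h := by linarith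
    rw [div_le_iff₀ hc] at h8
    linarith
  have hlog4 : 0 < Real.log 4 := Real.log_pos (by norm_num)
  have hLh : 0 < Real.log h := by
    have : 0 ≤ 4 * Real.log 4 / c := by positivity
    linarith
  have hcL : 0 < c * Real.log h := by positivity
  refine ⟨a1, a2, a3, a4, ?_, ?_, ?_, ?_⟩
  · rw [← Real.exp_log hLh]
    apply Real.exp_le_exp.2
    nlinarith
  · have : (1 + ε / 8) * ks h / 2 ≤ ks h := by nlinarith
    nlinarith
  · have : 4 * ((1 / 2 + ε / 4) * ks h) ≤ 3 * ks h := by nlinarith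
    nlinarith
  · have h9 : Real.exp ((1 / 2 + ε / 2) * ks h) =
        Real.exp (ε / 4 * ks h) * Real.exp ((1 / 2 + ε / 4) * ks h) := by
      rw [← Real.exp_add]
      congr 1
      ring
    rw [h9]
    have h10 : 1 ≤ Real.exp ((1 / 2 + ε / 4) * ks h) := Real.one_le_exp (by positivity)
    have h11 : 0 ≤ Real.log (max M 1) := Real.log_nonneg (le_max_right _ _)
    calc 64 * Real.exp ((1 / 2 + ε / 4) * ks h) + 8 * Real.log (max M 1)
        ≤ (64 + 8 * Real.log (max M 1)) * Real.exp ((1 / 2 + ε / 4) * ks h) := by nlinarith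
      _ ≤ _ := mul_le_mul_of_nonneg_right a8 (by linarith)

/-- **The high moments of the number of primes in short windows exceed those of a Poisson
variable.** -/
theorem moments_above (ε δ A M : ℝ) (hε : 0 < ε) (hε1 : ε ≤ 1) (hδ : 0 < δ) (hA : 0 < A) :
    ∀ᶠ N : ℕ in atTop, ∀ h κ : ℕ, Real.log N ^ (1 + δ) ≤ h → (h : ℝ) ≤ Real.log N ^ A →
      (1 + ε) * ks h ≤ Real.log κ → (κ : ℝ) ≤ ((h : ℝ) / Real.log N) ^ (1 - ε) →
        M * (((h : ℝ) / Real.log N) ^ κ / κ.factorial) ≤
          (∑ n ∈ Finset.Icc 1 N, ((pw n h).choose κ : ℝ)) / N := by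
  obtain ⟨U₀, K, hK, hcore⟩ := core
  set ε₁ := ε / 8 with hε₁
  set c := min (min (ε * (δ / (1 + δ))) (1 / A)) 1 with hc
  have hc0 : 0 < c := by
    rw [hc]
    positivity
  have hcA : c * A ≤ 1 := by
    have h1 : c ≤ 1 / A := (min_le_left _ _).trans (min_le_right _ _)
    rw [le_div_iff₀ hA] at h1
    exact h1
  have hcδ : c ≤ ε * (δ / (1 + δ)) := (min_le_left _ _).trans (min_le_left _ _)
  obtain ⟨H₀, hH₀⟩ := eventually_atTop.1 ((h_conditions ε K hε hε1 c M hc0 U₀).and
    (PS.omega' ε₁ (by positivity)))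
  have hLN : Tendsto (fun N : ℕ => Real.log (N : ℝ)) atTop atTop :=
    Real.tendsto_log_atTop.comp tendsto_natCast_atTop_atTop
  have hLLN : Tendsto (fun N : ℕ => Real.log (Real.log (N : ℝ))) atTop atTop :=
    Real.tendsto_log_atTop.comp hLN
  have hpow : Tendsto (fun N : ℕ => Real.log (N : ℝ) ^ (1 + δ)) atTop atTop :=
    (tendsto_rpow_atTop (by positivity)).comp hLN
  filter_upwards [hLN.eventually_ge_atTop 2, hpow.eventually_ge_atTop (max (H₀ : ℝ) 1),
    hLLN.eventually_gt_atTop 0] with N hN2 hNH hLL h κ hh1 hh2 hκ1 hκ2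
  have hhH : H₀ ≤ h := by
    have : (H₀ : ℝ) ≤ h := ((le_max_left _ _).trans hNH).trans hh1
    exact_mod_cast this
  obtain ⟨⟨b1, b2, b3, b4, b5, b6, b7, b8⟩, hz2, hzlog, hom⟩ := hH₀ h hhH
  set x₀ := Real.log N with hx₀
  have hx₀0 : 0 < x₀ := by linarith
  have hh0 : (0 : ℝ) < h := by exact_mod_cast b2
  -- sizes of `log h`
  have hlh1 : (1 + δ) * Real.log x₀ ≤ Real.log h := by
    rw [← Real.log_rpow hx₀0]
    exact Real.log_le_log (Real.rpow_pos_of_pos hx₀0 _) hh1
  have hlh2 : Real.log h ≤ A * Real.log x₀ := by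
    rw [← Real.log_rpow hx₀0]
    exact Real.log_le_log hh0 hh2
  -- parameters
  set U : ℝ := Real.exp ((1 / 2 + ε / 4) * ks h) with hU
  set η : ℝ := Real.exp (-((1 + ε₁) * ks h / 2)) with hη
  have hU0 : 0 < U := Real.exp_pos _
  have hη0 : 0 < η := Real.exp_pos _
  have hη1 : η ≤ 1 := Real.exp_le_one_iff.2 (by
    have : 0 < (1 + ε₁) * ks h / 2 := by positivity
    linarith)
  have hlogU : Real.log U = (1 / 2 + ε / 4) * ks h := Real.log_exp _
  have hz0 : (0 : ℝ) < zz h := by
    have : 0 < zz h := by omega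
    exact_mod_cast this
  have hzU : (zz h : ℝ) ≤ U := by
    rw [← Real.exp_log hz0, hU]
    apply Real.exp_le_exp.2
    refine hzlog.trans ?_
    rw [hε₁]
    nlinarith
  obtain ⟨p, hp, hpd, hcl⟩ := hcore U b3 (zz h) hz2 hzU
  -- conditions on `N`
  have hN1 : U ^ 4 ≤ x₀ := by
    have h1 : U ^ 4 = Real.exp (4 * ((1 / 2 + ε / 4) * ks h)) := by
      rw [hU, ← Real.exp_nat_mul]
      norm_num
    rw [h1]
    have h2 : c * Real.log h ≤ Real.log x₀ := by
      calc c * Real.log h ≤ c * (A * Real.log x₀) := mul_le_mul_of_nonneg_left hlh2 hc0.le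
        _ = (c * A) * Real.log x₀ := by ring
        _ ≤ 1 * Real.log x₀ := mul_le_mul_of_nonneg_right hcA hLL.le
        _ = Real.log x₀ := one_mul _
    calc Real.exp (4 * ((1 / 2 + ε / 4) * ks h)) ≤ Real.exp (Real.log x₀) :=
          Real.exp_le_exp.2 (b7.trans h2)
      _ = x₀ := Real.exp_log hx₀0
  have hlogx₀ : Real.log x₀ ≤ U := by
    have h1 : Real.log x₀ ≤ (1 + δ) * Real.log x₀ := by nlinarith
    linarith
  have hN2' : x₀ ≤ Real.exp U := by
    rw [← Real.exp_log hx₀0]
    exact Real.exp_le_exp.2 hlogx₀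
  have hhU : (h : ℝ) ≤ Real.exp U := by
    rw [← Real.exp_log hh0]
    exact Real.exp_le_exp.2 b5
  -- `κ`
  have hlogκ : 0 < Real.log κ := lt_of_lt_of_le (by positivity) hκ1
  have hκ0 : 1 ≤ κ := by
    rcases Nat.eq_zero_or_pos κ with h0 | h0
    · rw [h0] at hlogκ
      simp at hlogκ
    · exact h0
  have hκR : (0 : ℝ) < κ := by exact_mod_cast hκ0
  -- the window
  have hpmem : p ∈ Pool.Gal99.pr (zz h) := by
    unfold Pool.Gal99.pr
    rw [Finset.mem_filter, Finset.mem_range]
    have := (hp.dvd_primorial_iff).1 hpd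
    exact ⟨by omega, hp⟩
  obtain ⟨m, hm⟩ := hom p hpmem
  set s := PS.erz (zz h) p with hs
  set q := PS.Pz s with hq
  have hqp : q * p = primorial (zz h) := by
    have h1 := PS.Pz_erz hpmem
    rw [Pz_eq_primorial] at h1
    rw [h1, mul_comm]
  have hq0 : 0 < q := Nat.pos_of_ne_zero (PS.D1_sqf s).ne_zero
  have hqR : (0 : ℝ) < q := by exact_mod_cast hq0
  have hφ : (0 : ℝ) < q.totient := by exact_mod_cast Nat.totient_pos.2 hq0
  have hVq : PS.V s = (q.totient : ℝ) / q := V_eq s
  have hR : (h : ℝ) * (1 + η) ≤ (q : ℝ) / q.totient * (RQs q (m % q) h).card := by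
    have h1 : η ≤ PS.er s m h := hm
    unfold PS.er at h1
    rw [hVq] at h1
    have h2 : (PS.R s m h : ℝ) = (RQs q (m % q) h).card := by
      rw [RQs_mod]
      rfl
    rw [h2] at h1
    have h3 : 1 + η ≤ ((RQs q (m % q) h).card : ℝ) / (h * (q.totient / q)) := by linarith
    rw [le_div_iff₀ (by positivity)] at h3
    have h4 : (h : ℝ) * (1 + η) = (q / q.totient) * ((1 + η) * (h * (q.totient / q))) := by
      field_simp
    rw [h4]
    exact mul_le_mul_of_nonneg_left h3 (by positivity)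
  set lam : ℝ := (h : ℝ) / x₀ with hlam
  have hlam0 : 0 < lam := by positivity
  -- the error is small compared with `η`
  have hθ : (2 * Real.log U + K) / U ≤ η / 8 := by
    rw [div_le_div_iff₀ hU0 (by norm_num), hlogU]
    have h1 : η * U = Real.exp (3 * ε / 16 * ks h) := by
      rw [hη, hU, ← Real.exp_add, hε₁]
      congr 1
      ring
    linarith
  set S : ℝ := lam * (1 + η / 2) with hS
  have hSle : S ≤ (1 - (2 * Real.log U + K) / U) *
      ((q : ℝ) / q.totient * (RQs q (m % q) h).card / x₀) := by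
    have h1 : lam * (1 + η) ≤ (q : ℝ) / q.totient * (RQs q (m % q) h).card / x₀ := by
      rw [hlam, div_mul_eq_mul_div]
      exact div_le_div_of_nonneg_right hR hx₀0.le
    have h2 : 1 - η / 8 ≤ 1 - (2 * Real.log U + K) / U := by linarith
    have h3 : 0 ≤ lam * (1 + η) := by positivity
    calc S ≤ (1 - η / 8) * (lam * (1 + η)) := by
          rw [hS]
          have h4 : (1 - η / 8) * (lam * (1 + η)) - lam * (1 + η / 2) =
              lam * (η * (3 - η) / 8) := by ring
          have h5 : 0 ≤ lam * (η * (3 - η) / 8) := by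
            have : 0 ≤ 3 - η := by linarith
            positivity
          linarith
      _ ≤ (1 - (2 * Real.log U + K) / U) * (lam * (1 + η)) := mul_le_mul_of_nonneg_right h2 h3
      _ ≤ _ := by
          apply mul_le_mul_of_nonneg_left h1
          linarith
  -- `κ ≤ λ η / 4`
  have hloglam : c * Real.log h ≤ ε * Real.log lam := by
    have h1 : Real.log lam = Real.log h - Real.log x₀ := Real.log_div hh0.ne' hx₀0.ne'
    have h2 : δ / (1 + δ) * Real.log h ≤ Real.log lam := by
      rw [h1]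
      have h3 : Real.log x₀ ≤ Real.log h / (1 + δ) := by
        rw [le_div_iff₀ (by linarith)]
        linarith
      have h4 : δ / (1 + δ) * Real.log h = Real.log h - Real.log h / (1 + δ) := by
        field_simp
        ring
      linarith
    have hlh0 : 0 ≤ Real.log h := by
      have : 0 ≤ (1 + δ) * Real.log x₀ := by positivity
      linarith
    calc c * Real.log h ≤ (ε * (δ / (1 + δ))) * Real.log h :=
          mul_le_mul_of_nonneg_right hcδ hlh0
      _ = ε * (δ / (1 + δ) * Real.log h) := by ring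
      _ ≤ ε * Real.log lam := mul_le_mul_of_nonneg_left h2 hε.le
  have hκle : (κ : ℝ) ≤ lam * (η / 4) := by
    have h1 : lam ^ (1 - ε) = lam * lam ^ (-ε) := by
      rw [sub_eq_add_neg, Real.rpow_add hlam0, Real.rpow_one]
    rw [h1] at hκ2
    refine hκ2.trans (mul_le_mul_of_nonneg_left ?_ hlam0.le)
    have h2 : lam ^ (-ε) = Real.exp (-(ε * Real.log lam)) := by
      rw [Real.rpow_def_of_pos hlam0]
      congr 1
      ring
    have h3 : η / 4 = Real.exp (-(Real.log 4 + (1 + ε₁) * ks h / 2)) := by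
      rw [neg_add, Real.exp_add, Real.exp_neg (Real.log 4), Real.exp_log (by norm_num), hη]
      ring
    rw [h2, h3]
    apply Real.exp_le_exp.2
    have h4 : Real.log 4 + (1 + ε₁) * ks h / 2 ≤ c * Real.log h := b6
    linarith
  have hκS : (κ : ℝ) ≤ S := by
    rw [hS]
    have h1 : lam * (η / 4) ≤ lam * (1 + η / 2) := by
      apply mul_le_mul_of_nonneg_left _ hlam0.le
      linarith
    linarith
  have hfin := hcl N hN1 hN2' q (m % q) h κ hqp (Nat.mod_lt m hq0) hhU hκ0 S hκS hSle
  refine le_trans ?_ hfin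
  have hfac : (0 : ℝ) < κ.factorial := by exact_mod_cast κ.factorial_pos
  have hSκ : lam * (1 + η / 4) ≤ S - κ := by
    rw [hS]
    have : lam * (1 + η / 2) - lam * (η / 4) = lam * (1 + η / 4) := by ring
    linarith
  have hpowle : (lam * (1 + η / 4)) ^ κ ≤ (S - κ) ^ κ :=
    pow_le_pow_left₀ (by positivity) hSκ κ
  -- the gain
  have hgain : M ≤ Real.exp (-(8 * U)) * (1 + η / 4) ^ κ := by
    have h1 : Real.exp (η / 8) ≤ 1 + η / 4 := by
      have h2 := Real.exp_bound' (x := η / 8) (by positivity) (by linarith) (n := 1) (by norm_num)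
      have h3 : ∑ m ∈ Finset.range 1, (η / 8) ^ m / (m.factorial : ℝ) = 1 := by simp
      rw [h3] at h2
      norm_num at h2
      linarith
    have h4 : Real.exp (η / 8 * κ) ≤ (1 + η / 4) ^ κ := by
      calc Real.exp (η / 8 * κ) = (Real.exp (η / 8)) ^ κ := by
            rw [← Real.exp_nat_mul]
            ring_nf
        _ ≤ (1 + η / 4) ^ κ := pow_le_pow_left₀ (Real.exp_pos _).le h1 κ
    have h5 : Real.exp ((1 / 2 + ε / 2) * ks h) ≤ η * κ := by
      rw [← Real.exp_log hκR, hη, ← Real.exp_add]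
      apply Real.exp_le_exp.2
      have : (1 / 2 + ε / 2) * ks h ≤ -((1 + ε₁) * ks h / 2) + (1 + ε) * ks h := by
        rw [hε₁]
        nlinarith
      linarith
    have h6 : Real.log (max M 1) ≤ -(8 * U) + η / 8 * κ := by linarith
    calc M ≤ max M 1 := le_max_left _ _
      _ = Real.exp (Real.log (max M 1)) := (Real.exp_log (by positivity)).symm
      _ ≤ Real.exp (-(8 * U) + η / 8 * κ) := Real.exp_le_exp.2 h6
      _ = Real.exp (-(8 * U)) * Real.exp (η / 8 * κ) := Real.exp_add _ _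
      _ ≤ _ := mul_le_mul_of_nonneg_left h4 (Real.exp_pos _).le
  have hlk : 0 ≤ lam ^ κ / (κ.factorial : ℝ) := by positivity
  calc M * (lam ^ κ / κ.factorial)
      ≤ (Real.exp (-(8 * U)) * (1 + η / 4) ^ κ) * (lam ^ κ / κ.factorial) :=
        mul_le_mul_of_nonneg_right hgain hlk
    _ = Real.exp (-(8 * U)) * ((lam * (1 + η / 4)) ^ κ / κ.factorial) := by
        rw [mul_pow]
        ring
    _ ≤ Real.exp (-(8 * U)) * ((S - κ) ^ κ / κ.factorial) := by
        apply mul_le_mul_of_nonneg_left _ (Real.exp_pos _).le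
        exact div_le_div_of_nonneg_right hpowle hfac.le

end Pool.Agent.LibG2
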