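import Pool.Agent.LibG2.Sum
import Pool.Agent.LibMaier.APSum
import Pool.Agent.LibMaier.Mertens1

/-!
Primes in reduced classes modulo `P(z) / p`, with a Gaussian weight, from below.
-/

namespace Pool.Agent.LibG2

open Filter Topology Complex DirichletCharacter MeasureTheory
open Pool.Agent.LibMaier
open scoped ArithmeticFunction.vonMangoldt

lemma exp_two_le8 : Real.exp 2 ≤ 8 := exp_two_le

lemma gw_le_exp (v : ℝ) : gw v ≤ Real.exp (-v ^ 2 / 2) := by
  unfold gw
  apply div_le_self (Real.exp_pos _).le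
  rw [Real.one_le_sqrt]
  have := Real.pi_gt_three
  linarith

/-- the weight of `n`, with half of the Gaussian decay kept -/
lemma wn_le_tail {x : ℝ} (hx : 1 ≤ x) (n : ℕ) :
    wn x n ≤ Real.exp (-(Real.log n - x) ^ 2 / 4) * (8 * (Λ n * (n : ℝ) ^ (-(1 + 1 / x)))) := by
  rcases Nat.eq_zero_or_pos n with rfl | hn
  · unfold wn
    simp
  have hn0 : (0 : ℝ) < n := by exact_mod_cast hn
  have hx0 : 0 < x := by linarith
  set v : ℝ := Real.log n - x with hv
  set σ : ℝ := 1 / x with hσ
  have hσ0 : 0 < σ := by positivity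
  have hσ1 : σ ≤ 1 := by rw [hσ, div_le_one hx0]; exact hx
  have hσx : σ * x = 1 := by rw [hσ]; field_simp
  have h1 : gw v ≤ Real.exp (-v ^ 2 / 4) * (8 * (n : ℝ) ^ (-σ)) := by
    have h2 : (n : ℝ) ^ (-σ) = Real.exp (-σ * Real.log n) := by
      rw [Real.rpow_def_of_pos hn0]
      congr 1
      ring
    calc gw v ≤ Real.exp (-v ^ 2 / 2) := gw_le_exp v
      _ ≤ Real.exp (-v ^ 2 / 4 + (2 + -σ * Real.log n)) := by
          apply Real.exp_le_exp.2
          have h3 : Real.log n = v + x := by rw [hv]; ring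
          rw [h3]
          nlinarith [sq_nonneg (v / 2 - σ), sq_nonneg σ]
      _ = Real.exp (-v ^ 2 / 4) * (Real.exp 2 * Real.exp (-σ * Real.log n)) := by
          rw [Real.exp_add, Real.exp_add]
      _ ≤ Real.exp (-v ^ 2 / 4) * (8 * (n : ℝ) ^ (-σ)) := by
          rw [h2]
          have := exp_two_le8
          gcongr
  have hΛ : 0 ≤ Λ n := ArithmeticFunction.vonMangoldt_nonneg
  unfold wn
  calc Λ n * (gw v / n) ≤ Λ n * ((Real.exp (-v ^ 2 / 4) * (8 * (n : ℝ) ^ (-σ))) / n) := by
        gcongr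
    _ = Real.exp (-v ^ 2 / 4) * (8 * (Λ n * ((n : ℝ) ^ (-σ) / n))) := by ring
    _ = Real.exp (-v ^ 2 / 4) * (8 * (Λ n * (n : ℝ) ^ (-(1 + σ)))) := by
        congr 3
        rw [div_eq_mul_inv, ← Real.rpow_neg_one (n : ℝ), ← Real.rpow_add hn0]
        congr 1
        ring

/-- the error terms -/
noncomputable def err (x V : ℝ) : ℝ :=
  6920 * x ^ 2 * Real.exp (-V ^ 2 / 4) + 2 * (x + V) * Real.exp (-x / 2 + 3 * V / 2)

/-- the primes with `|log p - x| ≤ V` -/
noncomputable def PR (x V : ℝ) : Finset ℕ :=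
  (Finset.Ioc 0 ⌊Real.exp (x + V)⌋₊).filter (fun n : ℕ => n.Prime ∧ x - V ≤ Real.log n)

lemma mem_PR {x V : ℝ} {n : ℕ} :
    n ∈ PR x V ↔ n.Prime ∧ x - V ≤ Real.log n ∧ Real.log n ≤ x + V := by
  unfold PR
  rw [Finset.mem_filter, Finset.mem_Ioc]
  constructor
  · rintro ⟨⟨h1, h2⟩, h3, h4⟩
    refine ⟨h3, h4, ?_⟩
    have h5 : (n : ℝ) ≤ Real.exp (x + V) := (Nat.le_floor_iff (Real.exp_pos _).le).1 h2
    rw [← Real.log_exp (x + V)]
    exact Real.log_le_log (by exact_mod_cast h1) h5
  · rintro ⟨h1, h2, h3⟩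
    have hn : (0 : ℝ) < n := by exact_mod_cast h1.pos
    refine ⟨⟨h1.pos, ?_⟩, h1, h2⟩
    apply (Nat.le_floor_iff (Real.exp_pos _).le).2
    rw [← Real.log_le_iff_le_exp hn]
    exact h3

lemma summable_ite (x : ℝ) (P : ℕ → Prop) [DecidablePred P] :
    Summable fun n : ℕ => (if P n then wn x n else 0) := by
  apply Summable.of_nonneg_of_le _ _ (summable_wn x)
  · intro n
    split_ifs
    · exact wn_nonneg x n
    · exact le_rfl
  · intro n
    split_ifs
    · exact le_rfl
    · exact wn_nonneg x n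

/-- the Gaussian tail -/
lemma tail_wn {x V : ℝ} (hx : 1 ≤ x) (hV : 0 ≤ V) (P : ℕ → Prop) [DecidablePred P]
    (hP : ∀ n, P n → V ≤ |Real.log n - x|) :
    ∑' n, (if P n then wn x n else 0) ≤ 6920 * x ^ 2 * Real.exp (-V ^ 2 / 4) := by
  have hx0 : 0 < x := by linarith
  have hs := (summable_LS (σ := 1 / x) (by positivity)).mul_left (Real.exp (-V ^ 2 / 4) * 8)
  have h1 : ∀ n : ℕ, (if P n then wn x n else 0) ≤
      Real.exp (-V ^ 2 / 4) * 8 * (Λ n * (n : ℝ) ^ (-(1 + 1 / x))) := by
    intro n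
    have h0 : 0 ≤ Λ n * (n : ℝ) ^ (-(1 + 1 / x)) :=
      mul_nonneg ArithmeticFunction.vonMangoldt_nonneg (by positivity)
    split_ifs with h
    · refine (wn_le_tail hx n).trans ?_
      rw [← mul_assoc]
      apply mul_le_mul_of_nonneg_right _ h0
      apply mul_le_mul_of_nonneg_right _ (by norm_num)
      apply Real.exp_le_exp.2
      have h2 := hP n h
      have h3 : V ^ 2 ≤ (Real.log n - x) ^ 2 := by
        rw [← sq_abs (Real.log n - x)]
        exact pow_le_pow_left₀ hV h2 2
      linarith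
    · positivity
  calc ∑' n, (if P n then wn x n else 0)
      ≤ ∑' n, Real.exp (-V ^ 2 / 4) * 8 * (Λ n * (n : ℝ) ^ (-(1 + 1 / x))) :=
        Summable.tsum_le_tsum h1 (summable_ite x P) hs
    _ = Real.exp (-V ^ 2 / 4) * 8 * LS (1 / x) := by rw [tsum_mul_left, LS]
    _ ≤ Real.exp (-V ^ 2 / 4) * 8 * (865 * x ^ 2) := by
        have := LS_inv_le hx
        gcongr
    _ = 6920 * x ^ 2 * Real.exp (-V ^ 2 / 4) := by ring

/-- the prime powers -/
lemma nonprime_wn {x V : ℝ} (hV : 0 ≤ V) (hVx : 0 ≤ x + V) :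
    ∑ n ∈ (Finset.Ioc 0 ⌊Real.exp (x + V)⌋₊).filter (fun n : ℕ => ¬ n.Prime ∧ x - V ≤ Real.log n),
      wn x n ≤ 2 * (x + V) * Real.exp (-x / 2 + 3 * V / 2) := by
  have h1 : ∀ n ∈ (Finset.Ioc 0 ⌊Real.exp (x + V)⌋₊).filter
      (fun n : ℕ => ¬ n.Prime ∧ x - V ≤ Real.log n), wn x n ≤ Real.exp (-(x - V)) * Λ n := by
    intro n hn
    rw [Finset.mem_filter, Finset.mem_Ioc] at hn
    obtain ⟨⟨h2, _⟩, _, h3⟩ := hn
    have hn0 : (0 : ℝ) < n := by exact_mod_cast h2
    have h4 : Real.exp (x - V) ≤ n := by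
      rw [← Real.exp_log hn0]
      exact Real.exp_le_exp.2 h3
    unfold wn
    have h5 : gw (Real.log n - x) / n ≤ Real.exp (-(x - V)) := by
      rw [Real.exp_neg, ← one_div]
      apply div_le_div₀ zero_le_one _ (Real.exp_pos _) h4
      have := gw_le_exp (Real.log n - x)
      refine this.trans (Real.exp_le_one_iff.2 ?_)
      nlinarith [sq_nonneg (Real.log n - x)]
    calc Λ n * (gw (Real.log n - x) / n) ≤ Λ n * Real.exp (-(x - V)) :=
          mul_le_mul_of_nonneg_left h5 ArithmeticFunction.vonMangoldt_nonneg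
      _ = _ := mul_comm _ _
  have hY : 1 ≤ Real.exp (x + V) := Real.one_le_exp hVx
  calc ∑ n ∈ (Finset.Ioc 0 ⌊Real.exp (x + V)⌋₊).filter (fun n : ℕ => ¬ n.Prime ∧ x - V ≤ Real.log n),
        wn x n
      ≤ ∑ n ∈ (Finset.Ioc 0 ⌊Real.exp (x + V)⌋₊).filter
          (fun n : ℕ => ¬ n.Prime ∧ x - V ≤ Real.log n), Real.exp (-(x - V)) * Λ n :=
        Finset.sum_le_sum h1
    _ ≤ ∑ n ∈ (Finset.Ioc 0 ⌊Real.exp (x + V)⌋₊).filter (fun n : ℕ => ¬ n.Prime),
          Real.exp (-(x - V)) * Λ n := by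
        apply Finset.sum_le_sum_of_subset_of_nonneg
        · intro n hn
          rw [Finset.mem_filter] at hn ⊢
          exact ⟨hn.1, hn.2.1⟩
        · intro n _ _
          exact mul_nonneg (Real.exp_pos _).le ArithmeticFunction.vonMangoldt_nonneg
    _ = Real.exp (-(x - V)) * (Chebyshev.psi (Real.exp (x + V)) -
          Chebyshev.theta (Real.exp (x + V))) := by
        rw [Chebyshev.psi_sub_theta_eq_sum_not_prime, Finset.mul_sum]
    _ ≤ Real.exp (-(x - V)) * (2 * Real.sqrt (Real.exp (x + V)) * Real.log (Real.exp (x + V))) :=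
        mul_le_mul_of_nonneg_left (Chebyshev.psi_sub_theta_le hY) (Real.exp_pos _).le
    _ = 2 * (x + V) * (Real.exp (-(x - V)) * Real.exp ((x + V) / 2)) := by
        rw [Real.log_exp, Real.exp_half]
        ring
    _ = 2 * (x + V) * Real.exp (-x / 2 + 3 * V / 2) := by
        rw [← Real.exp_add]
        congr 2
        ring

/-- all weights with a property `P`, from above, by the primes near `e^x` with this property -/
lemma tsum_le_primes {x V : ℝ} (hx : 1 ≤ x) (hV : 0 ≤ V) (P : ℕ → Prop) [DecidablePred P] :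
    ∑' n, (if P n then wn x n else 0) ≤ ∑ p ∈ (PR x V).filter P, wn x p + err x V := by
  classical
  set F := (Finset.Ioc 0 ⌊Real.exp (x + V)⌋₊).filter (fun n : ℕ => ¬ n.Prime ∧ x - V ≤ Real.log n)
    with hF
  have h1 : ∀ n : ℕ, (if P n then wn x n else 0) ≤
      ((if n ∈ (PR x V).filter P then wn x n else 0) + (if n ∈ F then wn x n else 0)) +
        (if V < |Real.log n - x| then wn x n else 0) := by
    intro n
    have hw := wn_nonneg x n
    by_cases hP : P n
    · rw [if_pos hP]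
      by_cases h2 : V < |Real.log n - x|
      · rw [if_pos h2]
        have : 0 ≤ (if n ∈ (PR x V).filter P then wn x n else 0) := by split_ifs <;> simp [hw]
        have : 0 ≤ (if n ∈ F then wn x n else 0) := by split_ifs <;> simp [hw]
        linarith
      · have h2' := h2
        rw [not_lt, abs_le] at h2
        rw [if_neg h2']
        rcases Nat.eq_zero_or_pos n with rfl | hn
        · have : wn x 0 = 0 := by unfold wn; simp
          rw [this]
          simp
        have hn0 : (0 : ℝ) < n := by exact_mod_cast hn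
        by_cases hp : n.Prime
        · have h3 : n ∈ (PR x V).filter P := by
            rw [Finset.mem_filter, mem_PR]
            exact ⟨⟨hp, by linarith, by linarith⟩, hP⟩
          rw [if_pos h3]
          have : 0 ≤ (if n ∈ F then wn x n else 0) := by split_ifs <;> simp [hw]
          linarith
        · have h3 : n ∈ F := by
            rw [hF, Finset.mem_filter, Finset.mem_Ioc]
            refine ⟨⟨hn, ?_⟩, hp, by linarith⟩
            apply (Nat.le_floor_iff (Real.exp_pos _).le).2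
            rw [← Real.log_le_iff_le_exp hn0]
            linarith
          rw [if_pos h3]
          have : 0 ≤ (if n ∈ (PR x V).filter P then wn x n else 0) := by split_ifs <;> simp [hw]
          linarith
    · rw [if_neg hP]
      have : 0 ≤ (if n ∈ (PR x V).filter P then wn x n else 0) := by split_ifs <;> simp [hw]
      have : 0 ≤ (if n ∈ F then wn x n else 0) := by split_ifs <;> simp [hw]
      have : 0 ≤ (if V < |Real.log n - x| then wn x n else 0) := by split_ifs <;> simp [hw]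
      linarith
  have s1 := summable_ite x (fun n => n ∈ (PR x V).filter P)
  have s2 := summable_ite x (fun n => n ∈ F)
  have s3 := summable_ite x (fun n : ℕ => V < |Real.log n - x|)
  have t1 : ∑' n, (if n ∈ (PR x V).filter P then wn x n else 0) =
      ∑ p ∈ (PR x V).filter P, wn x p := by
    rw [tsum_eq_sum (s := (PR x V).filter P) (fun n hn => if_neg hn)]
    exact Finset.sum_congr rfl fun n hn => if_pos hn
  have t2 : ∑' n, (if n ∈ F then wn x n else 0) = ∑ p ∈ F, wn x p := by
    rw [tsum_eq_sum (s := F) (fun n hn => if_neg hn)]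
    exact Finset.sum_congr rfl fun n hn => if_pos hn
  calc ∑' n, (if P n then wn x n else 0)
      ≤ ∑' n : ℕ, (((if n ∈ (PR x V).filter P then wn x n else 0) + (if n ∈ F then wn x n else 0)) +
        (if V < |Real.log n - x| then wn x n else 0)) :=
        Summable.tsum_le_tsum h1 (summable_ite x P) ((s1.add s2).add s3)
    _ = (∑ p ∈ (PR x V).filter P, wn x p + ∑ p ∈ F, wn x p) +
        ∑' n : ℕ, (if V < |Real.log n - x| then wn x n else 0) := by
        rw [(s1.add s2).tsum_add s3, s1.tsum_add s2, t1, t2]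
    _ ≤ (∑ p ∈ (PR x V).filter P, wn x p + 2 * (x + V) * Real.exp (-x / 2 + 3 * V / 2)) +
        6920 * x ^ 2 * Real.exp (-V ^ 2 / 4) := by
        have h2 := nonprime_wn (x := x) (V := V) hV (by linarith)
        have h3 := tail_wn hx hV (fun n : ℕ => V < |Real.log n - x|) (fun n h => h.le)
        rw [← hF] at h2
        linarith
    _ = _ := by unfold err; ring

/-- orthogonality, from below -/
theorem ap_sum_ge {q : ℕ} [NeZero q] {a : ZMod q} (ha : IsUnit a) (x : ℝ) :
    (1 / (q.totient : ℝ)) * (∑' n : ℕ, (if n.Coprime q then wn x n else 0) -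
      ∑ χ ∈ (Finset.univ : Finset (DirichletCharacter ℂ q)).erase 1, ‖SS χ x‖) ≤
      ∑' n : ℕ, (if (n : ZMod q) = a then wn x n else 0) := by
  classical
  have hterm : ∀ χ : DirichletCharacter ℂ q, ∀ n : ℕ,
      ‖(Λ n : ℂ) * χ (n : ZMod q) * ((gw (Real.log n - x) / n : ℝ) : ℂ)‖ ≤ wn x n := by
    intro χ n
    have hw : 0 ≤ gw (Real.log n - x) / n := div_nonneg (gw_nonneg _) (Nat.cast_nonneg _)
    rw [norm_mul, norm_mul, Complex.norm_real, Complex.norm_real, Real.norm_eq_abs,
      Real.norm_eq_abs, abs_of_nonneg ArithmeticFunction.vonMangoldt_nonneg, abs_of_nonneg hw]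
    unfold wn
    apply mul_le_mul_of_nonneg_right _ hw
    exact mul_le_of_le_one_right ArithmeticFunction.vonMangoldt_nonneg (χ.norm_le_one _)
  have hsumm : ∀ χ : DirichletCharacter ℂ q, Summable fun n : ℕ =>
      (Λ n : ℂ) * χ (n : ZMod q) * ((gw (Real.log n - x) / n : ℝ) : ℂ) := fun χ =>
    Summable.of_norm_bounded (summable_wn x) (hterm χ)
  have hφ : 0 < q.totient := Nat.totient_pos.2 (Nat.pos_of_ne_zero (NeZero.ne q))
  have hφR : (0 : ℝ) < q.totient := by exact_mod_cast hφ
  -- the identity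
  have hid : (((q.totient : ℝ) * ∑' n : ℕ, (if (n : ZMod q) = a then wn x n else 0) : ℝ) : ℂ) =
      ∑ χ : DirichletCharacter ℂ q, χ a⁻¹ * SS χ x := by
    unfold SS
    simp_rw [← tsum_mul_left]
    rw [← Summable.tsum_finsetSum (fun χ _ => (hsumm χ).mul_left _), Complex.ofReal_tsum]
    apply tsum_congr
    intro n
    have h1 := DirichletCharacter.sum_char_inv_mul_char_eq ℂ ha (n : ZMod q)
    have h2 : ∑ χ : DirichletCharacter ℂ q, χ a⁻¹ *
        ((Λ n : ℂ) * χ (n : ZMod q) * ((gw (Real.log n - x) / n : ℝ) : ℂ)) =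
        (∑ χ : DirichletCharacter ℂ q, χ a⁻¹ * χ (n : ZMod q)) *
          ((Λ n : ℂ) * ((gw (Real.log n - x) / n : ℝ) : ℂ)) := by
      rw [Finset.sum_mul]
      apply Finset.sum_congr rfl
      intro χ _
      ring
    rw [h2, h1]
    by_cases h : a = (n : ZMod q)
    · rw [if_pos h, if_pos h.symm]
      unfold wn
      push_cast
      ring
    · rw [if_neg h, if_neg (fun h' => h h'.symm)]
      simp
  -- the principal character
  have hone : (1 : DirichletCharacter ℂ q) a⁻¹ * SS (1 : DirichletCharacter ℂ q) x =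
      ((∑' n : ℕ, (if n.Coprime q then wn x n else 0) : ℝ) : ℂ) := by
    have ha' : IsUnit a⁻¹ := by
      obtain ⟨u, rfl⟩ := ha
      rw [ZMod.inv_coe_unit]
      exact u⁻¹.isUnit
    rw [MulChar.one_apply ha', one_mul, SS, Complex.ofReal_tsum]
    apply tsum_congr
    intro n
    by_cases hn : n.Coprime q
    · rw [if_pos hn, MulChar.one_apply ((ZMod.isUnit_iff_coprime n q).2 hn)]
      unfold wn
      push_cast
      ring
    · rw [if_neg hn, MulChar.map_nonunit _ (fun h => hn ((ZMod.isUnit_iff_coprime n q).1 h))]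
      simp
  have hsplit : ∑ χ : DirichletCharacter ℂ q, χ a⁻¹ * SS χ x =
      ((∑' n : ℕ, (if n.Coprime q then wn x n else 0) : ℝ) : ℂ) +
      ∑ χ ∈ (Finset.univ : Finset (DirichletCharacter ℂ q)).erase 1, χ a⁻¹ * SS χ x := by
    rw [← hone]
    exact (Finset.add_sum_erase _ _ (Finset.mem_univ _)).symm
  have hre := congrArg Complex.re (hid.trans hsplit)
  rw [Complex.add_re, Complex.ofReal_re, Complex.ofReal_re] at hre
  have hrest : -(∑ χ ∈ (Finset.univ : Finset (DirichletCharacter ℂ q)).erase 1, ‖SS χ x‖) ≤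
      (∑ χ ∈ (Finset.univ : Finset (DirichletCharacter ℂ q)).erase 1, χ a⁻¹ * SS χ x).re := by
    have h1 := Complex.abs_re_le_norm
      (∑ χ ∈ (Finset.univ : Finset (DirichletCharacter ℂ q)).erase 1, χ a⁻¹ * SS χ x)
    have h2 : ‖∑ χ ∈ (Finset.univ : Finset (DirichletCharacter ℂ q)).erase 1, χ a⁻¹ * SS χ x‖ ≤
        ∑ χ ∈ (Finset.univ : Finset (DirichletCharacter ℂ q)).erase 1, ‖SS χ x‖ := by
      refine (norm_sum_le _ _).trans ?_
      apply Finset.sum_le_sum
      intro χ _
      rw [norm_mul]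
      exact mul_le_of_le_one_left (norm_nonneg _) (χ.norm_le_one _)
    have h3 := (abs_le.1 (h1.trans h2)).1
    exact h3
  rw [one_div, ← div_eq_inv_mul, div_le_iff₀ hφR]
  linarith

/-- Primes in a reduced class modulo `q`, from below. -/
theorem ap_primes_ge {q : ℕ} [NeZero q] {a : ZMod q} (ha : IsUnit a) {x V z : ℝ} (hx : 1 ≤ x)
    (hV : 0 ≤ V) (hqz : ∀ p : ℕ, p.Prime → p ∣ q → (p : ℝ) ≤ z) (hz : z < Real.exp (x - V)) :
    (1 / (q.totient : ℝ)) * (S0 x - err x V -
      ∑ χ ∈ (Finset.univ : Finset (DirichletCharacter ℂ q)).erase 1, ‖SS χ x‖) - err x V ≤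
      ∑ p ∈ (PR x V).filter (fun p : ℕ => (p : ZMod q) = a), wn x p := by
  classical
  have h1 := ap_sum_ge ha x
  have h2 := tsum_le_primes (V := V) hx hV (fun n : ℕ => (n : ZMod q) = a)
  have h3 := tsum_le_primes (V := V) hx hV (fun n : ℕ => ¬ n.Coprime q)
  have h4 : (PR x V).filter (fun n : ℕ => ¬ n.Coprime q) = ∅ := by
    apply Finset.filter_eq_empty_iff.2
    intro p hp hcop
    rw [mem_PR] at hp
    have hp0 : (0 : ℝ) < p := by exact_mod_cast hp.1.pos
    have h5 : p ∣ q := by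
      by_contra h6
      exact hcop ((Nat.Prime.coprime_iff_not_dvd hp.1).2 h6)
    have h7 := hqz p hp.1 h5
    have h8 : Real.exp (x - V) ≤ p := by
      rw [← Real.exp_log hp0]
      exact Real.exp_le_exp.2 hp.2.1
    linarith
  rw [h4, Finset.sum_empty, zero_add] at h3
  have h5 : S0 x = ∑' n : ℕ, (if n.Coprime q then wn x n else 0) +
      ∑' n : ℕ, (if ¬ n.Coprime q then wn x n else 0) := by
    unfold S0
    rw [← (summable_ite x (fun n => n.Coprime q)).tsum_add (summable_ite x (fun n => ¬ n.Coprime q))]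
    apply tsum_congr
    intro n
    by_cases h : n.Coprime q
    · simp [h]
    · simp [h]
  have hφ : (0 : ℝ) < q.totient := by
    exact_mod_cast Nat.totient_pos.2 (Nat.pos_of_ne_zero (NeZero.ne q))
  have h6 : (1 / (q.totient : ℝ)) * (S0 x - err x V -
      ∑ χ ∈ (Finset.univ : Finset (DirichletCharacter ℂ q)).erase 1, ‖SS χ x‖) ≤
      (1 / (q.totient : ℝ)) * (∑' n : ℕ, (if n.Coprime q then wn x n else 0) -
      ∑ χ ∈ (Finset.univ : Finset (DirichletCharacter ℂ q)).erase 1, ‖SS χ x‖) := by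
    apply mul_le_mul_of_nonneg_left _ (by positivity)
    linarith
  linarith

end Pool.Agent.LibG2
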