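import Pool.Agent.LibG2.Rows

/-!
Moments of the number of primes in windows: the lower bound from one residue class.
-/

namespace Pool.Agent.LibG2

open Filter Topology MeasureTheory
open Pool.Agent.LibMaier

/-- tangent line -/
lemma pow_ge_tangent {A z : ℝ} (hA : 0 ≤ A) (hz : 0 ≤ z) (n : ℕ) :
    A ^ (n + 1) + (n + 1) * A ^ n * (z - A) ≤ z ^ (n + 1) := by
  rcases hA.eq_or_lt with rfl | hA'
  · rcases Nat.eq_zero_or_pos n with rfl | hn
    · simp
    · rw [zero_pow (by omega), zero_pow (by omega)]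
      simp only [mul_zero, zero_mul, add_zero]
      positivity
  · have h1 := one_add_mul_le_pow (a := z / A - 1) (by
      have : 0 ≤ z / A := by positivity
      linarith) (n + 1)
    have h2 : z ^ (n + 1) = A ^ (n + 1) * (1 + (z / A - 1)) ^ (n + 1) := by
      rw [← mul_pow]
      congr 1
      field_simp
      ring
    rw [h2]
    have h3 := mul_le_mul_of_nonneg_left h1 (pow_nonneg hA (n + 1))
    refine le_trans (le_of_eq ?_) h3
    push_cast
    rw [pow_succ]
    field_simp

/-- binomial coefficients are at least the shifted powers -/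
lemma choose_ge (n k : ℕ) : (max ((n : ℝ) - k) 0) ^ k / k.factorial ≤ (n.choose k : ℝ) := by
  have hk : (0 : ℝ) < k.factorial := by exact_mod_cast k.factorial_pos
  rw [div_le_iff₀ hk]
  rcases le_or_gt k n with h | h
  · have h1 : (n + 1 - k) ^ k ≤ n.descFactorial k := Nat.pow_sub_le_descFactorial n k
    have h2 : ((n + 1 - k : ℕ) : ℝ) = (n : ℝ) + 1 - k := by
      rw [Nat.cast_sub (by omega)]
      push_cast
      ring
    have h3 : (n.descFactorial k : ℝ) = n.choose k * k.factorial := by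
      rw [Nat.descFactorial_eq_factorial_mul_choose]
      push_cast
      ring
    rw [← h3]
    have h4 : ((n + 1 - k : ℕ) : ℝ) ^ k ≤ (n.descFactorial k : ℝ) := by exact_mod_cast h1
    refine le_trans ?_ h4
    have h5 : (k : ℝ) ≤ n := by exact_mod_cast h
    apply pow_le_pow_left₀ (le_max_right _ _)
    rw [h2, max_le_iff]
    constructor <;> linarith
  · have h1 : max ((n : ℝ) - k) 0 = 0 := by
      apply max_eq_right
      have : (n : ℝ) < k := by exact_mod_cast h
      linarith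
    rw [h1, zero_pow (by omega)]
    positivity

/-- Jensen with total weight at most one -/
lemma jensen_choose {s : Finset ℕ} {w : ℕ → ℝ} {f : ℕ → ℕ} {S : ℝ} {κ : ℕ} (hκ : 1 ≤ κ)
    (hw : ∀ i ∈ s, 0 ≤ w i) (hW : ∑ i ∈ s, w i ≤ 1) (hS : S ≤ ∑ i ∈ s, w i * (f i : ℝ))
    (hκS : (κ : ℝ) ≤ S) :
    (S - κ) ^ κ / κ.factorial ≤ ∑ i ∈ s, w i * ((f i).choose κ : ℝ) := by
  obtain ⟨n, rfl⟩ : ∃ n, κ = n + 1 := ⟨κ - 1, by omega⟩
  have hk : (0 : ℝ) < (n + 1).factorial := by exact_mod_cast (n + 1).factorial_pos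
  set g : ℕ → ℝ := fun i => max ((f i : ℝ) - ((n + 1 : ℕ) : ℝ)) 0 with hg
  have hg0 : ∀ i, 0 ≤ g i := fun i => le_max_right _ _
  set T : ℝ := ∑ i ∈ s, w i * g i with hT
  have hT0 : 0 ≤ T := Finset.sum_nonneg fun i hi => mul_nonneg (hw i hi) (hg0 i)
  have hTS : S - ((n + 1 : ℕ) : ℝ) ≤ T := by
    have h1 : ∑ i ∈ s, w i * ((f i : ℝ) - ((n + 1 : ℕ) : ℝ)) ≤ T := by
      apply Finset.sum_le_sum
      intro i hi
      exact mul_le_mul_of_nonneg_left (le_max_left _ _) (hw i hi)
    have h2 : ∑ i ∈ s, w i * ((f i : ℝ) - ((n + 1 : ℕ) : ℝ)) =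
        ∑ i ∈ s, w i * (f i : ℝ) - (∑ i ∈ s, w i) * ((n + 1 : ℕ) : ℝ) := by
      rw [Finset.sum_mul, ← Finset.sum_sub_distrib]
      apply Finset.sum_congr rfl
      intro i _
      ring
    have h3 : (0 : ℝ) ≤ ((n + 1 : ℕ) : ℝ) := Nat.cast_nonneg _
    nlinarith
  have hpow : (S - ((n + 1 : ℕ) : ℝ)) ^ (n + 1) ≤ T ^ (n + 1) :=
    pow_le_pow_left₀ (by linarith) hTS _
  have hmain : T ^ (n + 1) ≤ ∑ i ∈ s, w i * g i ^ (n + 1) := by
    have h1 : ∑ i ∈ s, w i * (T ^ (n + 1) + (n + 1) * T ^ n * (g i - T)) ≤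
        ∑ i ∈ s, w i * g i ^ (n + 1) := by
      apply Finset.sum_le_sum
      intro i hi
      exact mul_le_mul_of_nonneg_left (pow_ge_tangent hT0 (hg0 i) n) (hw i hi)
    have h2 : ∑ i ∈ s, w i * (T ^ (n + 1) + (n + 1) * T ^ n * (g i - T)) =
        T ^ (n + 1) + n * T ^ (n + 1) * (1 - ∑ i ∈ s, w i) := by
      have h3 : ∀ i ∈ s, w i * (T ^ (n + 1) + (n + 1) * T ^ n * (g i - T)) =
          w i * (T ^ (n + 1) - (n + 1) * T ^ (n + 1)) + (n + 1) * T ^ n * (w i * g i) := by
        intro i _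
        rw [pow_succ]
        ring
      rw [Finset.sum_congr rfl h3, Finset.sum_add_distrib, ← Finset.sum_mul, ← Finset.mul_sum, ← hT]
      rw [pow_succ]
      ring
    have h4 : 0 ≤ n * T ^ (n + 1) * (1 - ∑ i ∈ s, w i) := by
      have : 0 ≤ 1 - ∑ i ∈ s, w i := by linarith
      positivity
    linarith
  calc (S - ((n + 1 : ℕ) : ℝ)) ^ (n + 1) / (n + 1).factorial
      ≤ (∑ i ∈ s, w i * g i ^ (n + 1)) / (n + 1).factorial := by
        apply div_le_div_of_nonneg_right _ hk.le
        linarith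
    _ = ∑ i ∈ s, w i * (g i ^ (n + 1) / (n + 1).factorial) := by
        rw [Finset.sum_div]
        apply Finset.sum_congr rfl
        intro i _
        ring
    _ ≤ ∑ i ∈ s, w i * ((f i).choose (n + 1) : ℝ) := by
        apply Finset.sum_le_sum
        intro i hi
        exact mul_le_mul_of_nonneg_left (choose_ge (f i) (n + 1)) (hw i hi)

/-- the error terms are tiny -/
lemma err_small {U x : ℝ} (hU : 100 ≤ U) (hx1 : U ^ 3 ≤ x) (hx2 : x ≤ Real.exp U) :
    err x U ≤ Real.exp (-(3 * U)) := by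
  have hU0 : 0 < U := by linarith
  have hU2 : 10000 * U ≤ x := by nlinarith [mul_pos hU0 hU0]
  have hx0 : 0 < x := by linarith
  have hexpU : 100 ≤ Real.exp U := by
    have := Real.add_one_le_exp U
    linarith
  have e2 : (10000 : ℝ) ≤ Real.exp (2 * U) := by
    have h1 : Real.exp (2 * U) = Real.exp U * Real.exp U := by rw [← Real.exp_add]; ring_nf
    rw [h1]
    nlinarith
  have h1 : 6920 * x ^ 2 * Real.exp (-U ^ 2 / 4) ≤ Real.exp (-(4 * U)) := by
    have h3 : x ^ 2 ≤ Real.exp (2 * U) := by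
      calc x ^ 2 ≤ (Real.exp U) ^ 2 := pow_le_pow_left₀ hx0.le hx2 2
        _ = Real.exp (2 * U) := by rw [← Real.exp_nat_mul]; norm_num
    calc 6920 * x ^ 2 * Real.exp (-U ^ 2 / 4)
        ≤ Real.exp (2 * U) * Real.exp (2 * U) * Real.exp (-U ^ 2 / 4) := by
          have := Real.exp_pos (2 * U)
          gcongr
          linarith
      _ = Real.exp (4 * U + -U ^ 2 / 4) := by
          rw [← Real.exp_add, ← Real.exp_add]
          congr 1
          ring
      _ ≤ Real.exp (-(4 * U)) := by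
          apply Real.exp_le_exp.2
          nlinarith
  have h2 : 2 * (x + U) * Real.exp (-x / 2 + 3 * U / 2) ≤ Real.exp (-(4 * U)) := by
    have h4 : x ≤ 8 * Real.exp (x / 8) := by
      have := Real.add_one_le_exp (x / 8)
      linarith
    calc 2 * (x + U) * Real.exp (-x / 2 + 3 * U / 2)
        ≤ (32 * Real.exp (x / 8)) * Real.exp (-x / 2 + 3 * U / 2) := by
          apply mul_le_mul_of_nonneg_right _ (Real.exp_pos _).le
          linarith
      _ ≤ (Real.exp (2 * U) * Real.exp (x / 8)) * Real.exp (-x / 2 + 3 * U / 2) := by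
          gcongr
          linarith
      _ = Real.exp (2 * U + x / 8 + (-x / 2 + 3 * U / 2)) := by
          rw [← Real.exp_add, ← Real.exp_add]
      _ ≤ Real.exp (-(4 * U)) := by
          apply Real.exp_le_exp.2
          linarith
  have h3 : 2 * Real.exp (-(4 * U)) ≤ Real.exp (-(3 * U)) := by
    have h5 : Real.exp (-(3 * U)) = Real.exp U * Real.exp (-(4 * U)) := by
      rw [← Real.exp_add]; ring_nf
    rw [h5]
    have := Real.exp_pos (-(4 * U))
    nlinarith
  unfold err
  linarith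

end Pool.Agent.LibG2
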