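import Pool.Agent.LibG2.PS

/-!
The sieve by the primes `≤ z` except one prime `p`: bounds for the error function.
-/

namespace Pool.Agent.LibG2.PS

open Filter Topology MeasureTheory
open Pool.Gal99 (zs sieve_dev EE_bound D6_rpow)

/-- the primes `≤ z` except `p` -/
def erz (z p : ℕ) : PSet :=
  ⟨(Pool.Gal99.pr z).erase p, fun _ hr => (Finset.mem_filter.1 (Finset.mem_of_mem_erase hr)).2⟩

variable {z p : ℕ}

lemma Pz_erz (hp : p ∈ Pool.Gal99.pr z) : Pool.Gal99.Pz z = p * Pz (erz z p) := by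
  unfold Pool.Gal99.Pz Pz pr erz
  exact (Finset.mul_prod_erase _ _ hp).symm

lemma V_erz (hp : p ∈ Pool.Gal99.pr z) : Pool.Gal99.V z = (1 - 1 / (p : ℝ)) * V (erz z p) := by
  unfold Pool.Gal99.V V pr erz
  exact (Finset.mul_prod_erase _ _ hp).symm

lemma GG_erz (hp : p ∈ Pool.Gal99.pr z) (s : ℂ) :
    Pool.Gal99.GG z s = (1 - (p : ℂ) ^ (-s)) * GG (erz z p) s := by
  unfold Pool.Gal99.GG GG pr erz
  exact (Finset.mul_prod_erase _ _ hp).symm

lemma prime_of_mem (hp : p ∈ Pool.Gal99.pr z) : p.Prime := (Finset.mem_filter.1 hp).2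

lemma not_dvd_erz (hp : p ∈ Pool.Gal99.pr z) : ¬ p ∣ Pz (erz z p) := by
  intro h
  have h1 : p ∈ (Pz (erz z p)).primeFactors :=
    Nat.mem_primeFactors.2 ⟨prime_of_mem hp, h, (D1_sqf (erz z p)).ne_zero⟩
  rw [D1_pf] at h1
  exact (Finset.notMem_erase p _) h1

/-- `n` coprime to the smaller product: `n` coprime to the full product, or `p ∣ n` and `n / p`
coprime to the smaller product -/
lemma R_rec (hp : p ∈ Pool.Gal99.pr z) (N : ℕ) :
    R (erz z p) 0 N = Pool.Gal99.R z 0 N + R (erz z p) 0 (N / p) := by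
  classical
  have hpp := prime_of_mem hp
  have hcop : p.Coprime (Pz (erz z p)) := (Nat.Prime.coprime_iff_not_dvd hpp).2 (not_dvd_erz hp)
  unfold R Pool.Gal99.R
  simp only [zero_add]
  rw [← Finset.card_filter_add_card_filter_not (s := (Finset.Ioc 0 N).filter
    (fun n => n.Coprime (Pz (erz z p)))) (fun n => ¬ p ∣ n)]
  congr 1
  · congr 1
    ext n
    simp only [Finset.mem_filter, Finset.mem_Ioc]
    rw [Pz_erz hp]
    constructor
    · rintro ⟨⟨h1, h2⟩, h3⟩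
      refine ⟨h1, ?_⟩
      exact Nat.Coprime.mul_right (Nat.coprime_comm.1 ((Nat.Prime.coprime_iff_not_dvd hpp).2 h3)) h2
    · rintro ⟨h1, h2⟩
      refine ⟨⟨h1, Nat.Coprime.coprime_mul_left_right h2⟩, ?_⟩
      exact (Nat.Prime.coprime_iff_not_dvd hpp).1
        (Nat.coprime_comm.1 (Nat.Coprime.coprime_mul_right_right h2))
  · symm
    apply Finset.card_bij (fun m _ => p * m)
    · intro m hm
      simp only [Finset.mem_filter, Finset.mem_Ioc] at hm ⊢
      obtain ⟨⟨h1, h2⟩, h3⟩ := hm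
      refine ⟨⟨⟨Nat.mul_pos hpp.pos h1, ?_⟩, Nat.Coprime.mul_left hcop h3⟩, ?_⟩
      · rw [mul_comm]
        exact (Nat.le_div_iff_mul_le hpp.pos).1 h2
      · rw [not_not]
        exact dvd_mul_right p m
    · intro a _ b _ h
      exact Nat.eq_of_mul_eq_mul_left hpp.pos h
    · intro n hn
      simp only [Finset.mem_filter, Finset.mem_Ioc, not_not] at hn
      obtain ⟨⟨⟨h1, h2⟩, h3⟩, m, rfl⟩ := hn
      refine ⟨m, ?_, rfl⟩
      simp only [Finset.mem_filter, Finset.mem_Ioc]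
      refine ⟨⟨Nat.pos_of_mul_pos_left h1, ?_⟩, Nat.Coprime.coprime_mul_left h3⟩
      rw [Nat.le_div_iff_mul_le hpp.pos, mul_comm]
      exact h2

lemma EE_rec (hp : p ∈ Pool.Gal99.pr z) (y : ℝ) :
    EE (erz z p) y = Pool.Gal99.EE z y + EE (erz z p) (y / p) := by
  have hpp := prime_of_mem hp
  have hp0 : (p : ℝ) ≠ 0 := by exact_mod_cast hpp.ne_zero
  unfold EE Pool.Gal99.EE
  rw [R_rec hp, V_erz hp, Nat.floor_div_natCast]
  push_cast
  field_simp
  ring

/-- bound for the error function -/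
theorem EE_bound' (hz : 1 ≤ z) (hp : p ∈ Pool.Gal99.pr z) (b : ℝ) (hb0 : 0 ≤ b) (hb : b ≤ 1 / 2)
    (y : ℝ) (hy : 0 < y) :
    |EE (erz z p) y| ≤
      20 * (z : ℝ) ^ b * (∏ r ∈ Pool.Gal99.pr z, (1 + (r : ℝ) ^ (b - 1))) * y ^ (1 - b) := by
  have hpp := prime_of_mem hp
  have hp2 : (2 : ℝ) ≤ p := by exact_mod_cast hpp.two_le
  have hz1 : (1 : ℝ) ≤ z := by exact_mod_cast hz
  set P : ℝ := ∏ r ∈ Pool.Gal99.pr z, (1 + (r : ℝ) ^ (b - 1)) with hP
  have hP1 : 1 ≤ P := Pool.Gal99.D6_prod_ge z b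
  set A : ℝ := (z : ℝ) ^ b * P with hA
  have hA1 : 1 ≤ A := one_le_mul_of_one_le_of_one_le (Real.one_le_rpow hz1 hb0) hP1
  have key : ∀ n : ℕ, ∀ y : ℝ, 0 < y → y < 2 ^ n → |EE (erz z p) y| ≤ 20 * A * y ^ (1 - b) := by
    intro n
    induction n with
    | zero =>
      intro y hy hy1
      rw [pow_zero] at hy1
      have h1 : ⌊y⌋₊ = 0 := Nat.floor_eq_zero.2 hy1
      unfold EE
      rw [h1]
      have h2 : R (erz z p) 0 0 = 0 := by simp [R]
      rw [h2]
      have hV0 := V_pos (erz z p)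
      have hV1 := V_le_one (erz z p)
      rw [Nat.cast_zero, zero_sub, abs_neg, abs_of_nonneg (by positivity)]
      have h3 : y ≤ y ^ (1 - b) := by
        nth_rewrite 1 [← Real.rpow_one y]
        exact Real.rpow_le_rpow_of_exponent_ge hy hy1.le (by linarith)
      have h4 : 0 < y ^ (1 - b) := Real.rpow_pos_of_pos hy _
      nlinarith
    | succ n ih =>
      intro y hy hyn
      have hyp : 0 < y / p := by positivity
      have h1 : y / p < 2 ^ n := by
        rw [div_lt_iff₀ (by linarith)]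
        rw [pow_succ] at hyn
        have : (0 : ℝ) < 2 ^ n := by positivity
        nlinarith
      have h2 := ih (y / p) hyp h1
      have h3 := EE_bound z y b hz hy hb0 (by linarith)
      rw [EE_rec hp]
      have h4 : 5 * y * (y / z) ^ (-b) * ∏ r ∈ Pool.Gal99.pr z, (1 + (r : ℝ) ^ (b - 1)) =
          5 * A * y ^ (1 - b) := by
        rw [← hP, hA]
        have := D6_rpow z y b hy
        calc 5 * y * (y / z) ^ (-b) * P = 5 * (y * (y / z) ^ (-b)) * P := by ring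
          _ = _ := by rw [this]; ring
      rw [h4] at h3
      have h5 : (y / p) ^ (1 - b) ≤ 3 / 4 * y ^ (1 - b) := by
        rw [Real.div_rpow hy.le (by positivity), div_eq_mul_inv, mul_comm]
        apply mul_le_mul_of_nonneg_right _ (Real.rpow_nonneg hy.le _)
        rw [← Real.rpow_neg (by positivity)]
        calc (p : ℝ) ^ (-(1 - b)) ≤ (2 : ℝ) ^ (-(1 - b)) :=
              Real.rpow_le_rpow_of_nonpos (by norm_num) hp2 (by linarith)
          _ ≤ (2 : ℝ) ^ (-(1 / 2 : ℝ)) :=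
              Real.rpow_le_rpow_of_exponent_le (by norm_num) (by linarith)
          _ ≤ 3 / 4 := by
              rw [Real.rpow_neg (by norm_num), ← Real.sqrt_eq_rpow]
              have h6 : (4 / 3 : ℝ) ≤ Real.sqrt 2 := by
                rw [Real.le_sqrt (by norm_num) (by norm_num)]
                norm_num
              calc (Real.sqrt 2)⁻¹ ≤ (4 / 3 : ℝ)⁻¹ := inv_anti₀ (by norm_num) h6
                _ = 3 / 4 := by norm_num
      have h7 : 0 < y ^ (1 - b) := Real.rpow_pos_of_pos hy _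
      have h8 : 20 * A * (y / p) ^ (1 - b) ≤ 20 * A * (3 / 4 * y ^ (1 - b)) :=
        mul_le_mul_of_nonneg_left h5 (by positivity)
      calc |Pool.Gal99.EE z y + EE (erz z p) (y / p)|
          ≤ |Pool.Gal99.EE z y| + |EE (erz z p) (y / p)| := abs_add_le _ _
        _ ≤ 5 * A * y ^ (1 - b) + 20 * A * (3 / 4 * y ^ (1 - b)) := by linarith
        _ = 20 * A * y ^ (1 - b) := by ring
  obtain ⟨n, hn⟩ := pow_unbounded_of_one_lt y (show (1 : ℝ) < 2 by norm_num)
  have := key n y hy hn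
  rw [hA] at this
  calc |EE (erz z p) y| ≤ 20 * ((z : ℝ) ^ b * P) * y ^ (1 - b) := this
    _ = _ := by ring

/-- the pointwise bound of the integrand -/
theorem point' (hz : 1 ≤ z) (hp : p ∈ Pool.Gal99.pr z) (β b y : ℝ) (hb0 : 0 ≤ b) (hb1 : b ≤ 1 / 2)
    (hy : 0 < y) :
    |EE (erz z p) y| * y ^ (β - 2) ≤
      20 * (z : ℝ) ^ b * (∏ r ∈ Pool.Gal99.pr z, (1 + (r : ℝ) ^ (b - 1))) * y ^ (β - b - 1) := by
  have h1 := EE_bound' hz hp b hb0 hb1 y hy
  set P : ℝ := ∏ r ∈ Pool.Gal99.pr z, (1 + (r : ℝ) ^ (b - 1)) with hPdef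
  calc |EE (erz z p) y| * y ^ (β - 2) ≤ (20 * (z : ℝ) ^ b * P * y ^ (1 - b)) * y ^ (β - 2) :=
        mul_le_mul_of_nonneg_right h1 (Real.rpow_nonneg hy.le _)
    _ = 20 * (z : ℝ) ^ b * P * (y ^ (1 - b) * y ^ (β - 2)) := by ring
    _ = _ := by
      rw [← Real.rpow_add hy]
      congr 2
      ring

theorem int_low' (hz : 1 ≤ z) (hp : p ∈ Pool.Gal99.pr z) (β b y₁ : ℝ) (hb0 : 0 ≤ b) (hb : b < β)
    (hb1 : b ≤ 1 / 2) (hy : 0 < y₁) :
    ∫ y in Set.Ioc 0 y₁, |EE (erz z p) y| * y ^ (β - 2) ≤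
      20 * (z : ℝ) ^ b * (∏ r ∈ Pool.Gal99.pr z, (1 + (r : ℝ) ^ (b - 1))) *
        (y₁ ^ (β - b) / (β - b)) := by
  set P : ℝ := ∏ r ∈ Pool.Gal99.pr z, (1 + (r : ℝ) ^ (b - 1)) with hPdef
  have hr : -1 < β - b - 1 := by linarith
  have hint : IntegrableOn (fun y : ℝ => 20 * (z : ℝ) ^ b * P * y ^ (β - b - 1)) (Set.Ioc 0 y₁) := by
    have h1 := (intervalIntegral.intervalIntegrable_rpow' (a := 0) (b := y₁) hr).1
    exact h1.const_mul _
  have h1 : ∫ y in Set.Ioc 0 y₁, |EE (erz z p) y| * y ^ (β - 2) ≤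
      ∫ y in Set.Ioc 0 y₁, 20 * (z : ℝ) ^ b * P * y ^ (β - b - 1) := by
    refine integral_mono_of_nonneg ?_ hint ?_
    · refine (ae_restrict_iff' measurableSet_Ioc).2 (Eventually.of_forall fun y hy' => ?_)
      have := hy'.1
      positivity
    · refine (ae_restrict_iff' measurableSet_Ioc).2 (Eventually.of_forall fun y hy' => ?_)
      exact point' hz hp β b y hb0 hb1 hy'.1
  refine h1.trans (le_of_eq ?_)
  rw [integral_const_mul, ← intervalIntegral.integral_of_le hy.le, integral_rpow (Or.inl hr)]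
  have h2 : β - b - 1 + 1 = β - b := by ring
  rw [h2, Real.zero_rpow (by linarith), sub_zero]

theorem int_high' (hz : 1 ≤ z) (hp : p ∈ Pool.Gal99.pr z) (β b y₂ : ℝ) (hb1 : b ≤ 1 / 2)
    (hβ : 0 < β) (hb : β < b) (hy : 0 < y₂) :
    ∫ y in Set.Ioi y₂, |EE (erz z p) y| * y ^ (β - 2) ≤
      20 * (z : ℝ) ^ b * (∏ r ∈ Pool.Gal99.pr z, (1 + (r : ℝ) ^ (b - 1))) *
        (y₂ ^ (β - b) / (b - β)) := by
  set P : ℝ := ∏ r ∈ Pool.Gal99.pr z, (1 + (r : ℝ) ^ (b - 1)) with hPdef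
  have hr : β - b - 1 < -1 := by linarith
  have hint : IntegrableOn (fun y : ℝ => 20 * (z : ℝ) ^ b * P * y ^ (β - b - 1)) (Set.Ioi y₂) :=
    (integrableOn_Ioi_rpow_of_lt hr hy).const_mul _
  have h1 : ∫ y in Set.Ioi y₂, |EE (erz z p) y| * y ^ (β - 2) ≤
      ∫ y in Set.Ioi y₂, 20 * (z : ℝ) ^ b * P * y ^ (β - b - 1) := by
    refine integral_mono_of_nonneg ?_ hint ?_
    · refine (ae_restrict_iff' measurableSet_Ioi).2 (Eventually.of_forall fun y hy' => ?_)
      have : 0 < y := lt_trans hy hy'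
      positivity
    · refine (ae_restrict_iff' measurableSet_Ioi).2 (Eventually.of_forall fun y hy' => ?_)
      exact point' hz hp β b y (by linarith) hb1 (lt_trans hy hy')
  refine h1.trans (le_of_eq ?_)
  rw [integral_const_mul, integral_Ioi_rpow_of_lt hr hy]
  have h2 : β - b - 1 + 1 = -(b - β) := by ring
  have h3 : β - b = -(b - β) := by ring
  rw [h2, h3, neg_div_neg_eq]

theorem meas' (s : PSet) (β : ℝ) : Measurable fun y : ℝ => |EE s y| * y ^ (β - 2) :=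
  (measurable_EE s).abs.mul (measurable_id.pow_const _)

theorem integrable' (hz : 1 ≤ z) (hp : p ∈ Pool.Gal99.pr z) (β : ℝ) (hβ : 0 < β) (hβ1 : β < 1 / 2) :
    IntegrableOn (fun y => |EE (erz z p) y| * y ^ (β - 2)) (Set.Ioi 0) := by
  rw [← Set.Ioc_union_Ioi_eq_Ioi (zero_le_one' ℝ)]
  refine IntegrableOn.union ?_ ?_
  · have hr : -1 < β - β / 2 - 1 := by linarith
    have hint := ((intervalIntegral.intervalIntegrable_rpow' (a := 0) (b := 1) hr).1).const_mul
      (20 * (z : ℝ) ^ (β / 2) * (∏ r ∈ Pool.Gal99.pr z, (1 + (r : ℝ) ^ (β / 2 - 1))))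
    refine Integrable.mono' hint (meas' (erz z p) β).aestronglyMeasurable ?_
    refine (ae_restrict_iff' measurableSet_Ioc).2 (Eventually.of_forall fun y hy' => ?_)
    rw [Real.norm_eq_abs, abs_of_nonneg (mul_nonneg (abs_nonneg _) (Real.rpow_nonneg hy'.1.le _))]
    exact point' hz hp β (β / 2) y (by linarith) (by linarith) hy'.1
  · have hr : β - 1 / 2 - 1 < -1 := by linarith
    have hint := (integrableOn_Ioi_rpow_of_lt hr (zero_lt_one' ℝ)).const_mul
      (20 * (z : ℝ) ^ (1 / 2 : ℝ) * (∏ r ∈ Pool.Gal99.pr z, (1 + (r : ℝ) ^ ((1 / 2 : ℝ) - 1))))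
    refine Integrable.mono' hint (meas' (erz z p) β).aestronglyMeasurable ?_
    refine (ae_restrict_iff' measurableSet_Ioi).2 (Eventually.of_forall fun y hy' => ?_)
    have hy0 : 0 < y := lt_trans zero_lt_one hy'
    rw [Real.norm_eq_abs, abs_of_nonneg (mul_nonneg (abs_nonneg _) (Real.rpow_nonneg hy0.le _))]
    exact point' hz hp β (1 / 2) y (by norm_num) le_rfl hy0

/-- removing one factor -/
theorem norm_GG_ge (hp : p ∈ Pool.Gal99.pr z) (s : ℂ) (hs : 0 ≤ s.re) :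
    ‖Pool.Gal99.GG z s‖ ≤ 2 * ‖GG (erz z p) s‖ := by
  have hpp := prime_of_mem hp
  rw [GG_erz hp, norm_mul]
  apply mul_le_mul_of_nonneg_right _ (norm_nonneg _)
  have h1 : ‖(p : ℂ) ^ (-s)‖ ≤ 1 := by
    rw [Complex.norm_natCast_cpow_of_pos hpp.pos]
    apply Real.rpow_le_one_of_one_le_of_nonpos
    · exact_mod_cast hpp.one_lt.le
    · simpa using hs
  calc ‖1 - (p : ℂ) ^ (-s)‖ ≤ ‖(1 : ℂ)‖ + ‖(p : ℂ) ^ (-s)‖ := norm_sub_le _ _
    _ ≤ 2 := by rw [norm_one]; linarith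

end Pool.Agent.LibG2.PS
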