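import Pool.Agent.LibMaier.ZeroFree

/-!
Every squarefree modulus has a divisor `q₀ / p`, `p` prime, without exceptional zeros.
-/

namespace Pool.Agent.LibG2

open Filter Topology Complex DirichletCharacter
open Pool.Agent.LibMaier

/-- zeros survive a change of level -/
lemma zero_changeLevel {M N : ℕ} [NeZero M] [NeZero N] (h : M ∣ N) (χ : DirichletCharacter ℂ M)
    (hχ : χ ≠ 1) {ρ : ℂ} (hρ : LFunction χ ρ = 0) : LFunction (changeLevel h χ) ρ = 0 := by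
  rw [LFunction_changeLevel h χ (Or.inl hχ), hρ, zero_mul]

/-- Every squarefree modulus `q₀ > 1` has a prime factor `p` such that no character modulo `q₀ / p`
has an exceptional zero. -/
theorem exists_good : ∃ L₀ : ℝ, 1 ≤ L₀ ∧ ∀ (q₀ : ℕ) [NeZero q₀] (T : ℝ), Squarefree q₀ → 1 < q₀ →
    0 ≤ T → L₀ ≤ LL q₀ T → ∃ p : ℕ, p.Prime ∧ p ∣ q₀ ∧ ∀ (q : ℕ) [NeZero q], q * p = q₀ →
      ∀ χ : DirichletCharacter ℂ q, χ ≠ 1 → ∀ ρ : ℂ, LFunction χ ρ = 0 → |ρ.im| ≤ T / 2 →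
        ρ.re ≤ 1 - kk / LL q₀ T := by
  obtain ⟨L₁, hL₁, hzf⟩ := zero_free
  obtain ⟨L₂, hL₂, hun⟩ := exceptional_unique
  refine ⟨max L₁ L₂, hL₁.trans (le_max_left _ _), ?_⟩
  intro q₀ _ T hsq hq1 hT hL
  have hLL1 : L₁ ≤ LL q₀ T := (le_max_left _ _).trans hL
  have hLL2 : L₂ ≤ LL q₀ T := (le_max_right _ _).trans hL
  -- a zero in the region for a divisor gives an exceptional pair for `q₀`
  have key : ∀ (q : ℕ) [NeZero q] (h : q ∣ q₀) (χ : DirichletCharacter ℂ q), χ ≠ 1 → ∀ ρ : ℂ,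
      LFunction χ ρ = 0 → |ρ.im| ≤ T / 2 → 1 - kk / LL q₀ T < ρ.re →
      changeLevel h χ ≠ 1 ∧ (changeLevel h χ) ^ 2 = 1 ∧ LFunction (changeLevel h χ) (ρ.re : ℂ) = 0 := by
    intro q _ h χ hχ ρ hρ hT' hre
    have h1 : changeLevel h χ ≠ 1 := fun h' => hχ ((changeLevel_eq_one_iff h).1 h')
    have h2 := zero_changeLevel h χ hχ hρ
    have hnr : ¬ (ρ.im ≠ 0 ∨ (changeLevel h χ) ^ 2 ≠ 1) := by
      intro h3
      have := hzf q₀ T hT hLL1 (changeLevel h χ) h1 ρ h2 hT' h3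
      linarith
    push Not at hnr
    refine ⟨h1, hnr.2, ?_⟩
    have : ((ρ.re : ℝ) : ℂ) = ρ := by
      apply Complex.ext
      · simp
      · simp [hnr.1]
    rw [this]
    exact h2
  by_cases hex : ∃ χ₁ : DirichletCharacter ℂ q₀, ∃ β₁ : ℝ, χ₁ ≠ 1 ∧ χ₁ ^ 2 = 1 ∧
      LFunction χ₁ β₁ = 0 ∧ 1 - kk / LL q₀ T < β₁
  · obtain ⟨χ₁, β₁, hχ₁, hχ₁2, hβ₁, hβ₁re⟩ := hex
    have hf1 : χ₁.conductor ≠ 1 := fun h => hχ₁ (eq_one_iff_conductor_eq_one.2 h)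
    refine ⟨χ₁.conductor.minFac, Nat.minFac_prime hf1,
      (Nat.minFac_dvd _).trans χ₁.conductor_dvd_level, ?_⟩
    intro q _ hq χ hχ ρ hρ hT'
    by_contra hcon
    push Not at hcon
    have hdvd : q ∣ q₀ := ⟨_, hq.symm⟩
    obtain ⟨h1, h2, h3⟩ := key q hdvd χ hχ ρ hρ hT' hcon
    obtain ⟨h4, _⟩ := hun q₀ T hT hLL2 (changeLevel hdvd χ) χ₁ h1 hχ₁ h2 hχ₁2 ρ.re β₁ h3 hβ₁ hcon hβ₁re
    have h5 : χ₁.conductor ∣ q := by
      apply conductor_dvd_of_mem_conductorSet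
      rw [mem_conductorSet_iff, ← h4]
      exact changeLevel_factorsThrough χ hdvd
    have h6 : χ₁.conductor.minFac ∣ q := (Nat.minFac_dvd _).trans h5
    have h7 : χ₁.conductor.minFac * χ₁.conductor.minFac ∣ q₀ :=
      (Nat.mul_dvd_mul_right h6 _).trans (dvd_of_eq hq)
    exact (Nat.minFac_prime hf1).ne_one (Nat.isUnit_iff.1 (hsq _ h7))
  · refine ⟨q₀.minFac, Nat.minFac_prime (by omega), Nat.minFac_dvd _, ?_⟩
    intro q _ hq χ hχ ρ hρ hT'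
    by_contra hcon
    push Not at hcon
    have hdvd : q ∣ q₀ := ⟨_, hq.symm⟩
    obtain ⟨h1, h2, h3⟩ := key q hdvd χ hχ ρ hρ hT' hcon
    exact hex ⟨changeLevel hdvd χ, ρ.re, h1, h2, h3, hcon⟩

end Pool.Agent.LibG2
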