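import Pool.Agent.LibG2.AP
import Pool.Agent.LibMaier.Matrix

/-!
A position `x` where the smoothed density of the primes is at least `1 - O(log U / U)`.
-/

namespace Pool.Agent.LibG2

open Filter Topology MeasureTheory
open Pool.Agent.LibMaier
open scoped ArithmeticFunction.vonMangoldt

/-- the Gaussian mass outside `[-v, v]` -/
lemma gw_mass {v : ℝ} (hv : 0 ≤ v) : 1 - 2 * Real.exp (-v ^ 2 / 4) ≤ ∫ t in (-v)..v, gw t := by
  have h1 : ∫ t, gw t = (∫ t in (-v)..v, gw t) + ∫ t in (Set.Ioc (-v) v)ᶜ, gw t := by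
    rw [intervalIntegral.integral_of_le (by linarith)]
    exact (integral_add_compl measurableSet_Ioc integrable_gw).symm
  have h2 : ∫ t in (Set.Ioc (-v) v)ᶜ, gw t ≤ 2 * Real.exp (-v ^ 2 / 4) := by
    have hm : MeasurableSet (Set.Ioc (-v) v)ᶜ := measurableSet_Ioc.compl
    calc ∫ t in (Set.Ioc (-v) v)ᶜ, gw t
        ≤ ∫ t in (Set.Ioc (-v) v)ᶜ, (Real.exp (-v ^ 2 / 4) / 2) * Real.exp (-t ^ 2 / 4) := by
          apply setIntegral_mono_on integrable_gw.integrableOn
            (integrable_gaussian_quarter.const_mul _).integrableOn hm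
          intro t ht
          have ht2 : v ^ 2 ≤ t ^ 2 := by
            rw [Set.mem_compl_iff, Set.mem_Ioc, not_and_or, not_lt, not_le] at ht
            rcases ht with h | h
            · nlinarith
            · nlinarith
          have h3 : 2 ≤ Real.sqrt (2 * Real.pi) := by
            rw [Real.le_sqrt (by norm_num) (by positivity)]
            have := Real.pi_gt_three
            linarith
          unfold gw
          rw [div_le_iff₀ (by positivity)]
          calc Real.exp (-t ^ 2 / 2) ≤ Real.exp (-v ^ 2 / 4 + -t ^ 2 / 4) := by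
                apply Real.exp_le_exp.2
                linarith
            _ = Real.exp (-v ^ 2 / 4) * Real.exp (-t ^ 2 / 4) := Real.exp_add _ _
            _ = (Real.exp (-v ^ 2 / 4) / 2) * Real.exp (-t ^ 2 / 4) * 2 := by ring
            _ ≤ _ := by
                apply mul_le_mul_of_nonneg_left h3
                positivity
      _ ≤ ∫ t : ℝ, (Real.exp (-v ^ 2 / 4) / 2) * Real.exp (-t ^ 2 / 4) := by
          apply setIntegral_le_integral (integrable_gaussian_quarter.const_mul _)
          exact Eventually.of_forall fun t => by positivity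
      _ = (Real.exp (-v ^ 2 / 4) / 2) * ∫ t : ℝ, Real.exp (-t ^ 2 / 4) :=
          integral_const_mul _ _
      _ ≤ (Real.exp (-v ^ 2 / 4) / 2) * 4 :=
          mul_le_mul_of_nonneg_left integral_gaussian_quarter (by positivity)
      _ = _ := by ring
  rw [integral_gw] at h1
  linarith

/-- the primes with `a < log p ≤ b` -/
noncomputable def PB (a b : ℝ) : Finset ℕ :=
  (Finset.Icc 0 ⌊Real.exp b⌋₊).filter (fun p : ℕ => p.Prime ∧ a < Real.log p)

lemma mem_PB {a b : ℝ} {p : ℕ} (hp : p ∈ PB a b) : p.Prime ∧ a < Real.log p ∧ Real.log p ≤ b := by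
  unfold PB at hp
  rw [Finset.mem_filter, Finset.mem_Icc] at hp
  obtain ⟨⟨_, h2⟩, h3, h4⟩ := hp
  have hp0 : (0 : ℝ) < p := by exact_mod_cast h3.pos
  refine ⟨h3, h4, ?_⟩
  have h5 : (p : ℝ) ≤ Real.exp b := (Nat.le_floor_iff (Real.exp_pos _).le).1 h2
  rw [← Real.log_exp b]
  exact Real.log_le_log hp0 h5

lemma TN_sub {a b : ℝ} (hab : a ≤ b) :
    TN ⌊Real.exp b⌋₊ - TN ⌊Real.exp a⌋₊ ≤ ∑ p ∈ PB a b, Real.log p / p := by
  classical
  unfold TN
  have hsub : PN ⌊Real.exp b⌋₊ ⊆ PN ⌊Real.exp a⌋₊ ∪ PB a b := by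
    intro p hp
    rw [mem_PN] at hp
    rw [Finset.mem_union, mem_PN]
    by_cases h : p ≤ ⌊Real.exp a⌋₊
    · exact Or.inl ⟨h, hp.2⟩
    · right
      unfold PB
      rw [Finset.mem_filter, Finset.mem_Icc]
      have hp0 : (0 : ℝ) < p := by exact_mod_cast hp.2.pos
      refine ⟨⟨Nat.zero_le _, hp.1⟩, hp.2, ?_⟩
      rw [not_le, Nat.floor_lt (Real.exp_pos _).le] at h
      rw [← Real.log_exp a]
      exact Real.log_lt_log (Real.exp_pos _) h
  have hnn : ∀ p : ℕ, 0 ≤ Real.log p / (p : ℝ) := fun p =>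
    div_nonneg (Real.log_natCast_nonneg p) (Nat.cast_nonneg p)
  have h1 := Finset.sum_le_sum_of_subset_of_nonneg (f := fun p : ℕ => Real.log p / (p : ℝ)) hsub
    (fun p _ _ => hnn p)
  have h2 : ∑ p ∈ PN ⌊Real.exp a⌋₊ ∪ PB a b, Real.log p / (p : ℝ) ≤
      ∑ p ∈ PN ⌊Real.exp a⌋₊, Real.log p / (p : ℝ) + ∑ p ∈ PB a b, Real.log p / (p : ℝ) := by
    rw [← Finset.sum_union_inter]
    have : 0 ≤ ∑ p ∈ PN ⌊Real.exp a⌋₊ ∩ PB a b, Real.log p / (p : ℝ) :=
      Finset.sum_nonneg fun p _ => hnn p
    linarith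
  linarith

/-- **Averaging.** -/
theorem exists_S0 : ∃ K : ℝ, 0 < K ∧ ∀ U y : ℝ, Real.exp 4 ≤ U → 0 ≤ y →
    ∃ x : ℝ, y ≤ x ∧ x ≤ y + U ∧ 1 - (2 * Real.log U + K) / U ≤ S0 x := by
  obtain ⟨K₁, hK₁, hmert⟩ := mertens_first
  refine ⟨2 * K₁ + 3, by positivity, ?_⟩
  intro U y hU hy
  have hU0 : 0 < U := (Real.exp_pos 4).trans_le hU
  have hU1 : 1 ≤ U := (Real.one_le_exp (by norm_num)).trans hU
  set v : ℝ := Real.log U with hv
  have hv4 : 4 ≤ v := by
    rw [hv, ← Real.log_exp 4]
    exact Real.log_le_log (Real.exp_pos 4) hU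
  by_contra hcon
  push Not at hcon
  set θ : ℝ := (2 * v + (2 * K₁ + 3)) / U with hθ
  have hθU : θ * U = 2 * v + (2 * K₁ + 3) := by rw [hθ]; field_simp
  -- mass of the central part
  have hmass : 1 - 2 / U ≤ ∫ t in (-v)..v, gw t := by
    refine le_trans ?_ (gw_mass (by linarith))
    have h1 : Real.exp (-v ^ 2 / 4) ≤ 1 / U := by
      rw [one_div, ← Real.exp_log hU0, ← Real.exp_neg]
      apply Real.exp_le_exp.2
      rw [← hv]
      nlinarith
    have : 2 / U = 2 * (1 / U) := by ring
    linarith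
  by_cases hsmall : U < 2 * v
  · -- impossible: `U ≥ e^4` and `2 log U ≤ U`
    have h1 : Real.log U ≤ U / 2 := by
      have h2 := Real.log_le_sub_one_of_pos (show 0 < U / 2 by positivity)
      have h3 : Real.log U = Real.log (U / 2) + Real.log 2 := by
        rw [← Real.log_mul (by positivity) (by norm_num)]
        congr 1
        ring
      have h4 := Real.log_two_lt_d9
      linarith
    linarith
  rw [not_lt] at hsmall
  -- the finite set of primes
  set F := PB (y + v) (y + U - v) with hF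
  have hS0 : ∀ x : ℝ, ∑ p ∈ F, wn x p ≤ S0 x := by
    intro x
    unfold S0
    exact (summable_wn x).sum_le_tsum F (fun n _ => wn_nonneg x n)
  have hwn : ∀ p ∈ F, ∀ x : ℝ, wn x p = Real.log p / p * gw (Real.log p - x) := by
    intro p hp x
    unfold wn
    rw [ArithmeticFunction.vonMangoldt_apply_prime (mem_PB hp).1]
    ring
  have hcont : ∀ p : ℕ, Continuous fun x : ℝ => Real.log p / p * gw (Real.log p - x) := by
    intro p
    exact continuous_const.mul (continuous_gw.comp (by fun_prop))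
  have hint1 : ∫ x in y..(y + U), ∑ p ∈ F, Real.log p / p * gw (Real.log p - x) ≤
      ∫ x in y..(y + U), (1 - θ) := by
    apply intervalIntegral.integral_mono_on (by linarith)
    · exact (continuous_finsetSum _ fun p _ => hcont p).intervalIntegrable _ _
    · exact intervalIntegrable_const
    · intro x hx
      have h1 := hcon x hx.1 hx.2
      have h2 := hS0 x
      rw [Finset.sum_congr rfl (fun p hp => hwn p hp x)] at h2
      linarith
  rw [intervalIntegral.integral_const, smul_eq_mul,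
    intervalIntegral.integral_finsetSum (fun p _ => (hcont p).intervalIntegrable _ _)] at hint1
  have hone : ∀ p ∈ F, Real.log p / p * (1 - 2 / U) ≤
      ∫ x in y..(y + U), Real.log p / p * gw (Real.log p - x) := by
    intro p hp
    obtain ⟨hp1, hp2, hp3⟩ := mem_PB hp
    rw [intervalIntegral.integral_const_mul]
    apply mul_le_mul_of_nonneg_left _
      (div_nonneg (Real.log_natCast_nonneg p) (Nat.cast_nonneg p))
    refine hmass.trans ?_
    rw [intervalIntegral.integral_comp_sub_left]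
    apply intervalIntegral.integral_mono_interval (by linarith) (by linarith) (by linarith)
    · exact Eventually.of_forall fun t => gw_nonneg t
    · exact continuous_gw.intervalIntegrable _ _
  have hsum := Finset.sum_le_sum hone
  rw [← Finset.sum_mul] at hsum
  -- Mertens
  have hM : U - 2 * v - 2 * K₁ ≤ ∑ p ∈ F, Real.log p / p := by
    have h1 := TN_sub (a := y + v) (b := y + U - v) (by linarith)
    have h2 := abs_le.1 (hmert (Real.exp (y + v)) (Real.one_le_exp (by linarith)))
    have h3 := abs_le.1 (hmert (Real.exp (y + U - v)) (Real.one_le_exp (by linarith)))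
    rw [Real.log_exp] at h2 h3
    linarith [h2.2, h3.1]
  have hfin : (U - 2 * v - 2 * K₁) * (1 - 2 / U) ≤ U * (1 - θ) := by
    have h2U : 0 ≤ 1 - 2 / U := by
      rw [sub_nonneg, div_le_one hU0]
      have : Real.exp 4 ≥ 4 + 1 := Real.add_one_le_exp 4
      linarith
    calc (U - 2 * v - 2 * K₁) * (1 - 2 / U) ≤ (∑ p ∈ F, Real.log p / p) * (1 - 2 / U) :=
          mul_le_mul_of_nonneg_right hM h2U
      _ ≤ _ := hsum
      _ ≤ _ := hint1
      _ = U * (1 - θ) := by ring
  have h4 : (U - 2 * v - 2 * K₁) * (1 - 2 / U) = U - 2 * v - 2 * K₁ - 2 + (4 * v + 4 * K₁) / U := by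
    field_simp
    ring
  have h5 : 0 ≤ (4 * v + 4 * K₁) / U := by positivity
  nlinarith

end Pool.Agent.LibG2
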