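import Pool.Agent.LibG2.Erase
import Pool.Agent.LibGal99.D10b

/-!
The Omega lemma for the sieve by the primes `≤ z` except one (adapted from `LibGal99/D10b`,
helper99).
-/

namespace Pool.Agent.LibG2.PS

open Filter Topology MeasureTheory
open Pool.Gal99 hiding EE GG V R er Pz pr V_pos V_le_one exists_large window_of_EE GG_real

/-- the level `τ v` -/
theorem level' (ξ τ κ : ℝ) (hξ : 0 < ξ) (hτ : 0 < τ) (hτ1 : τ ≠ 1) (hκ : 0 < κ) :
    ∀ᶠ h : ℕ in atTop, 0 < Real.log (τ * vs ξ h) / ll h ∧ Real.log (τ * vs ξ h) / ll h ≤ 1 / 2 ∧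
      20 * (zz h : ℝ) ^ (Real.log (τ * vs ξ h) / ll h) *
        (∏ p ∈ Pool.Gal99.pr (zz h), (1 + (p : ℝ) ^ (Real.log (τ * vs ξ h) / ll h - 1))) *
        (Real.exp (-(τ * Real.log τ) * ws ξ h) * (ll h / |Real.log τ|)) ≤
      Real.exp ((τ * (1 - Real.log τ) + κ) * ws ξ h) := by
  have hexp : Tendsto (fun h => Real.exp (κ / 2 * ws ξ h)) atTop atTop :=
    Real.tendsto_exp_atTop.comp ((d10_w_atTop ξ hξ).const_mul_atTop (by positivity))
  filter_upwards [d10_level ξ τ (κ / 2) hξ hτ hτ1 (by positivity), hexp.eventually_ge_atTop 4]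
    with h h1 h2
  obtain ⟨h3, h4, h5⟩ := h1
  refine ⟨h3, h4, ?_⟩
  have h6 : Real.exp ((τ * (1 - Real.log τ) + κ) * ws ξ h) =
      Real.exp (κ / 2 * ws ξ h) * Real.exp ((τ * (1 - Real.log τ) + κ / 2) * ws ξ h) := by
    rw [← Real.exp_add]
    congr 1
    ring
  rw [h6]
  have h7 := Real.exp_pos ((τ * (1 - Real.log τ) + κ / 2) * ws ξ h)
  calc 20 * (zz h : ℝ) ^ (Real.log (τ * vs ξ h) / ll h) *
        (∏ p ∈ Pool.Gal99.pr (zz h), (1 + (p : ℝ) ^ (Real.log (τ * vs ξ h) / ll h - 1))) *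
        (Real.exp (-(τ * Real.log τ) * ws ξ h) * (ll h / |Real.log τ|))
      = 4 * (5 * (zz h : ℝ) ^ (Real.log (τ * vs ξ h) / ll h) *
        (∏ p ∈ Pool.Gal99.pr (zz h), (1 + (p : ℝ) ^ (Real.log (τ * vs ξ h) / ll h - 1))) *
        (Real.exp (-(τ * Real.log τ) * ws ξ h) * (ll h / |Real.log τ|))) := by ring
    _ ≤ 4 * Real.exp ((τ * (1 - Real.log τ) + κ / 2) * ws ξ h) := by linarith
    _ ≤ _ := mul_le_mul_of_nonneg_right h2 h7.le

/-- the main term of the Mellin transform -/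
theorem main' (ξ κ : ℝ) (hξ : 0 < ξ) (hκ : 0 < κ) : ∀ᶠ h : ℕ in atTop,
    ∀ p ∈ Pool.Gal99.pr (zz h), Real.exp ((1 - κ) * ws ξ h) ≤
      ‖zs ((1 - Real.log (vs ξ h) / ll h : ℝ) + (Real.pi / ll h : ℝ) * Complex.I)‖ *
      ‖GG (erz (zz h) p) ((1 - Real.log (vs ξ h) / ll h : ℝ) +
        (Real.pi / ll h : ℝ) * Complex.I)‖ := by
  have hexp : Tendsto (fun h => Real.exp (κ / 2 * ws ξ h)) atTop atTop :=
    Real.tendsto_exp_atTop.comp ((d10_w_atTop ξ hξ).const_mul_atTop (by positivity))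
  filter_upwards [d10_main ξ (κ / 2) hξ (by positivity), hexp.eventually_ge_atTop 2,
    (d10_beta ξ hξ).eventually_le_const (show (0 : ℝ) < 1 / 8 by norm_num)] with h h1 h2 hb p hp
  set s : ℂ := ((1 - Real.log (vs ξ h) / ll h : ℝ) + (Real.pi / ll h : ℝ) * Complex.I) with hs
  have hre : 0 ≤ s.re := by
    rw [hs]
    simp
    linarith
  have h3 := norm_GG_ge hp s hre
  have h4 : Real.exp ((1 - κ / 2) * ws ξ h) =
      Real.exp (κ / 2 * ws ξ h) * Real.exp ((1 - κ) * ws ξ h) := by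
    rw [← Real.exp_add]
    congr 1
    ring
  rw [h4] at h1
  have h5 := Real.exp_pos ((1 - κ) * ws ξ h)
  have h6 : 2 * Real.exp ((1 - κ) * ws ξ h) ≤
      Real.exp (κ / 2 * ws ξ h) * Real.exp ((1 - κ) * ws ξ h) :=
    mul_le_mul_of_nonneg_right h2 h5.le
  have h7 : ‖zs s‖ * ‖Pool.Gal99.GG (zz h) s‖ ≤ ‖zs s‖ * (2 * ‖GG (erz (zz h) p) s‖) :=
    mul_le_mul_of_nonneg_left h3 (norm_nonneg _)
  nlinarith

/-- **The Omega lemma with one prime erased.** -/
theorem omega' (ε : ℝ) (hε : 0 < ε) : ∀ᶠ h : ℕ in atTop, 2 ≤ zz h ∧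
    Real.log (zz h) ≤ (1 + ε) * ks h / 2 ∧ ∀ p ∈ Pool.Gal99.pr (zz h), ∃ m : ℕ,
      Real.exp (-((1 + ε) * ks h / 2)) ≤ er (erz (zz h) p) m h := by
  set ξ := ε / 4 with hξdef
  have hξ : 0 < ξ := by positivity
  set τ₁ := (1 + ξ / 2) / (1 + ξ) with hτ₁def
  set τ₂ := (1 + 2 * ξ) / (1 + ξ) with hτ₂def
  have hτ₁ : 0 < τ₁ := by positivity
  have hτ₂ : 0 < τ₂ := by positivity
  have hτ₁1 : τ₁ < 1 := by
    rw [hτ₁def, div_lt_one (by positivity)]
    linarith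
  have hτ₂1 : 1 < τ₂ := by
    rw [hτ₂def, one_lt_div (by positivity)]
    linarith
  have hl1 : Real.log τ₁ < 0 := Real.log_neg hτ₁ hτ₁1
  have hl2 : 0 < Real.log τ₂ := Real.log_pos hτ₂1
  set c := min (min (1 - τ₁ * (1 - Real.log τ₁)) (1 - τ₂ * (1 - Real.log τ₂))) 1 with hcdef
  have hc : 0 < c := by
    refine lt_min (lt_min ?_ ?_) one_pos
    · have := d10_f_lt τ₁ hτ₁ hτ₁1.ne
      linarith
    · have := d10_f_lt τ₂ hτ₂ hτ₂1.ne'
      linarith
  have hc1 : c ≤ 1 := min_le_right _ _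
  have hcτ₁ : τ₁ * (1 - Real.log τ₁) ≤ 1 - c := by
    have : c ≤ 1 - τ₁ * (1 - Real.log τ₁) := (min_le_left _ _).trans (min_le_left _ _)
    linarith
  have hcτ₂ : τ₂ * (1 - Real.log τ₂) ≤ 1 - c := by
    have : c ≤ 1 - τ₂ * (1 - Real.log τ₂) := (min_le_left _ _).trans (min_le_right _ _)
    linarith
  have hw := d10_w_atTop ξ hξ
  have hreal : Tendsto (fun h => Real.log 2 / ws ξ h + Real.log (ll h + 1) / ws ξ h) atTop
      (𝓝 (0 + 0)) := (tendsto_const_nhds.div_atTop hw).add (d10_logl_w ξ hξ)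
  have hexp : Tendsto (fun h => Real.exp (c / 2 * ws ξ h)) atTop atTop :=
    Real.tendsto_exp_atTop.comp (hw.const_mul_atTop (by positivity))
  filter_upwards [level' ξ τ₁ (c / 4) hξ hτ₁ hτ₁1.ne (by positivity),
    level' ξ τ₂ (c / 4) hξ hτ₂ hτ₂1.ne' (by positivity),
    main' ξ (c / 4) hξ (by positivity), d10_eta ε ξ hξ (by linarith),
    hreal.eventually_lt_const (show (0 : ℝ) + 0 < 1 / 4 by norm_num),
    hexp.eventually_ge_atTop 6, hw.eventually_gt_atTop 0, d10_ll_atTop.eventually_gt_atTop 0,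
    (d10_logv_atTop ξ hξ).eventually_ge_atTop 1, (d10_v_atTop ξ hξ).eventually_gt_atTop 0,
    (d10_beta ξ hξ).eventually_le_const (show (0 : ℝ) < 1 / 8 by norm_num), d10_zz3,
    d10_L.eventually_gt_atTop 0, ks_small (ξ / (1 + ε)) (by positivity),
    ks_atTop.eventually_gt_atTop 0, eventually_gt_atTop 1]
    with h hlev1 hlev2 hmain heta hrl hex hw0 hl hlv1 hv0 hb hz3 hL hks hk0 hh1
  obtain ⟨hb10, hb11, hlev1⟩ := hlev1
  obtain ⟨hb20, hb21, hlev2⟩ := hlev2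
  set L := Real.log (h : ℝ) with hLdef
  set β := Real.log (vs ξ h) / ll h with hβdef
  set b₁ := Real.log (τ₁ * vs ξ h) / ll h with hb₁def
  set b₂ := Real.log (τ₂ * vs ξ h) / ll h with hb₂def
  have hβ0 : 0 < β := by positivity
  have hh0 : (0 : ℝ) < h := by
    have : 0 < h := by omega
    exact_mod_cast this
  have hd1 : β - b₁ = -Real.log τ₁ / ll h := by
    rw [hβdef, hb₁def, Real.log_mul hτ₁.ne' hv0.ne', ← sub_div]
    congr 1
    ring
  have hd2 : β - b₂ = -Real.log τ₂ / ll h := by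
    rw [hβdef, hb₂def, Real.log_mul hτ₂.ne' hv0.ne', ← sub_div]
    congr 1
    ring
  have hb1β : b₁ < β := by
    have : 0 < -Real.log τ₁ / ll h := div_pos (by linarith) hl
    linarith
  have hb2β : β < b₂ := by
    have : 0 < Real.log τ₂ / ll h := div_pos hl2 hl
    rw [neg_div] at hd2
    linarith
  set y₁ : ℝ := (h : ℝ) ^ (1 + ξ / 2) with hy₁def
  set y₂ : ℝ := (h : ℝ) ^ (1 + 2 * ξ) with hy₂def
  have hy1 : 0 < y₁ := by positivity
  have hy12 : y₁ < y₂ := by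
    apply Real.rpow_lt_rpow_of_exponent_lt
    · exact_mod_cast hh1
    · linarith
  have hu : us h = L / ll h := rfl
  have hwu : ws ξ h = (1 + ξ) * us h := rfl
  have hp1 : y₁ ^ (β - b₁) = Real.exp (-(τ₁ * Real.log τ₁) * ws ξ h) := by
    rw [hy₁def, ← Real.rpow_mul hh0.le, Real.rpow_def_of_pos hh0, hd1, hwu, hu, hτ₁def]
    congr 1
    rw [← hLdef, ← hτ₁def]
    have : τ₁ * (1 + ξ) = 1 + ξ / 2 := by
      rw [hτ₁def]
      field_simp
    rw [← this]
    field_simp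
  have hp2 : y₂ ^ (β - b₂) = Real.exp (-(τ₂ * Real.log τ₂) * ws ξ h) := by
    rw [hy₂def, ← Real.rpow_mul hh0.le, Real.rpow_def_of_pos hh0, hd2, hwu, hu, hτ₂def]
    congr 1
    rw [← hLdef, ← hτ₂def]
    have : τ₂ * (1 + ξ) = 1 + 2 * ξ := by
      rw [hτ₂def]
      field_simp
    rw [← this]
    field_simp
  have hp3 : y₂ ^ β = Real.exp ((1 + 2 * ξ) * (us h * Real.log (vs ξ h))) := by
    rw [hy₂def, ← Real.rpow_mul hh0.le, Real.rpow_def_of_pos hh0, hβdef, hu]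
    congr 1
    rw [← hLdef]
    field_simp
  have hz1 : 1 ≤ zz h := by omega
  refine ⟨by omega, ?_, ?_⟩
  · have h1 := d10_ll_le h hk0.le
    have h2 : Real.log (zz h : ℝ) = ll h := rfl
    rw [h2]
    nlinarith
  intro p hp
  have hmain := hmain p hp
  have hI1 := int_low' hz1 hp β b₁ y₁ hb10.le hb1β hb11 hy1
  have hI2 := int_high' hz1 hp β b₂ y₂ hb21 hβ0 hb2β (hy1.trans hy12)
  set E := Real.exp ((1 - 3 * c / 4) * ws ξ h) with hEdef
  have hI1' : ∫ y in Set.Ioc 0 y₁, |EE (erz (zz h) p) y| * y ^ (β - 2) ≤ E := by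
    refine hI1.trans ?_
    have e1 : y₁ ^ (β - b₁) / (β - b₁) =
        Real.exp (-(τ₁ * Real.log τ₁) * ws ξ h) * (ll h / |Real.log τ₁|) := by
      rw [hp1, hd1, abs_of_neg hl1]
      rw [div_div_eq_mul_div, mul_div_assoc]
    rw [e1]
    refine hlev1.trans (Real.exp_le_exp.2 ?_)
    apply mul_le_mul_of_nonneg_right _ hw0.le
    linarith
  have hI2' : ∫ y in Set.Ioi y₂, |EE (erz (zz h) p) y| * y ^ (β - 2) ≤ E := by
    refine hI2.trans ?_
    have e1 : y₂ ^ (β - b₂) / (b₂ - β) =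
        Real.exp (-(τ₂ * Real.log τ₂) * ws ξ h) * (ll h / |Real.log τ₂|) := by
      have e2 : b₂ - β = Real.log τ₂ / ll h := by
        have : b₂ - β = -(β - b₂) := by ring
        rw [this, hd2]
        ring
      rw [hp2, e2, abs_of_pos hl2]
      rw [div_div_eq_mul_div, mul_div_assoc]
    rw [e1]
    refine hlev2.trans (Real.exp_le_exp.2 ?_)
    apply mul_le_mul_of_nonneg_right _ hw0.le
    linarith
  have hone : 1 ≤ E := Real.one_le_exp (mul_nonneg (by linarith) hw0.le)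
  have hre : ‖zs ((1 - β : ℝ) : ℂ)‖ * ‖GG (erz (zz h) p) ((1 - β : ℝ) : ℂ)‖ ≤ E := by
    have h1 := zs_upper ((1 - β : ℝ) : ℂ) (by simp; linarith) (by simp; linarith)
    have h2 := GG_real (erz (zz h) p) (1 - β) (by linarith)
    rw [Complex.ofReal_re] at h1
    have h3 : 1 / (1 - (1 - β)) + 1 / (1 - β) ≤ 2 * (ll h + 1) := by
      have e1 : 1 / (1 - (1 - β)) ≤ ll h := by
        rw [show 1 - (1 - β) = β by ring, hβdef, one_div_div]
        exact div_le_self hl.le hlv1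
      have e2 : 1 / (1 - β) ≤ 2 := by
        rw [div_le_iff₀ (by linarith)]
        linarith
      linarith
    have h4 : 2 * (ll h + 1) ≤ E := by
      have e1 : 2 * (ll h + 1) = Real.exp (Real.log 2 + Real.log (ll h + 1)) := by
        rw [Real.exp_add, Real.exp_log (by norm_num), Real.exp_log (by linarith)]
      rw [e1]
      apply Real.exp_le_exp.2
      rw [← add_div, div_lt_iff₀ hw0] at hrl
      refine hrl.le.trans (mul_le_mul_of_nonneg_right ?_ hw0.le)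
      linarith
    calc ‖zs ((1 - β : ℝ) : ℂ)‖ * ‖GG (erz (zz h) p) ((1 - β : ℝ) : ℂ)‖
        ≤ ‖zs ((1 - β : ℝ) : ℂ)‖ * 1 := mul_le_mul_of_nonneg_left h2 (norm_nonneg _)
      _ ≤ E := by rw [mul_one]; exact h1.trans (h3.trans h4)
  have hsum : 1 + 2 * (E + E) + ‖zs ((1 - β : ℝ) : ℂ)‖ * ‖GG (erz (zz h) p) ((1 - β : ℝ) : ℂ)‖ ≤
      ‖zs ((1 - β : ℝ) + (Real.pi / ll h : ℝ) * Complex.I)‖ *
        ‖GG (erz (zz h) p) ((1 - β : ℝ) + (Real.pi / ll h : ℝ) * Complex.I)‖ := by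
    refine le_trans ?_ hmain
    have e1 : Real.exp ((1 - c / 4) * ws ξ h) = Real.exp (c / 2 * ws ξ h) * E := by
      rw [hEdef, ← Real.exp_add]
      congr 1
      ring
    rw [e1]
    have hE0 : 0 < E := by linarith
    nlinarith
  obtain ⟨y, hy1y, hyy2, hEy⟩ := exists_large (erz (zz h) p) β (Real.pi / ll h) y₁ y₂ E E 1 hβ0
    (by linarith) (integrable' hz1 hp β hβ0 (by linarith)) hy1 hy12 hI1' hI2' one_pos hsum
  have hη8 : Real.exp (-((1 + ε) * ks h / 2)) ≤ 1 * β / (4 * y₂ ^ β) / 2 := by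
    have h1 : Real.exp (-(Real.log 8 + Real.log (ll h + 1) + (1 + 2 * ξ) *
        (us h * Real.log (vs ξ h)))) ≤ 1 * β / (4 * y₂ ^ β) / 2 := by
      have h2 : 1 / (ll h + 1) ≤ β := by
        rw [hβdef, div_le_div_iff₀ (by linarith) hl]
        nlinarith
      have e1 : Real.exp (-(Real.log 8 + Real.log (ll h + 1) + (1 + 2 * ξ) *
        (us h * Real.log (vs ξ h)))) = 1 / (ll h + 1) / (8 * y₂ ^ β) := by
        rw [hp3, Real.exp_neg, Real.exp_add, Real.exp_add, Real.exp_log (by norm_num),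
          Real.exp_log (by linarith)]
        field_simp
      rw [e1]
      have hy2β : 0 < y₂ ^ β := Real.rpow_pos_of_pos (hy1.trans hy12) _
      calc 1 / (ll h + 1) / (8 * y₂ ^ β) ≤ β / (8 * y₂ ^ β) := by gcongr
        _ = 1 * β / (4 * y₂ ^ β) / 2 := by
          field_simp
          norm_num
    refine le_trans (Real.exp_le_exp.2 ?_) h1
    linarith
  have hηpos : 0 < 1 * β / (4 * y₂ ^ β) := by
    have := (Real.exp_pos (-((1 + ε) * ks h / 2))).trans_le hη8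
    linarith
  have hypos : 0 < y := hy1.trans hy1y
  have hhy : (h : ℝ) ≤ 1 * β / (4 * y₂ ^ β) * y / 2 := by
    have h1 : (h : ℝ) * Real.exp (ξ / 2 * L) ≤ y := by
      refine le_trans (le_of_eq ?_) hy1y.le
      rw [hy₁def, Real.rpow_add hh0, Real.rpow_one, Real.rpow_def_of_pos hh0]
      congr 2
      rw [← hLdef]
      ring
    have h2 : 1 ≤ Real.exp (-((1 + ε) * ks h / 2)) * Real.exp (ξ / 2 * L) := by
      rw [← Real.exp_add]
      apply Real.one_le_exp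
      have h3 : ks h ≤ ξ / (1 + ε) * L := hks
      have h4 : (1 + ε) * ks h ≤ ξ * L := by
        rw [div_mul_eq_mul_div, le_div_iff₀ (by linarith)] at h3
        linarith
      linarith
    calc (h : ℝ) ≤ h * (Real.exp (-((1 + ε) * ks h / 2)) * Real.exp (ξ / 2 * L)) :=
          le_mul_of_one_le_right hh0.le h2
      _ = Real.exp (-((1 + ε) * ks h / 2)) * (h * Real.exp (ξ / 2 * L)) := by ring
      _ ≤ 1 * β / (4 * y₂ ^ β) / 2 * y :=
          mul_le_mul hη8 h1 (by positivity) (by linarith)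
      _ = 1 * β / (4 * y₂ ^ β) * y / 2 := by ring
  obtain ⟨m, hm⟩ := window_of_EE (erz (zz h) p) h (by omega) y _ hypos hηpos (by linarith) hhy
  exact ⟨m, hη8.trans hm⟩

end Pool.Agent.LibG2.PS
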