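import Pool.Agent.LibGal99.D8

/-!
The error function of the sieve by an arbitrary finite set of primes (adapted from `LibGal99`,
files D1 (helper29), D2 (helper65), D8 (helper74)).
-/

namespace Pool.Agent.LibG2.PS

open Finset Filter Topology MeasureTheory Set

/-- a finite set of primes -/
structure PSet where
  /-- the set -/
  S : Finset ℕ
  prime : ∀ p ∈ S, p.Prime

/-- its elements -/
def pr (z : PSet) : Finset ℕ := z.S

/-- their product -/
def Pz (z : PSet) : ℕ := ∏ p ∈ pr z, p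

/-- `∏ (1 - 1/p)` -/
noncomputable def V (z : PSet) : ℝ := ∏ p ∈ pr z, (1 - 1 / (p : ℝ))

/-- the number of `n ∈ (m, m+h]` without prime factors in the set -/
def R (z : PSet) (m h : ℕ) : ℕ := ((Finset.Ioc m (m + h)).filter (fun n => n.Coprime (Pz z))).card

/-- relative error of the sieve in the window `(m, m+h]` -/
noncomputable def er (z : PSet) (m h : ℕ) : ℝ := (R z m h : ℝ) / (h * V z) - 1

/-- error function of the sieve on `(0, y]` -/
noncomputable def EE (z : PSet) (y : ℝ) : ℝ := (R z 0 ⌊y⌋₊ : ℝ) - y * V z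

noncomputable def GG (z : PSet) (s : ℂ) : ℂ := ∏ p ∈ pr z, (1 - (p : ℂ) ^ (-s))

theorem V_pos (z : PSet) : 0 < V z := by
  unfold V
  refine Finset.prod_pos fun p hp => ?_
  have h1 : (1 : ℝ) < p := by exact_mod_cast (z.prime p hp).one_lt
  have h2 : 1 / (p : ℝ) < 1 := by
    rw [div_lt_one (by linarith)]
    exact h1
  linarith

theorem V_le_one (z : PSet) : V z ≤ 1 := by
  unfold V
  refine Finset.prod_le_one (fun p hp => ?_) (fun p hp => ?_)
  · have h1 : (1 : ℝ) < p := by exact_mod_cast (z.prime p hp).one_lt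
    have h2 : 1 / (p : ℝ) < 1 := by
      rw [div_lt_one (by linarith)]
      exact h1
    linarith
  · have : (0 : ℝ) ≤ 1 / (p : ℝ) := by positivity
    linarith

theorem D1_prime {z : PSet} {p : ℕ} (hp : p ∈ pr z) : p.Prime := z.prime p hp

theorem D1_pf (z : PSet) : (Pz z).primeFactors = pr z :=
  Nat.primeFactors_prod fun _ hp => D1_prime hp

theorem D1_sqf (z : PSet) : Squarefree (Pz z) := by
  unfold Pz
  refine Finset.squarefree_prod_of_pairwise_isCoprime ?_ fun p hp => (D1_prime hp).squarefree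
  intro p hp q hq hpq
  exact Nat.coprime_iff_isRelPrime.1 ((Nat.coprime_primes (D1_prime hp) (D1_prime hq)).2 hpq)

/-- A completely multiplicative function as an arithmetic function. -/
theorem D1_prod {R : Type*} [CommRing R] (z : PSet) (f : ℕ → R) (h1 : f 1 = 1)
    (hm : ∀ m n : ℕ, f (m * n) = f m * f n) :
    ∏ p ∈ pr z, (1 - f p) =
      ∑ d ∈ (Pz z).divisors, (ArithmeticFunction.moebius d : R) * f d := by
  let F : ArithmeticFunction R := ⟨fun n => if n = 0 then 0 else f n, by simp⟩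
  have hF : ∀ n : ℕ, n ≠ 0 → F n = f n := fun n hn => by
    change (if n = 0 then 0 else f n) = f n
    rw [if_neg hn]
  have hmul : F.IsMultiplicative := by
    refine ArithmeticFunction.IsMultiplicative.iff_ne_zero.2 ⟨?_, ?_⟩
    · rw [hF 1 one_ne_zero, h1]
    · intro m n hm0 hn0 _
      rw [hF _ (Nat.mul_ne_zero hm0 hn0), hF _ hm0, hF _ hn0, hm]
  have h := ArithmeticFunction.IsMultiplicative.prodPrimeFactors_one_sub_of_squarefree F hmul
    (D1_sqf z)
  rw [D1_pf] at h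
  have e1 : ∏ p ∈ pr z, (1 - f p) = ∏ p ∈ pr z, (1 - F p) :=
    Finset.prod_congr rfl fun p hp => by rw [hF p (D1_prime hp).ne_zero]
  rw [e1, h]
  refine Finset.sum_congr rfl fun d hd => ?_
  rw [hF d (Nat.pos_of_mem_divisors hd).ne']

theorem D1_V (z : PSet) :
    V z = ∑ d ∈ (Pz z).divisors, (ArithmeticFunction.moebius d : ℝ) * (1 / (d : ℝ)) := by
  refine D1_prod z (fun d => 1 / (d : ℝ)) (by simp) fun m n => ?_
  push_cast
  rw [one_div_mul_one_div]

theorem D1_R (z : PSet) (h : ℕ) : (R z 0 h : ℤ) =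
    ∑ d ∈ (Pz z).divisors, ArithmeticFunction.moebius d * ((h / d : ℕ) : ℤ) := by
  have hP : Pz z ≠ 0 := (D1_sqf z).ne_zero
  have h1 : (R z 0 h : ℤ) = ∑ n ∈ Finset.Ioc 0 h, ∑ d ∈ (n.gcd (Pz z)).divisors,
      ArithmeticFunction.moebius d := by
    unfold R
    rw [zero_add, Finset.card_filter, Nat.cast_sum]
    refine Finset.sum_congr rfl fun n _ => ?_
    have h2 := ArithmeticFunction.coe_mul_zeta_apply (f := ArithmeticFunction.moebius)
      (x := n.gcd (Pz z))
    rw [ArithmeticFunction.moebius_mul_coe_zeta] at h2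
    rw [← h2, ArithmeticFunction.one_apply]
    simp [Nat.Coprime]
  rw [h1]
  have h3 : ∀ n ∈ Finset.Ioc 0 h, ∑ d ∈ (n.gcd (Pz z)).divisors, ArithmeticFunction.moebius d =
      ∑ d ∈ (Pz z).divisors, if d ∣ n then ArithmeticFunction.moebius d else 0 := by
    intro n hn
    rw [← Finset.sum_filter]
    refine Finset.sum_congr ?_ fun _ _ => rfl
    ext d
    simp only [Nat.mem_divisors, Finset.mem_filter]
    constructor
    · rintro ⟨h4, -⟩
      exact ⟨⟨h4.trans (Nat.gcd_dvd_right _ _), hP⟩, h4.trans (Nat.gcd_dvd_left _ _)⟩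
    · rintro ⟨⟨h4, -⟩, h5⟩
      exact ⟨Nat.dvd_gcd h5 h4, Nat.gcd_ne_zero_right hP⟩
  rw [Finset.sum_congr rfl h3, Finset.sum_comm]
  refine Finset.sum_congr rfl fun d _ => ?_
  rw [← Nat.Ioc_filter_dvd_card_eq_div, Finset.card_filter, Nat.cast_sum, Finset.mul_sum]
  refine Finset.sum_congr rfl fun n _ => ?_
  by_cases hd : d ∣ n
  · simp [hd]
  · simp [hd]

/-- D1 -/
theorem EE_eq (z : PSet) (y : ℝ) (hy : 0 ≤ y) :
    EE z y = -∑ d ∈ (Pz z).divisors, (ArithmeticFunction.moebius d : ℝ) * Int.fract (y / d) := by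
  unfold EE
  have h1 : (R z 0 ⌊y⌋₊ : ℝ) = ∑ d ∈ (Pz z).divisors,
      (ArithmeticFunction.moebius d : ℝ) * ((⌊y⌋₊ / d : ℕ) : ℝ) := by
    have := D1_R z ⌊y⌋₊
    have h2 := congrArg (fun x : ℤ => (x : ℝ)) this
    simp only [Int.cast_sum, Int.cast_mul, Int.cast_natCast] at h2
    exact h2
  rw [h1, D1_V, Finset.mul_sum, ← Finset.sum_sub_distrib, ← Finset.sum_neg_distrib]
  refine Finset.sum_congr rfl fun d hd => ?_
  have h3 : (⌊y⌋₊ / d : ℕ) = ⌊y / d⌋₊ := (Nat.floor_div_natCast y d).symm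
  have h4 : ((⌊y / d⌋₊ : ℕ) : ℝ) = ((⌊y / d⌋ : ℤ) : ℝ) := by
    rw [← natCast_floor_eq_intCast_floor (by positivity)]
  rw [h3, h4, Int.fract]
  ring

theorem GG_eq (z : PSet) (s : ℂ) :
    GG z s = ∑ d ∈ (Pz z).divisors, (ArithmeticFunction.moebius d : ℂ) * (d : ℂ) ^ (-s) := by
  refine D1_prod z (fun d => (d : ℂ) ^ (-s)) (by simp) fun m n => ?_
  rw [Nat.cast_mul, Complex.natCast_mul_natCast_cpow]

theorem GG_real (z : PSet) (σ : ℝ) (hσ : 0 ≤ σ) : ‖GG z (σ : ℂ)‖ ≤ 1 := by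
  unfold GG
  rw [norm_prod]
  refine Finset.prod_le_one (fun _ _ => norm_nonneg _) fun p hp => ?_
  have hp1 : (1 : ℝ) ≤ p := by exact_mod_cast (D1_prime hp).one_lt.le
  have h1 : (p : ℂ) ^ (-(σ : ℂ)) = (((p : ℝ) ^ (-σ) : ℝ) : ℂ) := by
    rw [Complex.ofReal_cpow (by positivity)]
    push_cast
    rfl
  have h2 : (0 : ℝ) ≤ (p : ℝ) ^ (-σ) := by positivity
  have h3 : (p : ℝ) ^ (-σ) ≤ 1 := Real.rpow_le_one_of_one_le_of_nonpos hp1 (by linarith)
  rw [h1, ← Complex.ofReal_one, ← Complex.ofReal_sub, Complex.norm_real, Real.norm_eq_abs,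
    abs_of_nonneg (by linarith)]
  linarith

theorem measurable_EE (z : PSet) : Measurable (EE z) := by
  unfold EE
  have h1 : Measurable fun y : ℝ => (R z 0 ⌊y⌋₊ : ℝ) :=
    (measurable_from_top (f := fun n : ℕ => (R z 0 n : ℝ))).comp Nat.measurable_floor
  exact h1.sub (measurable_id.mul_const _)

/-- D2b -/
theorem mellin_EE (z : PSet) (s : ℂ) (h0 : 0 < s.re) (h1 : s.re < 1) :
    MellinConvergent (fun y : ℝ => ((EE z y : ℝ) : ℂ)) (-s) ∧
      mellin (fun y : ℝ => ((EE z y : ℝ) : ℂ)) (-s) = -(Pool.Gal99.zs s * GG z s) := by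
  have hone : ∀ d ∈ (Pz z).divisors,
      HasMellin (fun y : ℝ => ((Int.fract ((d : ℝ)⁻¹ * y) : ℝ) : ℂ)) (-s) ((d : ℂ) ^ (-s) * Pool.Gal99.zs s) := by
    intro d hd
    have hd0 : (0 : ℝ) < (d : ℝ)⁻¹ := by
      have : 0 < d := Nat.pos_of_mem_divisors hd
      positivity
    refine ⟨(MellinConvergent.comp_mul_left hd0).2 (Pool.Gal99.mellinConvergent_fract s h0 h1), ?_⟩
    rw [mellin_comp_mul_left (fun x : ℝ => ((Int.fract x : ℝ) : ℂ)) (-s) hd0, smul_eq_mul, neg_neg]
    congr 1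
    have hpos : 0 < d := Nat.pos_of_mem_divisors hd
    rw [Complex.ofReal_inv, Complex.ofReal_natCast, Complex.inv_cpow _ _ (by
      rw [Complex.natCast_arg]; exact Real.pi_pos.ne), Complex.cpow_neg]
  have hsum := Pool.Gal99.D2_sum (Pz z).divisors (fun d => -((ArithmeticFunction.moebius d : ℤ) : ℂ))
    (fun d y => ((Int.fract ((d : ℝ)⁻¹ * y) : ℝ) : ℂ)) (fun d => (d : ℂ) ^ (-s) * Pool.Gal99.zs s) (-s) hone
  have hfun : ∀ y ∈ Ioi (0 : ℝ), ∑ d ∈ (Pz z).divisors, -((ArithmeticFunction.moebius d : ℤ) : ℂ) *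
      ((Int.fract ((d : ℝ)⁻¹ * y) : ℝ) : ℂ) = ((EE z y : ℝ) : ℂ) := by
    intro y hy
    rw [EE_eq z y (le_of_lt hy)]
    push_cast
    rw [← Finset.sum_neg_distrib]
    refine Finset.sum_congr rfl fun d _ => ?_
    rw [neg_mul, div_eq_inv_mul]
  constructor
  · have := hsum.1
    unfold MellinConvergent at this ⊢
    refine this.congr_fun (fun y hy => ?_) measurableSet_Ioi
    change (y : ℂ) ^ (-s - 1) • (∑ d ∈ (Pz z).divisors, -((ArithmeticFunction.moebius d : ℤ) : ℂ) *
      ((Int.fract ((d : ℝ)⁻¹ * y) : ℝ) : ℂ)) = _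
    rw [hfun y hy]
  · have h2 : mellin (fun y : ℝ => ((EE z y : ℝ) : ℂ)) (-s)
        = mellin (fun y => ∑ d ∈ (Pz z).divisors, -((ArithmeticFunction.moebius d : ℤ) : ℂ) *
          ((Int.fract ((d : ℝ)⁻¹ * y) : ℝ) : ℂ)) (-s) := by
      unfold mellin
      refine setIntegral_congr_fun measurableSet_Ioi fun y hy => ?_
      change (y : ℂ) ^ (-s - 1) • ((EE z y : ℝ) : ℂ) = _ • _
      rw [← hfun y hy]
    rw [h2, hsum.2, GG_eq, Finset.mul_sum, ← Finset.sum_neg_distrib]
    refine Finset.sum_congr rfl fun d _ => ?_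
    ring

/-- D8: Landau's trick -/
theorem exists_large (z : PSet) (β t y₁ y₂ I₁ I₂ X : ℝ) (hβ : 0 < β) (hβ1 : β < 1)
    (hint : IntegrableOn (fun y => |EE z y| * y ^ (β - 2)) (Set.Ioi 0))
    (hy1 : 0 < y₁) (hy2 : y₁ < y₂)
    (h1 : ∫ y in Set.Ioc 0 y₁, |EE z y| * y ^ (β - 2) ≤ I₁)
    (h2 : ∫ y in Set.Ioi y₂, |EE z y| * y ^ (β - 2) ≤ I₂) (hX : 0 < X)
    (hXle : X + 2 * (I₁ + I₂) + ‖Pool.Gal99.zs ((1 - β : ℝ) : ℂ)‖ * ‖GG z ((1 - β : ℝ) : ℂ)‖ ≤
      ‖Pool.Gal99.zs ((1 - β : ℝ) + (t : ℝ) * Complex.I)‖ * ‖GG z ((1 - β : ℝ) + (t : ℝ) * Complex.I)‖) :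
    ∃ y : ℝ, y₁ < y ∧ y ≤ y₂ ∧ y * (X * β / (4 * y₂ ^ β)) ≤ EE z y := by
  by_contra hcon
  push Not at hcon
  have hy2' : 0 < y₂ := hy1.trans hy2
  set c : ℝ := X * β / (4 * y₂ ^ β) with hc
  have hcpos : 0 < c := by positivity
  set s0 : ℂ := ((1 - β : ℝ) : ℂ) with hs0
  set s1 : ℂ := (1 - β : ℝ) + (t : ℝ) * Complex.I with hs1
  have hs0re : s0.re = 1 - β := by rw [hs0]; exact Complex.ofReal_re _
  have hs1re : s1.re = 1 - β := by
    rw [hs1]
    simp
  obtain ⟨hc0, hm0⟩ := mellin_EE z s0 (by rw [hs0re]; linarith) (by rw [hs0re]; linarith)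
  obtain ⟨hc1, hm1⟩ := mellin_EE z s1 (by rw [hs1re]; linarith) (by rw [hs1re]; linarith)
  -- the integral `J`
  set J : ℝ := ∫ y in Set.Ioi (0 : ℝ), |EE z y| * y ^ (β - 2) with hJ
  -- (a) lower bound of J
  have ha : ‖Pool.Gal99.zs s1‖ * ‖GG z s1‖ ≤ J := by
    rw [← norm_mul, ← norm_neg, ← hm1]
    unfold mellin
    refine (norm_integral_le_integral_norm _).trans (le_of_eq ?_)
    apply setIntegral_congr_fun measurableSet_Ioi
    intro y hy
    have hy0 : 0 < y := hy
    simp only [norm_smul, Complex.norm_real, Real.norm_eq_abs]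
    rw [Complex.norm_cpow_eq_rpow_re_of_pos hy0, mul_comm]
    congr 2
    rw [Complex.sub_re, Complex.neg_re, hs1re, Complex.one_re]
    ring
  -- (b) the real integral
  have hb : |∫ y in Set.Ioi (0 : ℝ), EE z y * y ^ (β - 2)| ≤ ‖Pool.Gal99.zs s0‖ * ‖GG z s0‖ := by
    rw [← norm_mul, ← norm_neg (Pool.Gal99.zs s0 * GG z s0), ← hm0]
    unfold mellin
    rw [← Real.norm_eq_abs, ← Complex.norm_real, ← integral_complex_ofReal]
    apply le_of_eq
    congr 1
    apply setIntegral_congr_fun measurableSet_Ioi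
    intro y hy
    have hy0 : 0 < y := hy
    simp only [smul_eq_mul]
    rw [mul_comm, Complex.ofReal_mul, Complex.ofReal_cpow hy0.le]
    congr 2
    rw [hs0]
    push_cast
    ring
  have hmeas : AEStronglyMeasurable (fun y => EE z y * y ^ (β - 2))
      (volume.restrict (Set.Ioi (0 : ℝ))) := by
    have h3 : IntegrableOn (fun y : ℝ => ((y : ℂ) ^ (-s0 - 1)) • ((EE z y : ℝ) : ℂ)) (Set.Ioi 0) :=
      hc0
    have h4 := h3.re.aestronglyMeasurable
    refine h4.congr ?_
    filter_upwards [ae_restrict_mem measurableSet_Ioi] with y hy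
    have hy0 : 0 < y := hy
    have h5 : (-s0 - 1 : ℂ) = ((β - 2 : ℝ) : ℂ) := by
      rw [hs0]
      push_cast
      ring
    simp only [smul_eq_mul, h5]
    rw [← Complex.ofReal_cpow hy0.le, ← Complex.ofReal_mul]
    show RCLike.re (((y ^ (β - 2) * EE z y : ℝ)) : ℂ) = _
    rw [mul_comm]
    exact Complex.ofReal_re _
  have hint' : IntegrableOn (fun y => EE z y * y ^ (β - 2)) (Set.Ioi 0) := by
    refine Integrable.mono' hint hmeas ?_
    filter_upwards [ae_restrict_mem measurableSet_Ioi] with y hy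
    have hy0 : 0 < y := hy
    rw [Real.norm_eq_abs, abs_mul, abs_of_nonneg (Real.rpow_nonneg hy0.le _)]
  -- (c) the sum |E| + E
  have hsum : J + ∫ y in Set.Ioi (0 : ℝ), EE z y * y ^ (β - 2) =
      ∫ y in Set.Ioi (0 : ℝ), (|EE z y| + EE z y) * y ^ (β - 2) := by
    rw [hJ, ← integral_add hint hint']
    apply setIntegral_congr_fun measurableSet_Ioi
    intro y _
    simp only
    ring
  have hints : IntegrableOn (fun y => (|EE z y| + EE z y) * y ^ (β - 2)) (Set.Ioi 0) := by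
    refine (hint.add hint').congr (ae_of_all _ fun y => ?_)
    simp only [Pi.add_apply]
    ring
  have hle2 : ∀ y : ℝ, 0 < y → (|EE z y| + EE z y) * y ^ (β - 2) ≤ 2 * (|EE z y| * y ^ (β - 2)) := by
    intro y hy
    have := le_abs_self (EE z y)
    have h3 := Real.rpow_nonneg hy.le (β - 2)
    nlinarith
  -- splitting
  have hsplit : ∫ y in Set.Ioi (0 : ℝ), (|EE z y| + EE z y) * y ^ (β - 2) =
      (∫ y in Set.Ioc 0 y₁, (|EE z y| + EE z y) * y ^ (β - 2)) +
      ((∫ y in Set.Ioc y₁ y₂, (|EE z y| + EE z y) * y ^ (β - 2)) +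
       ∫ y in Set.Ioi y₂, (|EE z y| + EE z y) * y ^ (β - 2)) := by
    rw [← Set.Ioc_union_Ioi_eq_Ioi hy1.le, setIntegral_union (Set.Ioc_disjoint_Ioi le_rfl)
      measurableSet_Ioi (hints.mono_set Set.Ioc_subset_Ioi_self)
      (hints.mono_set (Set.Ioi_subset_Ioi hy1.le))]
    congr 1
    rw [← Set.Ioc_union_Ioi_eq_Ioi hy2.le, setIntegral_union (Set.Ioc_disjoint_Ioi le_rfl)
      measurableSet_Ioi (hints.mono_set (Set.Ioc_subset_Ioi_self.trans (Set.Ioi_subset_Ioi hy1.le)))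
      (hints.mono_set (Set.Ioi_subset_Ioi hy2'.le))]
  have hp1 : ∫ y in Set.Ioc 0 y₁, (|EE z y| + EE z y) * y ^ (β - 2) ≤ 2 * I₁ := by
    calc ∫ y in Set.Ioc 0 y₁, (|EE z y| + EE z y) * y ^ (β - 2)
        ≤ ∫ y in Set.Ioc 0 y₁, 2 * (|EE z y| * y ^ (β - 2)) := by
          apply setIntegral_mono_on (hints.mono_set Set.Ioc_subset_Ioi_self)
            ((hint.mono_set Set.Ioc_subset_Ioi_self).const_mul 2) measurableSet_Ioc
          intro y hy
          exact hle2 y hy.1
      _ = 2 * ∫ y in Set.Ioc 0 y₁, |EE z y| * y ^ (β - 2) := integral_const_mul _ _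
      _ ≤ 2 * I₁ := by linarith
  have hp3 : ∫ y in Set.Ioi y₂, (|EE z y| + EE z y) * y ^ (β - 2) ≤ 2 * I₂ := by
    calc ∫ y in Set.Ioi y₂, (|EE z y| + EE z y) * y ^ (β - 2)
        ≤ ∫ y in Set.Ioi y₂, 2 * (|EE z y| * y ^ (β - 2)) := by
          apply setIntegral_mono_on (hints.mono_set (Set.Ioi_subset_Ioi hy2'.le))
            ((hint.mono_set (Set.Ioi_subset_Ioi hy2'.le)).const_mul 2) measurableSet_Ioi
          intro y hy
          exact hle2 y (hy2'.trans hy)
      _ = 2 * ∫ y in Set.Ioi y₂, |EE z y| * y ^ (β - 2) := integral_const_mul _ _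
      _ ≤ 2 * I₂ := by linarith
  have hp2 : ∫ y in Set.Ioc y₁ y₂, (|EE z y| + EE z y) * y ^ (β - 2) ≤ X / 2 := by
    have hintp : IntegrableOn (fun y : ℝ => 2 * c * y ^ (β - 1)) (Set.Ioc y₁ y₂) := by
      have h3 : IntervalIntegrable (fun y : ℝ => y ^ (β - 1)) volume y₁ y₂ :=
        intervalIntegral.intervalIntegrable_rpow' (by linarith)
      exact ((intervalIntegrable_iff_integrableOn_Ioc_of_le hy2.le).1 h3).const_mul (2 * c)
    calc ∫ y in Set.Ioc y₁ y₂, (|EE z y| + EE z y) * y ^ (β - 2)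
        ≤ ∫ y in Set.Ioc y₁ y₂, 2 * c * y ^ (β - 1) := by
          apply setIntegral_mono_on
            (hints.mono_set (Set.Ioc_subset_Ioi_self.trans (Set.Ioi_subset_Ioi hy1.le)))
            hintp measurableSet_Ioc
          intro y hy
          have hy0 : 0 < y := hy1.trans hy.1
          have h3 := hcon y hy.1 hy.2
          have h4 : |EE z y| + EE z y ≤ 2 * c * y := by
            rcases le_or_gt 0 (EE z y) with h5 | h5
            · rw [abs_of_nonneg h5]
              linarith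
            · rw [abs_of_neg h5]
              have : 0 < 2 * c * y := by positivity
              linarith
          calc (|EE z y| + EE z y) * y ^ (β - 2) ≤ 2 * c * y * y ^ (β - 2) :=
                mul_le_mul_of_nonneg_right h4 (Real.rpow_nonneg hy0.le _)
            _ = 2 * c * y ^ (β - 1) := by
                rw [mul_assoc, show (β - 1 : ℝ) = 1 + (β - 2) by ring, Real.rpow_add hy0,
                  Real.rpow_one]
      _ = 2 * c * ∫ y in Set.Ioc y₁ y₂, y ^ (β - 1) := integral_const_mul _ _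
      _ = 2 * c * ((y₂ ^ β - y₁ ^ β) / β) := by
          rw [← intervalIntegral.integral_of_le hy2.le, integral_rpow (Or.inl (by linarith))]
          simp only [sub_add_cancel]
      _ ≤ 2 * c * (y₂ ^ β / β) := by
          apply mul_le_mul_of_nonneg_left _ (by positivity)
          apply div_le_div_of_nonneg_right _ hβ.le
          have := Real.rpow_nonneg hy1.le β
          linarith
      _ = X / 2 := by
          rw [hc]
          have : y₂ ^ β ≠ 0 := (Real.rpow_pos_of_pos hy2' β).ne'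
          field_simp
          ring
  have habs := abs_le.1 hb
  linarith [habs.1, habs.2, ha, hsum, hsplit, hp1, hp2, hp3, hXle]

/-- D9: an excess in a long interval gives an excess in some window of length `h` -/
theorem window_of_EE (z : PSet) (h : ℕ) (hh : 0 < h) (y η : ℝ) (hy : 0 < y) (hη : 0 < η)
    (hE : η * y ≤ EE z y) (hhy : (h : ℝ) ≤ η * y / 2) : ∃ m : ℕ, η / 2 ≤ er z m h := by
  by_contra hcon
  push Not at hcon
  have hV := V_pos z
  have hV1 := V_le_one z
  have hh' : (0 : ℝ) < h := by exact_mod_cast hh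
  have hR : ∀ m : ℕ, (R z m h : ℝ) ≤ h * V z * (1 + η / 2) := by
    intro m
    have h1 := hcon m
    unfold er at h1
    have h2 : (R z m h : ℝ) / (h * V z) < 1 + η / 2 := by linarith
    rw [div_lt_iff₀ (by positivity)] at h2
    linarith
  have hsplit : ∀ a b : ℕ, (R z 0 (a + b) : ℝ) = R z 0 a + R z a b := by
    intro a b
    have h1 : Finset.Ioc 0 (0 + (a + b)) = Finset.Ioc 0 (0 + a) ∪ Finset.Ioc a (a + b) := by
      rw [zero_add, zero_add, Finset.Ioc_union_Ioc_eq_Ioc (by omega) (by omega)]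
    have h2 : Disjoint ((Finset.Ioc 0 (0 + a)).filter (fun n => n.Coprime (Pz z)))
        ((Finset.Ioc a (a + b)).filter (fun n => n.Coprime (Pz z))) := by
      apply Finset.disjoint_filter_filter
      rw [Finset.disjoint_left]
      intro x hx hx'
      simp only [Finset.mem_Ioc] at hx hx'
      omega
    unfold R
    rw [h1, Finset.filter_union, Finset.card_union_of_disjoint h2]
    push_cast
    ring
  have hK : ∀ K : ℕ, (R z 0 (K * h) : ℝ) ≤ K * (h * V z * (1 + η / 2)) := by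
    intro K
    induction K with
    | zero =>
      simp [R]
    | succ K ih =>
      rw [add_mul, one_mul, hsplit]
      push_cast
      have := hR (K * h)
      linarith
  have htriv : ∀ a b : ℕ, (R z a b : ℝ) ≤ b := by
    intro a b
    have h1 : R z a b ≤ b := by
      unfold R
      refine (Finset.card_filter_le _ _).trans ?_
      rw [Nat.card_Ioc]
      omega
    exact_mod_cast h1
  set N := ⌊y⌋₊ with hN
  have hNy : (N : ℝ) ≤ y := Nat.floor_le hy.le
  have hdiv : N / h * h + N % h = N := by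
    rw [mul_comm]
    exact Nat.div_add_mod N h
  have h1 : (R z 0 N : ℝ) = R z 0 (N / h * h) + R z (N / h * h) (N % h) := by
    rw [← hsplit, hdiv]
  have h2 := hK (N / h)
  have h3 := htriv (N / h * h) (N % h)
  have h4 : ((N % h : ℕ) : ℝ) < h := by exact_mod_cast Nat.mod_lt N hh
  have h5 : ((N / h : ℕ) : ℝ) * h ≤ y := by
    have : ((N / h * h : ℕ) : ℝ) ≤ N := by exact_mod_cast Nat.div_mul_le_self N h
    push_cast at this
    linarith
  unfold EE at hE
  rw [← hN] at hE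
  have h6 : ((N / h : ℕ) : ℝ) * (h * V z * (1 + η / 2)) ≤ y * (V z * (1 + η / 2)) := by
    have := mul_le_mul_of_nonneg_right h5 (show 0 ≤ V z * (1 + η / 2) by positivity)
    calc ((N / h : ℕ) : ℝ) * (h * V z * (1 + η / 2)) =
        ((N / h : ℕ) : ℝ) * h * (V z * (1 + η / 2)) := by ring
      _ ≤ _ := this
  have h7 : y * (V z * (η / 2)) ≤ y * (η / 2) := by
    apply mul_le_mul_of_nonneg_left _ hy.le
    have := mul_le_mul_of_nonneg_right hV1 (show 0 ≤ η / 2 by positivity)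
    linarith
  have h8 : y * (V z * (1 + η / 2)) = y * V z + y * (V z * (η / 2)) := by ring
  linarith

end Pool.Agent.LibG2.PS
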