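import Pool.Agent.LibG2.Mert

/-!
The matrix of windows `(t q + m₀, t q + m₀ + h]`: weighted count of primes from below.
-/

namespace Pool.Agent.LibG2

open Filter Topology MeasureTheory
open Pool.Agent.LibMaier
open scoped ArithmeticFunction.vonMangoldt

/-- comparison of the weight of a row with the weight of an integer in its window -/
lemma le_Wt {q t : ℕ} (hq : 1 ≤ q) (ht : 1 ≤ t) {x V y : ℝ} {a : ℕ}
    (hay : (a : ℝ) ≤ y) (hyt : y ≤ t)
    (h1 : x - V ≤ Real.log (t * q)) (h2 : Real.log ((t + 1 : ℕ) * q) ≤ x + V) :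
    q * (gw (Real.log ((t * q + a : ℕ) : ℝ) - x) / ((t * q + a : ℕ) : ℝ)) ≤
      Real.exp (((1 + y) * (V + 1) + 1) / t) * Wt q x t := by
  have hq' : (1 : ℝ) ≤ q := by exact_mod_cast hq
  have ht' : (1 : ℝ) ≤ t := by exact_mod_cast ht
  have ha0 : (0 : ℝ) ≤ a := Nat.cast_nonneg a
  have hy0 : 0 ≤ y := ha0.trans hay
  have htq : (0 : ℝ) < t * q := by positivity
  have hmono := log_row_mono hq ht
  have hsub := log_row_sub_le hq ht
  set n : ℝ := ((t * q + a : ℕ) : ℝ) with hn
  have hn' : n = t * q + a := by rw [hn]; push_cast; ring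
  have hn0 : 0 < n := by rw [hn']; positivity
  set v' : ℝ := Real.log n - x with hv'
  have hlog1 : Real.log (t * q) ≤ Real.log n := Real.log_le_log htq (by rw [hn']; linarith)
  have hlog2 : Real.log n ≤ Real.log (t * q) + y / t := by
    have e : n = (t * q) * (1 + a / (t * q)) := by rw [hn']; field_simp
    rw [e, Real.log_mul htq.ne' (by positivity)]
    have h3 : Real.log (1 + a / (t * q)) ≤ 1 + a / (t * q) - 1 :=
      Real.log_le_sub_one_of_pos (by positivity)
    have h4 : (a : ℝ) / (t * q) ≤ y / t := by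
      apply div_le_div₀ hy0 hay (by positivity)
      nlinarith
    linarith
  have hyt1 : y / t ≤ 1 := by rw [div_le_one (by linarith)]; exact hyt
  have hpt : ∀ v ∈ Set.Icc (Real.log (t * q) - x) (Real.log ((t + 1 : ℕ) * q) - x),
      Real.exp (-((1 + y) * (V + 1) / t)) * gw v' ≤ gw v := by
    intro v hv
    rw [Set.mem_Icc] at hv
    obtain ⟨hv1, hv2⟩ := hv
    have hvV : |v| ≤ V + 1 := by rw [abs_le]; constructor <;> linarith
    have hv'V : |v'| ≤ V + 1 := by rw [abs_le, hv']; constructor <;> linarith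
    have hd : |v' - v| ≤ (1 + y) / t := by
      rw [add_div, abs_le, hv']
      have : 0 ≤ y / t := by positivity
      have : 0 ≤ 1 / (t : ℝ) := by positivity
      constructor <;> linarith
    have hkey : (v ^ 2 - v' ^ 2) / 2 ≤ (1 + y) * (V + 1) / t := by
      have h5 : (v ^ 2 - v' ^ 2) / 2 = -((v' - v) * ((v' + v) / 2)) := by ring
      rw [h5]
      have h6 : |(v' + v) / 2| ≤ V + 1 := by
        rw [abs_div, abs_of_pos (show (0 : ℝ) < 2 by norm_num), div_le_iff₀ (by norm_num)]
        have := abs_add_le v' v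
        linarith
      calc -((v' - v) * ((v' + v) / 2)) ≤ |(v' - v) * ((v' + v) / 2)| := neg_le_abs _
        _ = |v' - v| * |(v' + v) / 2| := abs_mul _ _
        _ ≤ ((1 + y) / t) * (V + 1) := by gcongr
        _ = (1 + y) * (V + 1) / t := by ring
    unfold gw
    rw [← mul_div_assoc]
    apply div_le_div_of_nonneg_right _ (Real.sqrt_nonneg _)
    rw [← Real.exp_add]
    apply Real.exp_le_exp.2
    linarith
  have hW : (1 / (t + 1)) * (Real.exp (-((1 + y) * (V + 1) / t)) * gw v') ≤ Wt q x t := by
    unfold Wt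
    calc (1 / ((t : ℝ) + 1)) * (Real.exp (-((1 + y) * (V + 1) / t)) * gw v')
        ≤ (Real.log ((t + 1 : ℕ) * q) - Real.log (t * q)) *
            (Real.exp (-((1 + y) * (V + 1) / t)) * gw v') := by
          apply mul_le_mul_of_nonneg_right _
            (mul_nonneg (Real.exp_pos _).le (gw_nonneg _))
          push_cast
          have h5 : Real.log (((t : ℝ) + 1) * q) - Real.log (t * q) = Real.log (((t : ℝ) + 1) / t) := by
            rw [← Real.log_div (by positivity) (by positivity)]
            congr 1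
            field_simp
          rw [h5]
          have h6 := Real.one_sub_inv_le_log_of_pos (show 0 < ((t : ℝ) + 1) / t by positivity)
          refine le_trans (le_of_eq ?_) h6
          field_simp
          ring
      _ = ∫ v in (Real.log (t * q) - x)..(Real.log ((t + 1 : ℕ) * q) - x),
            (Real.exp (-((1 + y) * (V + 1) / t)) * gw v') := by
          rw [intervalIntegral.integral_const, smul_eq_mul]
          ring
      _ ≤ ∫ v in (Real.log (t * q) - x)..(Real.log ((t + 1 : ℕ) * q) - x), gw v := by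
          apply intervalIntegral.integral_mono_on (by linarith)
            (continuous_const.intervalIntegrable _ _) (continuous_gw.intervalIntegrable _ _)
          exact hpt
  -- `q / n ≤ e^{1/t} / (t + 1)`
  have h7 : (q : ℝ) / n ≤ Real.exp (1 / t) * (1 / (t + 1)) := by
    have h8 : (q : ℝ) / n ≤ 1 / t := by
      rw [div_le_div_iff₀ hn0 (by linarith), hn']
      nlinarith
    have h9 : 1 / (t : ℝ) = (1 + 1 / t) * (1 / (t + 1)) := by
      field_simp
    have h10 := Real.add_one_le_exp (1 / (t : ℝ))
    calc (q : ℝ) / n ≤ 1 / t := h8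
      _ = (1 + 1 / t) * (1 / (t + 1)) := h9
      _ ≤ Real.exp (1 / t) * (1 / (t + 1)) := by
          apply mul_le_mul_of_nonneg_right _ (by positivity)
          linarith
  have hg0 := gw_nonneg v'
  set A : ℝ := (1 + y) * (V + 1) / t with hA
  calc q * (gw v' / n) = (q / n) * gw v' := by ring
    _ ≤ (Real.exp (1 / t) * (1 / (t + 1))) * gw v' := mul_le_mul_of_nonneg_right h7 hg0
    _ = Real.exp (A + 1 / t) * ((1 / (t + 1)) * (Real.exp (-A) * gw v')) := by
        have h11 : Real.exp (A + 1 / t) * Real.exp (-A) = Real.exp (1 / t) := by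
          rw [← Real.exp_add]
          congr 1
          ring
        calc (Real.exp (1 / t) * (1 / (t + 1))) * gw v' =
            (Real.exp (A + 1 / t) * Real.exp (-A)) * ((1 / (t + 1)) * gw v') := by rw [h11]; ring
          _ = _ := by ring
    _ ≤ Real.exp (A + 1 / t) * Wt q x t :=
        mul_le_mul_of_nonneg_left hW (Real.exp_pos _).le
    _ = Real.exp (((1 + y) * (V + 1) + 1) / t) * Wt q x t := by
        rw [hA]
        congr 2
        ring

/-- the number of primes in the window `(n, n + h]` -/
def pw (n h : ℕ) : ℕ := ((Finset.Ioc n (n + h)).filter Nat.Prime).card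

/-- the residues in the window `(m, m + h]` coprime to `q` -/
def RQs (q m h : ℕ) : Finset ℕ := (Finset.Ioc m (m + h)).filter (fun a => a.Coprime q)

lemma pw_ge {q t m h : ℕ} :
    ∑ a ∈ RQs q m h, (if (t * q + a).Prime then 1 else 0) ≤ pw (t * q + m) h := by
  classical
  rw [← Finset.card_filter]
  unfold pw
  apply Finset.card_le_card_of_injOn (fun a => t * q + a)
  · intro a ha
    simp only [Finset.coe_filter, RQs, Finset.mem_filter, Finset.mem_Ioc, Set.mem_ofPred_eq] at ha ⊢
    exact ⟨⟨by omega, by omega⟩, ha.2⟩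
  · intro a _ a' _ h
    simp only at h
    omega

/-- **Weighted count of the primes in the matrix, from below.** -/
theorem matrix_ge {q k1 k2 m h : ℕ} (hq : 1 ≤ q) (hk1 : 1 ≤ k1) {x V y M : ℝ} (hV : 0 ≤ V)
    (hx : 0 < x) (hy : ((m + h : ℕ) : ℝ) ≤ y) (hyk : y ≤ k1)
    (hrow1 : x - (V + 1) ≤ Real.log (k1 * q)) (hrow2 : Real.log (k2 * q) ≤ x + (V + 1))
    (hlow : ((k1 * q : ℕ) : ℝ) + y ≤ Real.exp (x - V)) (hupp : Real.exp (x + V) < (k2 * q : ℕ))
    (hM : ∀ a : ZMod q, IsUnit a → M ≤ ∑ p ∈ (PR x V).filter (fun p : ℕ => (p : ZMod q) = a),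
      wn x p) :
    Real.exp (-(((1 + y) * (V + 2) + 1) / k1)) * (q / (x + V)) * ((RQs q m h).card * M) ≤
      ∑ t ∈ Finset.Ico k1 k2, Wt q x t * (pw (t * q + m) h : ℝ) := by
  classical
  have hq' : (1 : ℝ) ≤ q := by exact_mod_cast hq
  have hk1' : (1 : ℝ) ≤ k1 := by exact_mod_cast hk1
  have hxV0 : 0 < x + V := by linarith
  have hy0 : 0 ≤ y := le_trans (Nat.cast_nonneg _) hy
  set E : ℝ := Real.exp (-(((1 + y) * (V + 2) + 1) / k1)) with hE
  have hE0 : 0 < E := Real.exp_pos _
  have hentry : ∀ t ∈ Finset.Ico k1 k2, ∀ a ∈ RQs q m h, t * q + a ∈ PR x V →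
      E * (q / (x + V)) * wn x (t * q + a) ≤
        Wt q x t * (if (t * q + a).Prime then 1 else 0) := by
    intro t ht a ha hPR
    rw [Finset.mem_Ico] at ht
    rw [RQs, Finset.mem_filter, Finset.mem_Ioc] at ha
    rw [mem_PR] at hPR
    obtain ⟨hp, _, hp2⟩ := hPR
    rw [if_pos hp, mul_one]
    have htR : (k1 : ℝ) ≤ t := by exact_mod_cast ht.1
    have ht2R : ((t + 1 : ℕ) : ℝ) ≤ k2 := by exact_mod_cast ht.2
    have htpos : (0 : ℝ) < t := by linarith
    have hay : (a : ℝ) ≤ y := le_trans (by exact_mod_cast ha.1.2) hy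
    have h1 : x - (V + 1) ≤ Real.log (t * q) := hrow1.trans (Real.log_le_log (by positivity) (by
      gcongr))
    have h2 : Real.log ((t + 1 : ℕ) * q) ≤ x + (V + 1) := le_trans (Real.log_le_log (by positivity)
      (by gcongr)) hrow2
    have h3 := le_Wt (q := q) (t := t) hq (by omega) (x := x) (V := V + 1) hay (hyk.trans htR) h1 h2
    set n := t * q + a with hn
    have hg : 0 ≤ gw (Real.log (n : ℝ) - x) / (n : ℝ) := div_nonneg (gw_nonneg _) (Nat.cast_nonneg _)
    have hW0 := Wt_nonneg (q := q) (k := t) hq (by omega) x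
    have h4 : wn x n ≤ (x + V) * (gw (Real.log (n : ℝ) - x) / (n : ℝ)) := by
      unfold wn
      rw [ArithmeticFunction.vonMangoldt_apply_prime hp]
      exact mul_le_mul_of_nonneg_right hp2 hg
    have h5 : E * Real.exp (((1 + y) * (V + 1 + 1) + 1) / t) ≤ 1 := by
      rw [hE, ← Real.exp_add, Real.exp_le_one_iff]
      have h6 : ((1 + y) * (V + 2) + 1) / t ≤ ((1 + y) * (V + 2) + 1) / k1 :=
        div_le_div_of_nonneg_left (by positivity) (by linarith) htR
      have h7 : (1 + y) * (V + 1 + 1) + 1 = (1 + y) * (V + 2) + 1 := by ring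
      rw [h7]
      linarith
    calc E * (q / (x + V)) * wn x n
        ≤ E * (q / (x + V)) * ((x + V) * (gw (Real.log (n : ℝ) - x) / (n : ℝ))) := by
          apply mul_le_mul_of_nonneg_left h4 (by positivity)
      _ = E * (q * (gw (Real.log (n : ℝ) - x) / (n : ℝ))) := by
          field_simp
      _ ≤ E * (Real.exp (((1 + y) * (V + 1 + 1) + 1) / t) * Wt q x t) :=
          mul_le_mul_of_nonneg_left h3 hE0.le
      _ = (E * Real.exp (((1 + y) * (V + 1 + 1) + 1) / t)) * Wt q x t := by ring
      _ ≤ 1 * Wt q x t := mul_le_mul_of_nonneg_right h5 hW0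
      _ = Wt q x t := one_mul _
  -- column by column
  have hcol : ∀ a ∈ RQs q m h, E * (q / (x + V)) * M ≤
      ∑ t ∈ Finset.Ico k1 k2, Wt q x t * (if (t * q + a).Prime then 1 else 0) := by
    intro a ha
    have ha' := ha
    rw [RQs, Finset.mem_filter, Finset.mem_Ioc] at ha'
    have hay : (a : ℝ) ≤ y := le_trans (by exact_mod_cast ha'.1.2) hy
    have hunit : IsUnit (a : ZMod q) := (ZMod.isUnit_iff_coprime a q).2 ha'.2
    have h1 := hM (a : ZMod q) hunit
    -- every prime of the class is `t q + a`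
    have himg : (PR x V).filter (fun p : ℕ => (p : ZMod q) = a) ⊆
        ((Finset.Ico k1 k2).filter (fun t => t * q + a ∈ PR x V)).image (fun t => t * q + a) := by
      intro p hp
      rw [Finset.mem_filter] at hp
      obtain ⟨hp1, hp2⟩ := hp
      have hp1' := hp1
      rw [mem_PR] at hp1'
      obtain ⟨hpp, hpl, hpu⟩ := hp1'
      have hp0 : (0 : ℝ) < p := by exact_mod_cast hpp.pos
      have hpl' : Real.exp (x - V) ≤ p := by
        rw [← Real.exp_log hp0]
        exact Real.exp_le_exp.2 hpl
      have hpu' : (p : ℝ) ≤ Real.exp (x + V) := by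
        rw [← Real.exp_log hp0]
        exact Real.exp_le_exp.2 hpu
      have hle : k1 * q + a ≤ p := by
        have : ((k1 * q + a : ℕ) : ℝ) ≤ p := by
          push_cast
          push_cast at hlow
          linarith
        exact_mod_cast this
      have hlt : p < k2 * q := by
        have : (p : ℝ) < (k2 * q : ℕ) := lt_of_le_of_lt hpu' hupp
        exact_mod_cast this
      have hmod : a ≡ p [MOD q] := by
        rw [← ZMod.natCast_eq_natCast_iff]
        exact hp2.symm
      have hdvd : q ∣ p - a := (Nat.modEq_iff_dvd' (by omega)).1 hmod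
      obtain ⟨t, ht⟩ := hdvd
      have hpt : t * q + a = p := by
        rw [mul_comm t q, ← ht]
        omega
      rw [Finset.mem_image]
      refine ⟨t, ?_, hpt⟩
      rw [Finset.mem_filter, Finset.mem_Ico]
      refine ⟨⟨?_, ?_⟩, by rw [hpt]; exact hp1⟩
      · by_contra hcon
        push Not at hcon
        have : t * q < k1 * q := Nat.mul_lt_mul_of_pos_right hcon (by omega)
        omega
      · by_contra hcon
        push Not at hcon
        have : k2 * q ≤ t * q := Nat.mul_le_mul_right q hcon
        omega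
    have hinj : Set.InjOn (fun t : ℕ => t * q + a)
        ((Finset.Ico k1 k2).filter (fun t => t * q + a ∈ PR x V) : Finset ℕ) := by
      intro t _ t' _ h
      simp only [add_left_inj] at h
      exact Nat.eq_of_mul_eq_mul_right hq h
    calc E * (q / (x + V)) * M
        ≤ E * (q / (x + V)) * ∑ p ∈ (PR x V).filter (fun p : ℕ => (p : ZMod q) = a), wn x p :=
          mul_le_mul_of_nonneg_left h1 (by positivity)
      _ ≤ E * (q / (x + V)) * ∑ p ∈ ((Finset.Ico k1 k2).filter
            (fun t => t * q + a ∈ PR x V)).image (fun t => t * q + a), wn x p := by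
          apply mul_le_mul_of_nonneg_left _ (by positivity)
          exact Finset.sum_le_sum_of_subset_of_nonneg himg (fun n _ _ => wn_nonneg x n)
      _ = ∑ t ∈ (Finset.Ico k1 k2).filter (fun t => t * q + a ∈ PR x V),
            E * (q / (x + V)) * wn x (t * q + a) := by
          rw [Finset.sum_image hinj, Finset.mul_sum]
      _ ≤ ∑ t ∈ (Finset.Ico k1 k2).filter (fun t => t * q + a ∈ PR x V),
            Wt q x t * (if (t * q + a).Prime then 1 else 0) := by
          apply Finset.sum_le_sum
          intro t ht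
          rw [Finset.mem_filter] at ht
          exact hentry t ht.1 a ha ht.2
      _ ≤ ∑ t ∈ Finset.Ico k1 k2, Wt q x t * (if (t * q + a).Prime then 1 else 0) := by
          apply Finset.sum_le_sum_of_subset_of_nonneg (Finset.filter_subset _ _)
          intro t ht _
          rw [Finset.mem_Ico] at ht
          apply mul_nonneg (Wt_nonneg hq (by omega) x)
          split_ifs <;> norm_num
  calc E * (q / (x + V)) * ((RQs q m h).card * M)
      = ∑ a ∈ RQs q m h, E * (q / (x + V)) * M := by
        rw [Finset.sum_const, nsmul_eq_mul]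
        ring
    _ ≤ ∑ a ∈ RQs q m h, ∑ t ∈ Finset.Ico k1 k2,
          Wt q x t * (if (t * q + a).Prime then 1 else 0) := Finset.sum_le_sum hcol
    _ = ∑ t ∈ Finset.Ico k1 k2, ∑ a ∈ RQs q m h,
          Wt q x t * (if (t * q + a).Prime then 1 else 0) := Finset.sum_comm
    _ ≤ ∑ t ∈ Finset.Ico k1 k2, Wt q x t * (pw (t * q + m) h : ℝ) := by
        apply Finset.sum_le_sum
        intro t ht
        rw [Finset.mem_Ico] at ht
        rw [← Finset.mul_sum]
        apply mul_le_mul_of_nonneg_left _ (Wt_nonneg hq (by omega) x)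
        have := pw_ge (q := q) (t := t) (m := m) (h := h)
        exact_mod_cast this

end Pool.Agent.LibG2
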