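import Pool.Agent.LibG2.Good
import Pool.Agent.LibMaier.SmallBound

/-!
The sum over all non-principal characters modulo `P(z) / p`.
-/

namespace Pool.Agent.LibG2

open Filter Topology Complex DirichletCharacter MeasureTheory
open Pool.Agent.LibMaier

/-- each character, in terms of `α = κ / L` -/
lemma sum_SS_q {q : ℕ} [NeZero q] {L T : ℝ} (hL1 : 4 * kk ≤ L) (hT : 2 ≤ T) (hLL : LL q T ≤ L)
    (hgood : ∀ χ : DirichletCharacter ℂ q, χ ≠ 1 → ∀ ρ : ℂ, LFunction χ ρ = 0 →
      |ρ.im| ≤ T → ρ.re ≤ 1 - kk / L) {x : ℝ} (hx1 : 1 ≤ x) :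
    ∑ χ ∈ (Finset.univ : Finset (DirichletCharacter ℂ q)).erase 1, ‖SS χ x‖ ≤
      q * ((T * Real.exp (-(kk / L * x / 4)) + 6 * Real.exp (-(T - 2) ^ 2 / 2)) *
        (20 * (L + 3) / (kk / L) ^ 2) + 6 * LS (1 / x) * Real.exp (-(T - 2) ^ 2 / 4)) := by
  have hkk : 0 < kk := by unfold kk; norm_num
  have hL0 : 0 < L := by linarith
  have hα0 : 0 < kk / L := by positivity
  have hα : kk / L ≤ 1 / 4 := by
    rw [div_le_iff₀ hL0]
    linarith
  have hLS := LS_nonneg (1 / x)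
  set B : ℝ := (T * Real.exp (-(kk / L * x / 4)) + 6 * Real.exp (-(T - 2) ^ 2 / 2)) *
        (20 * (L + 3) / (kk / L) ^ 2) + 6 * LS (1 / x) * Real.exp (-(T - 2) ^ 2 / 4) with hB
  have hB0 : 0 ≤ B := by
    rw [hB]
    have : 0 ≤ T := by linarith
    positivity
  have hone : ∀ χ ∈ (Finset.univ : Finset (DirichletCharacter ℂ q)).erase 1, ‖SS χ x‖ ≤ B := by
    intro χ hχ
    have hχ1 : χ ≠ 1 := (Finset.mem_erase.1 hχ).1
    refine (norm_SS_le hχ1 hα0 hα (hgood χ hχ1) hT hx1).trans ?_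
    rw [hB]
    have h1 : 20 * (LL q T + 3) / (kk / L) ^ 2 ≤ 20 * (L + 3) / (kk / L) ^ 2 := by
      apply div_le_div_of_nonneg_right _ (by positivity)
      linarith
    have h2 : 0 ≤ T * Real.exp (-(kk / L * x / 4)) + 6 * Real.exp (-(T - 2) ^ 2 / 2) := by
      have : 0 ≤ T := by linarith
      positivity
    have := mul_le_mul_of_nonneg_left h1 h2
    linarith
  calc ∑ χ ∈ (Finset.univ : Finset (DirichletCharacter ℂ q)).erase 1, ‖SS χ x‖
      ≤ ∑ χ ∈ (Finset.univ : Finset (DirichletCharacter ℂ q)).erase 1, B :=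
        Finset.sum_le_sum hone
    _ = (((Finset.univ : Finset (DirichletCharacter ℂ q)).erase 1).card : ℝ) * B := by
        rw [Finset.sum_const, nsmul_eq_mul]
    _ ≤ q * B := by
        apply mul_le_mul_of_nonneg_right _ hB0
        exact_mod_cast card_chars_le q _

/-- the bound of the previous lemma is tiny -/
lemma numeric_small : ∃ U₀ : ℝ, 2 ≤ U₀ ∧ ∀ U : ℝ, U₀ ≤ U → ∀ L q x : ℝ, 4 * kk ≤ L → L ≤ 2 * U →
    0 ≤ q → q ≤ (4 : ℝ) ^ U → U ^ 3 ≤ x → x ≤ Real.exp U →
    q * ((U * Real.exp (-(kk / L * x / 4)) + 6 * Real.exp (-(U - 2) ^ 2 / 2)) *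
        (20 * (L + 3) / (kk / L) ^ 2) + 6 * LS (1 / x) * Real.exp (-(U - 2) ^ 2 / 4)) ≤
      Real.exp (-U) := by
  have hkk : 0 < kk := by unfold kk; norm_num
  set C : ℝ := 400 / kk ^ 2 + 2400 / kk ^ 2 + 5190 with hC
  have hC0 : 0 < C := by rw [hC]; positivity
  have hlim : Tendsto (fun U : ℝ => C * (U ^ 4 * Real.exp (-U))) atTop (𝓝 (C * 0)) :=
    (Real.tendsto_pow_mul_exp_neg_atTop_nhds_zero 4).const_mul C
  rw [mul_zero] at hlim
  obtain ⟨U₁, hU₁⟩ := eventually_atTop.1 (hlim.eventually_lt_const (show (0 : ℝ) < 1 by norm_num))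
  refine ⟨max (max U₁ 100) (32 / kk), (by norm_num : (2 : ℝ) ≤ 100).trans
    ((le_max_right _ _).trans (le_max_left _ _)), ?_⟩
  intro U hU L q x hL1 hL2 hq0 hq hx1 hx2
  have hU1 : U₁ ≤ U := (le_max_left _ _).trans ((le_max_left _ _).trans hU)
  have hU2 : 100 ≤ U := (le_max_right _ _).trans ((le_max_left _ _).trans hU)
  have hU3 : 32 / kk ≤ U := (le_max_right _ _).trans hU
  have hU3' : 32 ≤ kk * U := by
    rw [div_le_iff₀ hkk] at hU3
    linarith
  have h1 := hU₁ U hU1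
  have hL0 : 0 < L := by linarith
  have hU0 : 0 < U := by linarith
  have hx0 : 1 ≤ x := by nlinarith [pow_pos hU0 2, pow_pos hU0 3]
  -- the factor 20(L+3)/α²
  have hα : 20 * (L + 3) / (kk / L) ^ 2 ≤ 400 / kk ^ 2 * U ^ 3 := by
    have e : 20 * (L + 3) / (kk / L) ^ 2 = 20 * ((L + 3) * L ^ 2) / kk ^ 2 := by
      field_simp
    rw [e, div_mul_eq_mul_div]
    apply div_le_div_of_nonneg_right _ (by positivity)
    have h2 : (L + 3) * L ^ 2 ≤ (3 * U) * (2 * U) ^ 2 :=
      mul_le_mul (by linarith) (pow_le_pow_left₀ hL0.le hL2 2) (by positivity) (by positivity)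
    nlinarith [pow_pos hU0 3]
  have hα0 : 0 ≤ 20 * (L + 3) / (kk / L) ^ 2 := by positivity
  have hLS0 := LS_nonneg (1 / x)
  have hLS : LS (1 / x) ≤ 865 * x ^ 2 := LS_inv_le hx0
  -- exponentials
  have e1 : Real.exp (-(kk / L * x / 4)) ≤ Real.exp (-(4 * U)) := by
    apply Real.exp_le_exp.2
    have h3 : kk / L * x / 4 = kk * x / (4 * L) := by field_simp
    rw [h3, neg_le_neg_iff, le_div_iff₀ (by positivity)]
    have h4 : 4 * U * (4 * L) ≤ 32 * U ^ 2 := by nlinarith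
    have h5 : 32 * U ^ 2 ≤ kk * U * U ^ 2 := by
      have := pow_pos hU0 2
      nlinarith
    have h6 : kk * U * U ^ 2 ≤ kk * x := by
      have := mul_le_mul_of_nonneg_left hx1 hkk.le
      nlinarith
    linarith
  have e2 : Real.exp (-(U - 2) ^ 2 / 2) ≤ Real.exp (-(4 * U)) := by
    apply Real.exp_le_exp.2
    nlinarith
  have e3 : x ^ 2 * Real.exp (-(U - 2) ^ 2 / 4) ≤ Real.exp (-(4 * U)) := by
    have h3 : x ^ 2 ≤ Real.exp (2 * U) := by
      calc x ^ 2 ≤ (Real.exp U) ^ 2 := pow_le_pow_left₀ (by linarith) hx2 2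
        _ = Real.exp (2 * U) := by rw [← Real.exp_nat_mul]; norm_num
    calc x ^ 2 * Real.exp (-(U - 2) ^ 2 / 4) ≤ Real.exp (2 * U) * Real.exp (-(U - 2) ^ 2 / 4) := by
          gcongr
      _ = Real.exp (2 * U + -(U - 2) ^ 2 / 4) := (Real.exp_add _ _).symm
      _ ≤ Real.exp (-(4 * U)) := by
          apply Real.exp_le_exp.2
          nlinarith
  have hE0 := Real.exp_pos (-(4 * U))
  have hq2 : q ≤ Real.exp (2 * U) := by
    refine hq.trans ?_
    rw [Real.rpow_def_of_pos (by norm_num)]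
    apply Real.exp_le_exp.2
    have h4 : Real.log 4 ≤ 2 := by
      have : (4 : ℝ) = 2 ^ 2 := by norm_num
      rw [this, Real.log_pow]
      have := Real.log_two_lt_d9
      norm_num at this ⊢
      linarith
    nlinarith
  -- main
  have hmain : (U * Real.exp (-(kk / L * x / 4)) + 6 * Real.exp (-(U - 2) ^ 2 / 2)) *
        (20 * (L + 3) / (kk / L) ^ 2) + 6 * LS (1 / x) * Real.exp (-(U - 2) ^ 2 / 4) ≤
      C * U ^ 4 * Real.exp (-(4 * U)) := by
    have a1 : (U * Real.exp (-(kk / L * x / 4)) + 6 * Real.exp (-(U - 2) ^ 2 / 2)) *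
        (20 * (L + 3) / (kk / L) ^ 2) ≤
        (U * Real.exp (-(4 * U)) + 6 * Real.exp (-(4 * U))) * (400 / kk ^ 2 * U ^ 3) := by
      gcongr
    have a2 : 6 * LS (1 / x) * Real.exp (-(U - 2) ^ 2 / 4) ≤ 5190 * Real.exp (-(4 * U)) := by
      have h7 := Real.exp_pos (-(U - 2) ^ 2 / 4)
      calc 6 * LS (1 / x) * Real.exp (-(U - 2) ^ 2 / 4)
          ≤ 6 * (865 * x ^ 2) * Real.exp (-(U - 2) ^ 2 / 4) := by gcongr
        _ = 5190 * (x ^ 2 * Real.exp (-(U - 2) ^ 2 / 4)) := by ring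
        _ ≤ 5190 * Real.exp (-(4 * U)) := by gcongr
    have a3 : (U * Real.exp (-(4 * U)) + 6 * Real.exp (-(4 * U))) * (400 / kk ^ 2 * U ^ 3) +
        5190 * Real.exp (-(4 * U)) ≤ C * U ^ 4 * Real.exp (-(4 * U)) := by
      have h8 : (1 : ℝ) ≤ U := by linarith
      have h9 : U ^ 3 ≤ U ^ 4 := by
        have := pow_pos hU0 3
        nlinarith
      have h10 : (1 : ℝ) ≤ U ^ 4 := one_le_pow₀ h8
      have h11 : 0 ≤ 2400 / kk ^ 2 := by positivity
      have e4 : (U * Real.exp (-(4 * U)) + 6 * Real.exp (-(4 * U))) * (400 / kk ^ 2 * U ^ 3) =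
          (400 / kk ^ 2 * U ^ 4 + 2400 / kk ^ 2 * U ^ 3) * Real.exp (-(4 * U)) := by ring
      rw [e4, ← add_mul]
      apply mul_le_mul_of_nonneg_right _ hE0.le
      rw [hC]
      nlinarith
    linarith
  calc q * ((U * Real.exp (-(kk / L * x / 4)) + 6 * Real.exp (-(U - 2) ^ 2 / 2)) *
        (20 * (L + 3) / (kk / L) ^ 2) + 6 * LS (1 / x) * Real.exp (-(U - 2) ^ 2 / 4))
      ≤ q * (C * U ^ 4 * Real.exp (-(4 * U))) := mul_le_mul_of_nonneg_left hmain hq0
    _ ≤ Real.exp (2 * U) * (C * U ^ 4 * Real.exp (-(4 * U))) := by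
        apply mul_le_mul_of_nonneg_right hq2
        positivity
    _ = (C * (U ^ 4 * Real.exp (-U))) * Real.exp (-U) := by
        have : Real.exp (2 * U) * Real.exp (-(4 * U)) = Real.exp (-U) * Real.exp (-U) := by
          rw [← Real.exp_add, ← Real.exp_add]
          congr 1
          ring
        calc Real.exp (2 * U) * (C * U ^ 4 * Real.exp (-(4 * U))) =
            (Real.exp (2 * U) * Real.exp (-(4 * U))) * (C * U ^ 4) := by ring
          _ = _ := by rw [this]; ring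
    _ ≤ 1 * Real.exp (-U) := by
        apply mul_le_mul_of_nonneg_right h1.le (Real.exp_pos _).le
    _ = Real.exp (-U) := one_mul _

/-- **No bad characters.** For every large `U` and every `z ≤ U` there is a prime `p ∣ P(z)` such
that modulo `P(z)/p` all non-principal characters together contribute less than `e^(-U)` in the
range `U³ ≤ x ≤ e^U`. -/
theorem good_sum : ∃ U₀ : ℝ, ∀ U : ℝ, U₀ ≤ U → ∀ z : ℕ, 2 ≤ z → (z : ℝ) ≤ U →
    ∃ p : ℕ, p.Prime ∧ p ∣ primorial z ∧ ∀ (q : ℕ) [NeZero q], q * p = primorial z →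
      ∀ x : ℝ, U ^ 3 ≤ x → x ≤ Real.exp U →
        ∑ χ ∈ (Finset.univ : Finset (DirichletCharacter ℂ q)).erase 1, ‖SS χ x‖ ≤
          Real.exp (-U) := by
  have hkk : 0 < kk := by unfold kk; norm_num
  obtain ⟨L₀, hL₀, hgood⟩ := exists_good
  obtain ⟨U₁, hU₁2, hnum⟩ := numeric_small
  have hlog : Tendsto (fun U : ℝ => Real.log (2 * U + 3)) atTop atTop := by
    apply Real.tendsto_log_atTop.comp
    exact tendsto_atTop_add_const_right _ _ (tendsto_id.const_mul_atTop (by norm_num))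
  have hlog2 : ∀ᶠ U : ℝ in atTop, Real.log (2 * U + 3) ≤ U / 2 := by
    have h1 : Tendsto (fun x : ℝ => Real.log x / x) atTop (𝓝 0) := by
      have := Real.isLittleO_log_id_atTop.tendsto_div_nhds_zero
      simpa using this
    have h2 : Tendsto (fun U : ℝ => 2 * U + 3) atTop atTop :=
      tendsto_atTop_add_const_right _ _ (tendsto_id.const_mul_atTop (by norm_num))
    filter_upwards [(h1.comp h2).eventually_lt_const (show (0 : ℝ) < 1 / 8 by norm_num),
      eventually_ge_atTop (3 : ℝ)] with U h3 h4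
    simp only [Function.comp] at h3
    rw [div_lt_iff₀ (by linarith)] at h3
    linarith
  obtain ⟨U₂, hU₂⟩ := eventually_atTop.1 ((hlog.eventually_ge_atTop (max L₀ (4 * kk))).and hlog2)
  refine ⟨max (max U₁ U₂) 2, ?_⟩
  intro U hU z hz hzU
  have hU1 : U₁ ≤ U := (le_max_left _ _).trans ((le_max_left _ _).trans hU)
  have hU2 : U₂ ≤ U := (le_max_right _ _).trans ((le_max_left _ _).trans hU)
  have hU3 : 2 ≤ U := (le_max_right _ _).trans hU
  obtain ⟨h1, h2⟩ := hU₂ U hU2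
  haveI : NeZero (primorial z) := ⟨primorial_ne_zero z⟩
  have hp1 : (1 : ℝ) ≤ primorial z := by exact_mod_cast primorial_pos z
  have hp4 : (primorial z : ℝ) ≤ (4 : ℝ) ^ U := by
    calc (primorial z : ℝ) ≤ (4 : ℝ) ^ z := by exact_mod_cast primorial_le_four_pow z
      _ = (4 : ℝ) ^ (z : ℝ) := (Real.rpow_natCast _ _).symm
      _ ≤ (4 : ℝ) ^ U := Real.rpow_le_rpow_of_exponent_le (by norm_num) hzU
  have hLL : LL (primorial z) (2 * U) = Real.log (primorial z) + Real.log (2 * U + 3) := by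
    unfold LL
    rw [Real.log_mul (by linarith) (by linarith)]
  have hlogp : Real.log (primorial z) ≤ U * Real.log 4 := by
    rw [← Real.log_rpow (by norm_num)]
    exact Real.log_le_log (by linarith) hp4
  have hlog4 : Real.log 4 ≤ 3 / 2 := by
    have : (4 : ℝ) = 2 ^ 2 := by norm_num
    rw [this, Real.log_pow]
    have := Real.log_two_lt_d9
    norm_num at this ⊢
    linarith
  have hlogp0 : 0 ≤ Real.log (primorial z) := Real.log_nonneg hp1
  have hLge : max L₀ (4 * kk) ≤ LL (primorial z) (2 * U) := by rw [hLL]; linarith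
  have hLle : LL (primorial z) (2 * U) ≤ 2 * U := by
    rw [hLL]
    nlinarith
  have hsqf : Squarefree (primorial z) := by
    unfold primorial
    refine Finset.squarefree_prod_of_pairwise_isCoprime ?_ fun p hp =>
      (Finset.mem_filter.1 hp).2.squarefree
    intro p hp q hq hpq
    exact Nat.coprime_iff_isRelPrime.1 ((Nat.coprime_primes (Finset.mem_filter.1 hp).2
      (Finset.mem_filter.1 hq).2).2 hpq)
  have hp2 : 1 < primorial z := by
    have h2p : 2 ∣ primorial z := (Nat.prime_two.dvd_primorial_iff).2 hz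
    exact lt_of_lt_of_le one_lt_two (Nat.le_of_dvd (primorial_pos z) h2p)
  obtain ⟨p, hp, hpd, hg⟩ := hgood (primorial z) (2 * U) hsqf hp2 (by linarith)
    ((le_max_left _ _).trans hLge)
  refine ⟨p, hp, hpd, ?_⟩
  intro q _ hq x hx1 hx2
  have hq1 : (1 : ℝ) ≤ q := by exact_mod_cast Nat.one_le_iff_ne_zero.2 (NeZero.ne q)
  have hqle : (q : ℝ) ≤ primorial z := by
    exact_mod_cast Nat.le_of_dvd (primorial_pos z) ⟨p, hq.symm⟩
  have hLLq : LL q U ≤ LL (primorial z) (2 * U) := by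
    unfold LL
    apply Real.log_le_log (by positivity)
    apply mul_le_mul hqle (by linarith) (by linarith) (by linarith)
  have hx0 : 1 ≤ x := by
    have h3 : (1 : ℝ) ≤ U ^ 3 := one_le_pow₀ (by linarith)
    linarith
  have h4kk : 4 * kk ≤ LL (primorial z) (2 * U) := (le_max_right _ _).trans hLge
  have h5 := sum_SS_q (q := q) (L := LL (primorial z) (2 * U)) (T := U) h4kk hU3 hLLq
    (fun χ hχ ρ h1 h2 => hg q hq χ hχ ρ h1 (by rw [mul_div_cancel_left₀ _ (by norm_num)]; exact h2))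
    hx0
  exact h5.trans (hnum U hU1 _ q x h4kk hLle (by linarith) (hqle.trans hp4) hx1 hx2)

end Pool.Agent.LibG2
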