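import Pool.Agent.LibG2.Final

/-!
The moments of the number of primes in Cramér's windows `(n, n + c log² x]`.
-/

namespace Pool.Agent.LibG2

open Filter Topology
open Pool.Gal99 (ks hh sq3 cor_L cor_sq3 cor_hh cor_hh_ge cor_hh_le cor_arg cor_ks)

lemma pw_eq (n h : ℕ) : pw n h = Nat.primeCounting (n + h) - Nat.primeCounting n := by
  unfold pw
  rw [Nat.primeCounting, Nat.primeCounting, Nat.primeCounting', Nat.count_eq_card_filter_range,
    Nat.count_eq_card_filter_range]
  have h1 : (Finset.range (n + h + 1)).filter Nat.Prime =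
      (Finset.range (n + 1)).filter Nat.Prime ∪ (Finset.Ioc n (n + h)).filter Nat.Prime := by
    ext p
    simp only [Finset.mem_filter, Finset.mem_range, Finset.mem_union, Finset.mem_Ioc]
    constructor
    · rintro ⟨h1, h2⟩
      by_cases h3 : p < n + 1
      · exact Or.inl ⟨h3, h2⟩
      · exact Or.inr ⟨⟨by omega, by omega⟩, h2⟩
    · rintro (⟨h1, h2⟩ | ⟨⟨h1, h3⟩, h2⟩)
      · exact ⟨by omega, h2⟩
      · exact ⟨by omega, h2⟩
  have h2 : Disjoint ((Finset.range (n + 1)).filter Nat.Prime)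
      ((Finset.Ioc n (n + h)).filter Nat.Prime) := by
    rw [Finset.disjoint_left]
    intro p hp hp'
    simp only [Finset.mem_filter, Finset.mem_range, Finset.mem_Ioc] at hp hp'
    omega
  have h3 := Finset.card_union_of_disjoint h2
  rw [← h1] at h3
  have h4 : ((Finset.range (n + h + 1)).filter Nat.Prime).card -
      ((Finset.range (n + 1)).filter Nat.Prime).card = ((Finset.Ioc n (n + h)).filter Nat.Prime).card := by
    omega
  rw [← h4]

/-- The `k`-th binomial moment of the number of primes in the windows `(n, n + c log² x]`,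
`1 ≤ n ≤ x`. -/
noncomputable def prMoment (c : ℝ) (x k : ℕ) : ℝ :=
  (∑ n ∈ Finset.Icc 1 x,
    ((Nat.primeCounting (n + hh c x) - Nat.primeCounting n).choose k : ℝ)) / x

/-- **The primes exceed Cramér's moments**, at the scale of Cramér's conjecture. -/
theorem primes_above (c ε M : ℝ) (hc : 0 < c) (hε : 0 < ε) : ∀ᶠ x : ℕ in atTop, ∀ k : ℕ,
    (2 + ε) * sq3 x ≤ Real.log k → (k : ℝ) ≤ Real.log x ^ (1 - ε) →
      M * (((hh c x : ℝ) / Real.log x) ^ k / k.factorial) ≤ prMoment c x k := by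
  rcases le_or_gt ε 1 with hε1 | hε1
  swap
  · -- no such `k`
    filter_upwards [cor_sq3.eventually_gt_atTop 0, cor_L.eventually_ge_atTop 1] with x h1 h2 k h3 h4
    exfalso
    have h5 : Real.log x ^ (1 - ε) ≤ 1 :=
      Real.rpow_le_one_of_one_le_of_nonpos h2 (by linarith)
    have h6 : Real.log k ≤ 0 := Real.log_nonpos (Nat.cast_nonneg k) (h4.trans h5)
    nlinarith
  have hmom := moments_above (ε / 8) (1 / 2) 3 M (by positivity) (by linarith) (by norm_num)
    (by norm_num)
  have h2 := ((cor_ks c hc).const_mul (1 + ε / 8)).eventually_lt_const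
    (show (1 + ε / 8) * 2 < 2 + ε by linarith)
  have hcL : Tendsto (fun x : ℕ => c / 2 * Real.log (x : ℝ) ^ (1 / 2 : ℝ)) atTop atTop :=
    ((tendsto_rpow_atTop (by norm_num)).comp cor_L).const_mul_atTop (by positivity)
  have hcε : Tendsto (fun x : ℕ => (c / 2) ^ (1 - ε / 8) * Real.log (x : ℝ) ^ (7 * ε / 8)) atTop
      atTop :=
    ((tendsto_rpow_atTop (by positivity)).comp cor_L).const_mul_atTop (by positivity)
  filter_upwards [hmom, h2, cor_sq3.eventually_gt_atTop 0, cor_L.eventually_ge_atTop (max c 1),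
    (cor_arg c hc).eventually_ge_atTop 2, hcL.eventually_ge_atTop 1, hcε.eventually_ge_atTop 1]
    with x hx hr hs hL h2c hcx hcεx k hk1 hk2
  have hLc : c ≤ Real.log x := (le_max_left _ _).trans hL
  have hL1 : 1 ≤ Real.log x := (le_max_right _ _).trans hL
  have hL0 : 0 < Real.log x := by linarith
  have hge := cor_hh_ge c x h2c
  have hle := cor_hh_le c x (by positivity)
  -- size of the windows
  have a1 : Real.log x ^ (1 + 1 / 2 : ℝ) ≤ hh c x := by
    refine le_trans ?_ hge
    have e1 : Real.log (x : ℝ) ^ (2 : ℕ) = Real.log x ^ (1 + 1 / 2 : ℝ) * Real.log x ^ (1 / 2 : ℝ) := by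
      rw [← Real.rpow_add hL0, ← Real.rpow_natCast]
      norm_num
    have h3 : 0 < Real.log (x : ℝ) ^ (1 + 1 / 2 : ℝ) := Real.rpow_pos_of_pos hL0 _
    rw [e1]
    calc Real.log (x : ℝ) ^ (1 + 1 / 2 : ℝ) = Real.log (x : ℝ) ^ (1 + 1 / 2 : ℝ) * 1 := (mul_one _).symm
      _ ≤ Real.log (x : ℝ) ^ (1 + 1 / 2 : ℝ) * (c / 2 * Real.log (x : ℝ) ^ (1 / 2 : ℝ)) :=
          mul_le_mul_of_nonneg_left hcx h3.le
      _ = _ := by ring
  have a2 : (hh c x : ℝ) ≤ Real.log x ^ (3 : ℝ) := by
    refine hle.trans ?_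
    have e1 : Real.log (x : ℝ) ^ (3 : ℝ) = Real.log x * Real.log x ^ 2 := by
      rw [show (3 : ℝ) = ((3 : ℕ) : ℝ) by norm_num, Real.rpow_natCast]
      ring
    rw [e1]
    exact mul_le_mul_of_nonneg_right hLc (by positivity)
  -- `k`
  have a3 : (1 + ε / 8) * ks (hh c x) ≤ Real.log k := by
    refine le_trans ?_ hk1
    rw [← mul_div_assoc, div_lt_iff₀ hs] at hr
    exact hr.le
  have a4 : (k : ℝ) ≤ ((hh c x : ℝ) / Real.log x) ^ (1 - ε / 8) := by
    refine hk2.trans ?_
    have h3 : c / 2 * Real.log x ≤ (hh c x : ℝ) / Real.log x := by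
      rw [le_div_iff₀ hL0]
      nlinarith
    calc Real.log (x : ℝ) ^ (1 - ε)
        ≤ Real.log (x : ℝ) ^ (1 - ε) * ((c / 2) ^ (1 - ε / 8) * Real.log (x : ℝ) ^ (7 * ε / 8)) :=
          le_mul_of_one_le_right (Real.rpow_nonneg hL0.le _) hcεx
      _ = (c / 2) ^ (1 - ε / 8) * Real.log (x : ℝ) ^ (1 - ε / 8) := by
          have : Real.log (x : ℝ) ^ (1 - ε) * Real.log (x : ℝ) ^ (7 * ε / 8) =
              Real.log (x : ℝ) ^ (1 - ε / 8) := by
            rw [← Real.rpow_add hL0]
            congr 1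
            ring
          rw [← this]
          ring
      _ = (c / 2 * Real.log x) ^ (1 - ε / 8) := (Real.mul_rpow (by positivity) hL0.le).symm
      _ ≤ ((hh c x : ℝ) / Real.log x) ^ (1 - ε / 8) :=
          Real.rpow_le_rpow (by positivity) h3 (by linarith)
  have := hx (hh c x) k a1 a2 a3 a4
  refine this.trans (le_of_eq ?_)
  unfold prMoment
  congr 1
  apply Finset.sum_congr rfl
  intro n _
  rw [pw_eq]

end Pool.Agent.LibG2
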